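import Pool.Agent.Gen.F5.X123C1Dm6.S000
import Pool.Agent.Gen.F5.X123C1Dm6.S001
import Pool.Agent.Gen.F5.X123C1Dm6.S002
import Pool.Agent.Gen.F5.X123C1Dm6.S003
import Pool.Agent.Gen.F5.X123C1Dm6.S004
import Pool.Agent.Gen.F5.X123C1Dm6.S005
import Pool.Agent.Gen.F5.X123C1Dm6.S006

set_option autoImplicit false
set_option maxRecDepth 100000

namespace Pool.Agent.Gen.F5.X123C1Dm6

open Pool.Agent.Helper72.F5

def n0 : Cl (O (nat_lit 6)) (R (nat_lit 135377))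
    (p (nat_lit 0x10e0d0c8c0d9a) (nat_lit 0) (p (nat_lit 0x8d8c8c0b8d1a) (nat_lit 0) (p (nat_lit 0x10d0c0b8b0a9a) (nat_lit 0) (p (nat_lit 0x8c8b8b0a8a1a) (nat_lit 0) (p (nat_lit 0x2a825aa825800000c0a8a0b8a) (nat_lit 0) (p (nat_lit 0x2a825aa825800000b8a09890a) (nat_lit 0) (p (nat_lit 0xb0004) (nat_lit 1) (p (nat_lit 0x200014) (nat_lit 0) (p (nat_lit 0x20000c) (nat_lit 0) (p (nat_lit 0x89) (nat_lit 1) (p (nat_lit 0x101) (nat_lit 1) (p (nat_lit 0xc1) (nat_lit 1) (p (nat_lit 0x119) (nat_lit 1) (p (nat_lit 0xd1) (nat_lit 0) (p (nat_lit 0x81) (nat_lit 0) (p (nat_lit 0x41) (nat_lit 1) (p (nat_lit 0x10b0a09890a9a) (nat_lit 0) (p (nat_lit 0x8a8989088a1a) (nat_lit 0) (p (nat_lit 0x10a090888079a) (nat_lit 0) (p (nat_lit 0x89888807871a) (nat_lit 0) (p (nat_lit 0x8000080000000090787088a) (nat_lit 0) (p (nat_lit 0x8000080000000088706860a) (nat_lit 0) (p (nat_lit 0x10706860782) (nat_lit 0) (p (nat_lit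 0x8686058702) (nat_lit 0) (p (nat_lit 0x10605850482) (nat_lit 0) (p (nat_lit 0x8585048402) (nat_lit 0) (p (nat_lit 0x160004) (nat_lit 0) (p (nat_lit 0x60592) (nat_lit 0) (p (nat_lit 0x48512) (nat_lit 0) (p (nat_lit 0x50392) (nat_lit 0) (p (nat_lit 0x38312) (nat_lit 0) (p (nat_lit 0x40212) (nat_lit 0) (p (nat_lit 0x28192) (nat_lit 0) (p (nat_lit 0x30092) (nat_lit 0) (p (nat_lit 0x18012) (nat_lit 0) pn))))))))))))))))))))))))))))))))))) :=
  Cl.node (nat_lit 0xc9) (nat_lit 2) (by decide +kernel) (ClAll.succ (ClAll.succ ClAll.zero s126) s127)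

def n1 : Cl (O (nat_lit 6)) (R (nat_lit 135377))
    (p (nat_lit 0x10e0d0c8c0d9a) (nat_lit 0) (p (nat_lit 0x8d8c8c0b8d1a) (nat_lit 0) (p (nat_lit 0x10d0c0b8b0a9a) (nat_lit 0) (p (nat_lit 0x8c8b8b0a8a1a) (nat_lit 0) (p (nat_lit 0x2a825aa825800000c0a8a0b8a) (nat_lit 0) (p (nat_lit 0x2a825aa825800000b8a09890a) (nat_lit 0) (p (nat_lit 0xb0004) (nat_lit 1) (p (nat_lit 0x200014) (nat_lit 0) (p (nat_lit 0x20000c) (nat_lit 0) (p (nat_lit 0xc9) (nat_lit 0) (p (nat_lit 0x89) (nat_lit 1) (p (nat_lit 0x101) (nat_lit 1) (p (nat_lit 0x111) (nat_lit 0) (p (nat_lit 0xd1) (nat_lit 1) (p (nat_lit 0x81) (nat_lit 0) (p (nat_lit 0x41) (nat_lit 1) (p (nat_lit 0x10b0a09890a9a) (nat_lit 0) (p (nat_lit 0x8a8989088a1a) (nat_lit 0) (p (nat_lit 0x10a090888079a) (nat_lit 0) (p (nat_lit 0x89888807871a) (nat_lit 0) (p (nat_lit 0x8000080000000090787088a) (nat_lit 0) (p (nat_lit 0x8000080000000088706860a) (nat_lit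 0) (p (nat_lit 0x10706860782) (nat_lit 0) (p (nat_lit 0x8686058702) (nat_lit 0) (p (nat_lit 0x10605850482) (nat_lit 0) (p (nat_lit 0x8585048402) (nat_lit 0) (p (nat_lit 0x160004) (nat_lit 0) (p (nat_lit 0x60592) (nat_lit 0) (p (nat_lit 0x48512) (nat_lit 0) (p (nat_lit 0x50392) (nat_lit 0) (p (nat_lit 0x38312) (nat_lit 0) (p (nat_lit 0x40212) (nat_lit 0) (p (nat_lit 0x28192) (nat_lit 0) (p (nat_lit 0x30092) (nat_lit 0) (p (nat_lit 0x18012) (nat_lit 0) pn))))))))))))))))))))))))))))))))))) :=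
  Cl.node (nat_lit 0x119) (nat_lit 2) (by decide +kernel) (ClAll.succ (ClAll.succ ClAll.zero s143) s144)

def n2 : Cl (O (nat_lit 6)) (R (nat_lit 135377))
    (p (nat_lit 0x8d8c8c0b8d1a) (nat_lit 0) (p (nat_lit 0x10d0c0b8b0a9a) (nat_lit 0) (p (nat_lit 0x8c8b8b0a8a1a) (nat_lit 0) (p (nat_lit 0x2a825aa825800000c0a8a0b8a) (nat_lit 0) (p (nat_lit 0x2a825aa825800000b8a09890a) (nat_lit 0) (p (nat_lit 0xb0004) (nat_lit 1) (p (nat_lit 0x200014) (nat_lit 0) (p (nat_lit 0x20000c) (nat_lit 0) (p (nat_lit 0x89) (nat_lit 1) (p (nat_lit 0x101) (nat_lit 1) (p (nat_lit 0xc1) (nat_lit 1) (p (nat_lit 0x119) (nat_lit 1) (p (nat_lit 0xd1) (nat_lit 0) (p (nat_lit 0x81) (nat_lit 0) (p (nat_lit 0x41) (nat_lit 1) (p (nat_lit 0x10b0a09890a9a) (nat_lit 0) (p (nat_lit 0x8a8989088a1a) (nat_lit 0) (p (nat_lit 0x10a090888079a) (nat_lit 0) (p (nat_lit 0x89888807871a) (nat_lit 0) (p (nat_lit 0x8000080000000090787088a)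 (nat_lit 0) (p (nat_lit 0x8000080000000088706860a) (nat_lit 0) (p (nat_lit 0x10706860782) (nat_lit 0) (p (nat_lit 0x8686058702) (nat_lit 0) (p (nat_lit 0x10605850482) (nat_lit 0) (p (nat_lit 0x8585048402) (nat_lit 0) (p (nat_lit 0x160004) (nat_lit 0) (p (nat_lit 0x60592) (nat_lit 0) (p (nat_lit 0x48512) (nat_lit 0) (p (nat_lit 0x50392) (nat_lit 0) (p (nat_lit 0x38312) (nat_lit 0) (p (nat_lit 0x40212) (nat_lit 0) (p (nat_lit 0x28192) (nat_lit 0) (p (nat_lit 0x30092) (nat_lit 0) (p (nat_lit 0x18012) (nat_lit 0) pn)))))))))))))))))))))))))))))))))) :=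
  Cl.node (nat_lit 0x10e0d0c8c0d9a) (nat_lit 1) (by decide +kernel) (ClAll.succ ClAll.zero n0)

def n3 : Cl (O (nat_lit 6)) (R (nat_lit 135377))
    (p (nat_lit 0x8d8c8c0b8d1a) (nat_lit 0) (p (nat_lit 0x10d0c0b8b0a9a) (nat_lit 0) (p (nat_lit 0x8c8b8b0a8a1a) (nat_lit 0) (p (nat_lit 0x2a825aa825800000c0a8a0b8a) (nat_lit 0) (p (nat_lit 0x2a825aa825800000b8a09890a) (nat_lit 0) (p (nat_lit 0xb0004) (nat_lit 1) (p (nat_lit 0x200014) (nat_lit 0) (p (nat_lit 0x20000c) (nat_lit 0) (p (nat_lit 0xc9) (nat_lit 0) (p (nat_lit 0x89) (nat_lit 1) (p (nat_lit 0x101) (nat_lit 1) (p (nat_lit 0x111) (nat_lit 0) (p (nat_lit 0xd1) (nat_lit 1) (p (nat_lit 0x81) (nat_lit 0) (p (nat_lit 0x41) (nat_lit 1) (p (nat_lit 0x10b0a09890a9a) (nat_lit 0) (p (nat_lit 0x8a8989088a1a) (nat_lit 0) (p (nat_lit 0x10a090888079a) (nat_lit 0) (p (nat_lit 0x89888807871a) (nat_lit 0) (p (nat_lit 0x8000080000000090787088a) (nat_lit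 0) (p (nat_lit 0x8000080000000088706860a) (nat_lit 0) (p (nat_lit 0x10706860782) (nat_lit 0) (p (nat_lit 0x8686058702) (nat_lit 0) (p (nat_lit 0x10605850482) (nat_lit 0) (p (nat_lit 0x8585048402) (nat_lit 0) (p (nat_lit 0x160004) (nat_lit 0) (p (nat_lit 0x60592) (nat_lit 0) (p (nat_lit 0x48512) (nat_lit 0) (p (nat_lit 0x50392) (nat_lit 0) (p (nat_lit 0x38312) (nat_lit 0) (p (nat_lit 0x40212) (nat_lit 0) (p (nat_lit 0x28192) (nat_lit 0) (p (nat_lit 0x30092) (nat_lit 0) (p (nat_lit 0x18012) (nat_lit 0) pn)))))))))))))))))))))))))))))))))) :=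
  Cl.node (nat_lit 0x10e0d0c8c0d9a) (nat_lit 1) (by decide +kernel) (ClAll.succ ClAll.zero n1)

def n4 : Cl (O (nat_lit 6)) (R (nat_lit 135377))
    (p (nat_lit 0x10d0c0b8b0a9a) (nat_lit 0) (p (nat_lit 0x8c8b8b0a8a1a) (nat_lit 0) (p (nat_lit 0x2a825aa825800000c0a8a0b8a) (nat_lit 0) (p (nat_lit 0x2a825aa825800000b8a09890a) (nat_lit 0) (p (nat_lit 0xb0004) (nat_lit 1) (p (nat_lit 0x200014) (nat_lit 0) (p (nat_lit 0x20000c) (nat_lit 0) (p (nat_lit 0x89) (nat_lit 1) (p (nat_lit 0x101) (nat_lit 1) (p (nat_lit 0xc1) (nat_lit 1) (p (nat_lit 0x119) (nat_lit 1) (p (nat_lit 0xd1) (nat_lit 0) (p (nat_lit 0x81) (nat_lit 0) (p (nat_lit 0x41) (nat_lit 1) (p (nat_lit 0x10b0a09890a9a) (nat_lit 0) (p (nat_lit 0x8a8989088a1a) (nat_lit 0) (p (nat_lit 0x10a090888079a) (nat_lit 0) (p (nat_lit 0x89888807871a) (nat_lit 0) (p (nat_lit 0x8000080000000090787088a) (nat_lit 0) (p (nat_lit 0x8000080000000088706860a)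 (nat_lit 0) (p (nat_lit 0x10706860782) (nat_lit 0) (p (nat_lit 0x8686058702) (nat_lit 0) (p (nat_lit 0x10605850482) (nat_lit 0) (p (nat_lit 0x8585048402) (nat_lit 0) (p (nat_lit 0x160004) (nat_lit 0) (p (nat_lit 0x60592) (nat_lit 0) (p (nat_lit 0x48512) (nat_lit 0) (p (nat_lit 0x50392) (nat_lit 0) (p (nat_lit 0x38312) (nat_lit 0) (p (nat_lit 0x40212) (nat_lit 0) (p (nat_lit 0x28192) (nat_lit 0) (p (nat_lit 0x30092) (nat_lit 0) (p (nat_lit 0x18012) (nat_lit 0) pn))))))))))))))))))))))))))))))))) :=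
  Cl.node (nat_lit 0x8d8c8c0b8d1a) (nat_lit 1) (by decide +kernel) (ClAll.succ ClAll.zero n2)

def n5 : Cl (O (nat_lit 6)) (R (nat_lit 135377))
    (p (nat_lit 0x10d0c0b8b0a9a) (nat_lit 0) (p (nat_lit 0x8c8b8b0a8a1a) (nat_lit 0) (p (nat_lit 0x2a825aa825800000c0a8a0b8a) (nat_lit 0) (p (nat_lit 0x2a825aa825800000b8a09890a) (nat_lit 0) (p (nat_lit 0xb0004) (nat_lit 1) (p (nat_lit 0x200014) (nat_lit 0) (p (nat_lit 0x20000c) (nat_lit 0) (p (nat_lit 0xc9) (nat_lit 0) (p (nat_lit 0x89) (nat_lit 1) (p (nat_lit 0x101) (nat_lit 1) (p (nat_lit 0x111) (nat_lit 0) (p (nat_lit 0xd1) (nat_lit 1) (p (nat_lit 0x81) (nat_lit 0) (p (nat_lit 0x41) (nat_lit 1) (p (nat_lit 0x10b0a09890a9a) (nat_lit 0) (p (nat_lit 0x8a8989088a1a) (nat_lit 0) (p (nat_lit 0x10a090888079a) (nat_lit 0) (p (nat_lit 0x89888807871a) (nat_lit 0) (p (nat_lit 0x8000080000000090787088a) (nat_lit 0) (p (nat_lit 0x8000080000000088706860a)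 (nat_lit 0) (p (nat_lit 0x10706860782) (nat_lit 0) (p (nat_lit 0x8686058702) (nat_lit 0) (p (nat_lit 0x10605850482) (nat_lit 0) (p (nat_lit 0x8585048402) (nat_lit 0) (p (nat_lit 0x160004) (nat_lit 0) (p (nat_lit 0x60592) (nat_lit 0) (p (nat_lit 0x48512) (nat_lit 0) (p (nat_lit 0x50392) (nat_lit 0) (p (nat_lit 0x38312) (nat_lit 0) (p (nat_lit 0x40212) (nat_lit 0) (p (nat_lit 0x28192) (nat_lit 0) (p (nat_lit 0x30092) (nat_lit 0) (p (nat_lit 0x18012) (nat_lit 0) pn))))))))))))))))))))))))))))))))) :=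
  Cl.node (nat_lit 0x8d8c8c0b8d1a) (nat_lit 1) (by decide +kernel) (ClAll.succ ClAll.zero n3)

def n6 : Cl (O (nat_lit 6)) (R (nat_lit 135377))
    (p (nat_lit 0x101) (nat_lit 1) (p (nat_lit 0x109) (nat_lit 0) (p (nat_lit 0xb0004) (nat_lit 0) (p (nat_lit 0x111) (nat_lit 0) (p (nat_lit 0x200014) (nat_lit 0) (p (nat_lit 0x20000c) (nat_lit 0) (p (nat_lit 0xc9) (nat_lit 1) (p (nat_lit 0x81) (nat_lit 0) (p (nat_lit 0x101) (nat_lit 1) (p (nat_lit 0x119) (nat_lit 0) (p (nat_lit 0xd1) (nat_lit 0) (p (nat_lit 0x89) (nat_lit 0) (p (nat_lit 0x41) (nat_lit 0) (p (nat_lit 0x10b0a09890a9a) (nat_lit 0) (p (nat_lit 0x8a8989088a1a) (nat_lit 0) (p (nat_lit 0x10a090888079a) (nat_lit 0) (p (nat_lit 0x89888807871a) (nat_lit 0) (p (nat_lit 0x8000080000000090787088a) (nat_lit 0) (p (nat_lit 0x8000080000000088706860a) (nat_lit 0) (p (nat_lit 0x10706860782) (nat_lit 0) (p (nat_lit 0x8686058702) (nat_lit 0)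 (p (nat_lit 0x10605850482) (nat_lit 0) (p (nat_lit 0x8585048402) (nat_lit 0) (p (nat_lit 0x160004) (nat_lit 0) (p (nat_lit 0x60592) (nat_lit 0) (p (nat_lit 0x48512) (nat_lit 0) (p (nat_lit 0x50392) (nat_lit 0) (p (nat_lit 0x38312) (nat_lit 0) (p (nat_lit 0x40212) (nat_lit 0) (p (nat_lit 0x28192) (nat_lit 0) (p (nat_lit 0x30092) (nat_lit 0) (p (nat_lit 0x18012) (nat_lit 0) pn)))))))))))))))))))))))))))))))) :=
  Cl.node (nat_lit 0x10000c) (nat_lit 2) (by decide +kernel) (ClAll.succ (ClAll.succ ClAll.zero s10) s11)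

def n7 : Cl (O (nat_lit 6)) (R (nat_lit 135377))
    (p (nat_lit 0x8c8b8b0a8a1a) (nat_lit 0) (p (nat_lit 0x2a825aa825800000c0a8a0b8a) (nat_lit 0) (p (nat_lit 0x2a825aa825800000b8a09890a) (nat_lit 0) (p (nat_lit 0xb0004) (nat_lit 1) (p (nat_lit 0x200014) (nat_lit 0) (p (nat_lit 0x20000c) (nat_lit 0) (p (nat_lit 0x89) (nat_lit 1) (p (nat_lit 0x101) (nat_lit 1) (p (nat_lit 0xc1) (nat_lit 1) (p (nat_lit 0x119) (nat_lit 1) (p (nat_lit 0xd1) (nat_lit 0) (p (nat_lit 0x81) (nat_lit 0) (p (nat_lit 0x41) (nat_lit 1) (p (nat_lit 0x10b0a09890a9a) (nat_lit 0) (p (nat_lit 0x8a8989088a1a) (nat_lit 0) (p (nat_lit 0x10a090888079a) (nat_lit 0) (p (nat_lit 0x89888807871a) (nat_lit 0) (p (nat_lit 0x8000080000000090787088a) (nat_lit 0) (p (nat_lit 0x8000080000000088706860a) (nat_lit 0) (p (nat_lit 0x10706860782) (nat_lit 0) (p (nat_lit 0x8686058702) (nat_lit 0) (p (nat_lit 0x10605850482) (nat_lit 0)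 (p (nat_lit 0x8585048402) (nat_lit 0) (p (nat_lit 0x160004) (nat_lit 0) (p (nat_lit 0x60592) (nat_lit 0) (p (nat_lit 0x48512) (nat_lit 0) (p (nat_lit 0x50392) (nat_lit 0) (p (nat_lit 0x38312) (nat_lit 0) (p (nat_lit 0x40212) (nat_lit 0) (p (nat_lit 0x28192) (nat_lit 0) (p (nat_lit 0x30092) (nat_lit 0) (p (nat_lit 0x18012) (nat_lit 0) pn)))))))))))))))))))))))))))))))) :=
  Cl.node (nat_lit 0x10d0c0b8b0a9a) (nat_lit 1) (by decide +kernel) (ClAll.succ ClAll.zero n4)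

def n8 : Cl (O (nat_lit 6)) (R (nat_lit 135377))
    (p (nat_lit 0x8c8b8b0a8a1a) (nat_lit 0) (p (nat_lit 0x2a825aa825800000c0a8a0b8a) (nat_lit 0) (p (nat_lit 0x2a825aa825800000b8a09890a) (nat_lit 0) (p (nat_lit 0xb0004) (nat_lit 1) (p (nat_lit 0x200014) (nat_lit 0) (p (nat_lit 0x20000c) (nat_lit 0) (p (nat_lit 0xc9) (nat_lit 0) (p (nat_lit 0x89) (nat_lit 1) (p (nat_lit 0x101) (nat_lit 1) (p (nat_lit 0x111) (nat_lit 0) (p (nat_lit 0xd1) (nat_lit 1) (p (nat_lit 0x81) (nat_lit 0) (p (nat_lit 0x41) (nat_lit 1) (p (nat_lit 0x10b0a09890a9a) (nat_lit 0) (p (nat_lit 0x8a8989088a1a) (nat_lit 0) (p (nat_lit 0x10a090888079a) (nat_lit 0) (p (nat_lit 0x89888807871a) (nat_lit 0) (p (nat_lit 0x8000080000000090787088a) (nat_lit 0) (p (nat_lit 0x8000080000000088706860a) (nat_lit 0) (p (nat_lit 0x10706860782) (nat_lit 0) (p (nat_lit 0x8686058702) (nat_lit 0) (p (nat_lit 0x10605850482) (nat_lit 0)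 (p (nat_lit 0x8585048402) (nat_lit 0) (p (nat_lit 0x160004) (nat_lit 0) (p (nat_lit 0x60592) (nat_lit 0) (p (nat_lit 0x48512) (nat_lit 0) (p (nat_lit 0x50392) (nat_lit 0) (p (nat_lit 0x38312) (nat_lit 0) (p (nat_lit 0x40212) (nat_lit 0) (p (nat_lit 0x28192) (nat_lit 0) (p (nat_lit 0x30092) (nat_lit 0) (p (nat_lit 0x18012) (nat_lit 0) pn)))))))))))))))))))))))))))))))) :=
  Cl.node (nat_lit 0x10d0c0b8b0a9a) (nat_lit 1) (by decide +kernel) (ClAll.succ ClAll.zero n5)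

def n9 : Cl (O (nat_lit 6)) (R (nat_lit 135377))
    (p (nat_lit 0x109) (nat_lit 0) (p (nat_lit 0xb0004) (nat_lit 0) (p (nat_lit 0x111) (nat_lit 0) (p (nat_lit 0x200014) (nat_lit 0) (p (nat_lit 0x20000c) (nat_lit 0) (p (nat_lit 0xc9) (nat_lit 1) (p (nat_lit 0x81) (nat_lit 0) (p (nat_lit 0x101) (nat_lit 1) (p (nat_lit 0x119) (nat_lit 0) (p (nat_lit 0xd1) (nat_lit 0) (p (nat_lit 0x89) (nat_lit 0) (p (nat_lit 0x41) (nat_lit 0) (p (nat_lit 0x10b0a09890a9a) (nat_lit 0) (p (nat_lit 0x8a8989088a1a) (nat_lit 0) (p (nat_lit 0x10a090888079a) (nat_lit 0) (p (nat_lit 0x89888807871a) (nat_lit 0) (p (nat_lit 0x8000080000000090787088a) (nat_lit 0) (p (nat_lit 0x8000080000000088706860a) (nat_lit 0) (p (nat_lit 0x10706860782) (nat_lit 0) (p (nat_lit 0x8686058702) (nat_lit 0) (p (nat_lit 0x10605850482) (nat_lit 0) (p (nat_lit 0x8585048402) (nat_lit 0) (p (nat_lit 0x160004) (nat_lit 0) (p (nat_lit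 0x60592) (nat_lit 0) (p (nat_lit 0x48512) (nat_lit 0) (p (nat_lit 0x50392) (nat_lit 0) (p (nat_lit 0x38312) (nat_lit 0) (p (nat_lit 0x40212) (nat_lit 0) (p (nat_lit 0x28192) (nat_lit 0) (p (nat_lit 0x30092) (nat_lit 0) (p (nat_lit 0x18012) (nat_lit 0) pn))))))))))))))))))))))))))))))) :=
  Cl.node (nat_lit 0x101) (nat_lit 2) (by decide +kernel) (ClAll.succ (ClAll.succ ClAll.zero s9) n6)

def n10 : Cl (O (nat_lit 6)) (R (nat_lit 135377))
    (p (nat_lit 0x2a825aa825800000c0a8a0b8a) (nat_lit 0) (p (nat_lit 0x2a825aa825800000b8a09890a) (nat_lit 0) (p (nat_lit 0xb0004) (nat_lit 1) (p (nat_lit 0x200014) (nat_lit 0) (p (nat_lit 0x20000c) (nat_lit 0) (p (nat_lit 0x89) (nat_lit 1) (p (nat_lit 0x101) (nat_lit 1) (p (nat_lit 0xc1) (nat_lit 1) (p (nat_lit 0x119) (nat_lit 1) (p (nat_lit 0xd1) (nat_lit 0) (p (nat_lit 0x81) (nat_lit 0) (p (nat_lit 0x41) (nat_lit 1) (p (nat_lit 0x10b0a09890a9a)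 (nat_lit 0) (p (nat_lit 0x8a8989088a1a) (nat_lit 0) (p (nat_lit 0x10a090888079a) (nat_lit 0) (p (nat_lit 0x89888807871a) (nat_lit 0) (p (nat_lit 0x8000080000000090787088a) (nat_lit 0) (p (nat_lit 0x8000080000000088706860a) (nat_lit 0) (p (nat_lit 0x10706860782) (nat_lit 0) (p (nat_lit 0x8686058702) (nat_lit 0) (p (nat_lit 0x10605850482) (nat_lit 0) (p (nat_lit 0x8585048402) (nat_lit 0) (p (nat_lit 0x160004) (nat_lit 0) (p (nat_lit 0x60592) (nat_lit 0) (p (nat_lit 0x48512) (nat_lit 0) (p (nat_lit 0x50392) (nat_lit 0) (p (nat_lit 0x38312) (nat_lit 0) (p (nat_lit 0x40212) (nat_lit 0) (p (nat_lit 0x28192) (nat_lit 0) (p (nat_lit 0x30092) (nat_lit 0) (p (nat_lit 0x18012) (nat_lit 0) pn))))))))))))))))))))))))))))))) :=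
  Cl.node (nat_lit 0x8c8b8b0a8a1a) (nat_lit 1) (by decide +kernel) (ClAll.succ ClAll.zero n7)

def n11 : Cl (O (nat_lit 6)) (R (nat_lit 135377))
    (p (nat_lit 0x2a825aa825800000c0a8a0b8a) (nat_lit 0) (p (nat_lit 0x2a825aa825800000b8a09890a) (nat_lit 0) (p (nat_lit 0xb0004) (nat_lit 1) (p (nat_lit 0x200014) (nat_lit 0) (p (nat_lit 0x20000c) (nat_lit 0) (p (nat_lit 0xc9) (nat_lit 0) (p (nat_lit 0x89) (nat_lit 1) (p (nat_lit 0x101) (nat_lit 1) (p (nat_lit 0x111) (nat_lit 0) (p (nat_lit 0xd1) (nat_lit 1) (p (nat_lit 0x81) (nat_lit 0) (p (nat_lit 0x41) (nat_lit 1) (p (nat_lit 0x10b0a09890a9a) (nat_lit 0) (p (nat_lit 0x8a8989088a1a) (nat_lit 0) (p (nat_lit 0x10a090888079a) (nat_lit 0) (p (nat_lit 0x89888807871a) (nat_lit 0) (p (nat_lit 0x8000080000000090787088a) (nat_lit 0) (p (nat_lit 0x8000080000000088706860a) (nat_lit 0) (p (nat_lit 0x10706860782) (nat_lit 0) (p (nat_lit 0x8686058702)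 (nat_lit 0) (p (nat_lit 0x10605850482) (nat_lit 0) (p (nat_lit 0x8585048402) (nat_lit 0) (p (nat_lit 0x160004) (nat_lit 0) (p (nat_lit 0x60592) (nat_lit 0) (p (nat_lit 0x48512) (nat_lit 0) (p (nat_lit 0x50392) (nat_lit 0) (p (nat_lit 0x38312) (nat_lit 0) (p (nat_lit 0x40212) (nat_lit 0) (p (nat_lit 0x28192) (nat_lit 0) (p (nat_lit 0x30092) (nat_lit 0) (p (nat_lit 0x18012) (nat_lit 0) pn))))))))))))))))))))))))))))))) :=
  Cl.node (nat_lit 0x8c8b8b0a8a1a) (nat_lit 1) (by decide +kernel) (ClAll.succ ClAll.zero n8)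

def n12 : Cl (O (nat_lit 6)) (R (nat_lit 135377))
    (p (nat_lit 0xb0004) (nat_lit 0) (p (nat_lit 0x111) (nat_lit 0) (p (nat_lit 0x200014) (nat_lit 0) (p (nat_lit 0x20000c) (nat_lit 0) (p (nat_lit 0xc9) (nat_lit 1) (p (nat_lit 0x81) (nat_lit 0) (p (nat_lit 0x101) (nat_lit 1) (p (nat_lit 0x119) (nat_lit 0) (p (nat_lit 0xd1) (nat_lit 0) (p (nat_lit 0x89) (nat_lit 0) (p (nat_lit 0x41) (nat_lit 0) (p (nat_lit 0x10b0a09890a9a) (nat_lit 0) (p (nat_lit 0x8a8989088a1a) (nat_lit 0) (p (nat_lit 0x10a090888079a) (nat_lit 0) (p (nat_lit 0x89888807871a) (nat_lit 0) (p (nat_lit 0x8000080000000090787088a) (nat_lit 0) (p (nat_lit 0x8000080000000088706860a) (nat_lit 0) (p (nat_lit 0x10706860782) (nat_lit 0) (p (nat_lit 0x8686058702) (nat_lit 0) (p (nat_lit 0x10605850482) (nat_lit 0) (p (nat_lit 0x8585048402) (nat_lit 0) (p (nat_lit 0x160004) (nat_lit 0) (p (nat_lit 0x60592) (nat_lit 0) (p (nat_lit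 0x48512) (nat_lit 0) (p (nat_lit 0x50392) (nat_lit 0) (p (nat_lit 0x38312) (nat_lit 0) (p (nat_lit 0x40212) (nat_lit 0) (p (nat_lit 0x28192) (nat_lit 0) (p (nat_lit 0x30092) (nat_lit 0) (p (nat_lit 0x18012) (nat_lit 0) pn)))))))))))))))))))))))))))))) :=
  Cl.node (nat_lit 0x109) (nat_lit 2) (by decide +kernel) (ClAll.succ (ClAll.succ ClAll.zero n9) s12)

def n13 : Cl (O (nat_lit 6)) (R (nat_lit 135377))
    (p (nat_lit 0xb0004) (nat_lit 0) (p (nat_lit 0x200014) (nat_lit 0) (p (nat_lit 0x20000c) (nat_lit 0) (p (nat_lit 0x109) (nat_lit 0) (p (nat_lit 0x101) (nat_lit 0) (p (nat_lit 0x81) (nat_lit 1) (p (nat_lit 0xc1) (nat_lit 1) (p (nat_lit 0x119) (nat_lit 1) (p (nat_lit 0xd1) (nat_lit 0) (p (nat_lit 0x89) (nat_lit 0) (p (nat_lit 0x41) (nat_lit 0) (p (nat_lit 0x10b0a09890a9a) (nat_lit 0) (p (nat_lit 0x8a8989088a1a) (nat_lit 0) (p (nat_lit 0x10a090888079a) (nat_lit 0) (p (nat_lit 0x89888807871a)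 (nat_lit 0) (p (nat_lit 0x8000080000000090787088a) (nat_lit 0) (p (nat_lit 0x8000080000000088706860a) (nat_lit 0) (p (nat_lit 0x10706860782) (nat_lit 0) (p (nat_lit 0x8686058702) (nat_lit 0) (p (nat_lit 0x10605850482) (nat_lit 0) (p (nat_lit 0x8585048402) (nat_lit 0) (p (nat_lit 0x160004) (nat_lit 0) (p (nat_lit 0x60592) (nat_lit 0) (p (nat_lit 0x48512) (nat_lit 0) (p (nat_lit 0x50392) (nat_lit 0) (p (nat_lit 0x38312) (nat_lit 0) (p (nat_lit 0x40212) (nat_lit 0) (p (nat_lit 0x28192) (nat_lit 0) (p (nat_lit 0x30092) (nat_lit 0) (p (nat_lit 0x18012) (nat_lit 0) pn)))))))))))))))))))))))))))))) :=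
  Cl.node (nat_lit 0x111) (nat_lit 2) (by decide +kernel) (ClAll.succ (ClAll.succ ClAll.zero s33) s34)

def n14 : Cl (O (nat_lit 6)) (R (nat_lit 135377))
    (p (nat_lit 0x109) (nat_lit 1) (p (nat_lit 0xb0004) (nat_lit 0) (p (nat_lit 0x200014) (nat_lit 0) (p (nat_lit 0x20000c) (nat_lit 0) (p (nat_lit 0x89) (nat_lit 1) (p (nat_lit 0xc1) (nat_lit 1) (p (nat_lit 0x101) (nat_lit 1) (p (nat_lit 0x119) (nat_lit 0) (p (nat_lit 0xd1) (nat_lit 0) (p (nat_lit 0x81) (nat_lit 0) (p (nat_lit 0x41) (nat_lit 1) (p (nat_lit 0x10b0a09890a9a) (nat_lit 0) (p (nat_lit 0x8a8989088a1a) (nat_lit 0) (p (nat_lit 0x10a090888079a) (nat_lit 0) (p (nat_lit 0x89888807871a) (nat_lit 0) (p (nat_lit 0x8000080000000090787088a) (nat_lit 0) (p (nat_lit 0x8000080000000088706860a) (nat_lit 0) (p (nat_lit 0x10706860782) (nat_lit 0) (p (nat_lit 0x8686058702) (nat_lit 0) (p (nat_lit 0x10605850482) (nat_lit 0) (p (nat_lit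 0x8585048402) (nat_lit 0) (p (nat_lit 0x160004) (nat_lit 0) (p (nat_lit 0x60592) (nat_lit 0) (p (nat_lit 0x48512) (nat_lit 0) (p (nat_lit 0x50392) (nat_lit 0) (p (nat_lit 0x38312) (nat_lit 0) (p (nat_lit 0x40212) (nat_lit 0) (p (nat_lit 0x28192) (nat_lit 0) (p (nat_lit 0x30092) (nat_lit 0) (p (nat_lit 0x18012) (nat_lit 0) pn)))))))))))))))))))))))))))))) :=
  Cl.node (nat_lit 0x41) (nat_lit 2) (by decide +kernel) (ClAll.succ (ClAll.succ ClAll.zero s103) s104)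

def n15 : Cl (O (nat_lit 6)) (R (nat_lit 135377))
    (p (nat_lit 0x2a825aa825800000b8a09890a) (nat_lit 0) (p (nat_lit 0xb0004) (nat_lit 1) (p (nat_lit 0x200014) (nat_lit 0) (p (nat_lit 0x20000c) (nat_lit 0) (p (nat_lit 0x89) (nat_lit 1) (p (nat_lit 0x101) (nat_lit 1) (p (nat_lit 0xc1) (nat_lit 1) (p (nat_lit 0x119) (nat_lit 1) (p (nat_lit 0xd1) (nat_lit 0) (p (nat_lit 0x81) (nat_lit 0) (p (nat_lit 0x41) (nat_lit 1) (p (nat_lit 0x10b0a09890a9a) (nat_lit 0) (p (nat_lit 0x8a8989088a1a) (nat_lit 0) (p (nat_lit 0x10a090888079a) (nat_lit 0) (p (nat_lit 0x89888807871a) (nat_lit 0) (p (nat_lit 0x8000080000000090787088a) (nat_lit 0) (p (nat_lit 0x8000080000000088706860a) (nat_lit 0) (p (nat_lit 0x10706860782) (nat_lit 0) (p (nat_lit 0x8686058702) (nat_lit 0) (p (nat_lit 0x10605850482) (nat_lit 0) (p (nat_lit 0x8585048402) (nat_lit 0) (p (nat_lit 0x160004) (nat_lit 0) (p (nat_lit 0x60592)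 (nat_lit 0) (p (nat_lit 0x48512) (nat_lit 0) (p (nat_lit 0x50392) (nat_lit 0) (p (nat_lit 0x38312) (nat_lit 0) (p (nat_lit 0x40212) (nat_lit 0) (p (nat_lit 0x28192) (nat_lit 0) (p (nat_lit 0x30092) (nat_lit 0) (p (nat_lit 0x18012) (nat_lit 0) pn)))))))))))))))))))))))))))))) :=
  Cl.node (nat_lit 0x2a825aa825800000c0a8a0b8a) (nat_lit 1) (by decide +kernel) (ClAll.succ ClAll.zero n10)

def n16 : Cl (O (nat_lit 6)) (R (nat_lit 135377))
    (p (nat_lit 0x119) (nat_lit 1) (p (nat_lit 0x200014) (nat_lit 0) (p (nat_lit 0x20000c) (nat_lit 0) (p (nat_lit 0xc9) (nat_lit 0) (p (nat_lit 0x89) (nat_lit 1) (p (nat_lit 0x109) (nat_lit 1) (p (nat_lit 0x101) (nat_lit 0) (p (nat_lit 0x111) (nat_lit 0) (p (nat_lit 0xd1) (nat_lit 1) (p (nat_lit 0x81) (nat_lit 0) (p (nat_lit 0x41) (nat_lit 1) (p (nat_lit 0x10b0a09890a9a) (nat_lit 0) (p (nat_lit 0x8a8989088a1a) (nat_lit 0) (p (nat_lit 0x10a090888079a)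 (nat_lit 0) (p (nat_lit 0x89888807871a) (nat_lit 0) (p (nat_lit 0x8000080000000090787088a) (nat_lit 0) (p (nat_lit 0x8000080000000088706860a) (nat_lit 0) (p (nat_lit 0x10706860782) (nat_lit 0) (p (nat_lit 0x8686058702) (nat_lit 0) (p (nat_lit 0x10605850482) (nat_lit 0) (p (nat_lit 0x8585048402) (nat_lit 0) (p (nat_lit 0x160004) (nat_lit 0) (p (nat_lit 0x60592) (nat_lit 0) (p (nat_lit 0x48512) (nat_lit 0) (p (nat_lit 0x50392) (nat_lit 0) (p (nat_lit 0x38312) (nat_lit 0) (p (nat_lit 0x40212) (nat_lit 0) (p (nat_lit 0x28192) (nat_lit 0) (p (nat_lit 0x30092) (nat_lit 0) (p (nat_lit 0x18012) (nat_lit 0) pn)))))))))))))))))))))))))))))) :=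
  Cl.node (nat_lit 0xb0004) (nat_lit 2) (by decide +kernel) (ClAll.succ (ClAll.succ ClAll.zero s133) s134)

def n17 : Cl (O (nat_lit 6)) (R (nat_lit 135377))
    (p (nat_lit 0x119) (nat_lit 1) (p (nat_lit 0xb0004) (nat_lit 0) (p (nat_lit 0x200014) (nat_lit 0) (p (nat_lit 0x20000c) (nat_lit 0) (p (nat_lit 0xc9) (nat_lit 0) (p (nat_lit 0x89) (nat_lit 1) (p (nat_lit 0x101) (nat_lit 1) (p (nat_lit 0x111) (nat_lit 0) (p (nat_lit 0xd1) (nat_lit 1) (p (nat_lit 0x81) (nat_lit 0) (p (nat_lit 0x41) (nat_lit 1) (p (nat_lit 0x10b0a09890a9a) (nat_lit 0) (p (nat_lit 0x8a8989088a1a) (nat_lit 0) (p (nat_lit 0x10a090888079a) (nat_lit 0) (p (nat_lit 0x89888807871a) (nat_lit 0) (p (nat_lit 0x8000080000000090787088a) (nat_lit 0) (p (nat_lit 0x8000080000000088706860a) (nat_lit 0) (p (nat_lit 0x10706860782) (nat_lit 0) (p (nat_lit 0x8686058702) (nat_lit 0) (p (nat_lit 0x10605850482) (nat_lit 0) (p (nat_lit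 0x8585048402) (nat_lit 0) (p (nat_lit 0x160004) (nat_lit 0) (p (nat_lit 0x60592) (nat_lit 0) (p (nat_lit 0x48512) (nat_lit 0) (p (nat_lit 0x50392) (nat_lit 0) (p (nat_lit 0x38312) (nat_lit 0) (p (nat_lit 0x40212) (nat_lit 0) (p (nat_lit 0x28192) (nat_lit 0) (p (nat_lit 0x30092) (nat_lit 0) (p (nat_lit 0x18012) (nat_lit 0) pn)))))))))))))))))))))))))))))) :=
  Cl.node (nat_lit 0xc1) (nat_lit 2) (by decide +kernel) (ClAll.succ (ClAll.succ ClAll.zero s141) s142)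

def n18 : Cl (O (nat_lit 6)) (R (nat_lit 135377))
    (p (nat_lit 0x2a825aa825800000b8a09890a) (nat_lit 0) (p (nat_lit 0xb0004) (nat_lit 1) (p (nat_lit 0x200014) (nat_lit 0) (p (nat_lit 0x20000c) (nat_lit 0) (p (nat_lit 0xc9) (nat_lit 0) (p (nat_lit 0x89) (nat_lit 1) (p (nat_lit 0x101) (nat_lit 1) (p (nat_lit 0x111) (nat_lit 0) (p (nat_lit 0xd1) (nat_lit 1) (p (nat_lit 0x81) (nat_lit 0) (p (nat_lit 0x41) (nat_lit 1) (p (nat_lit 0x10b0a09890a9a) (nat_lit 0) (p (nat_lit 0x8a8989088a1a) (nat_lit 0) (p (nat_lit 0x10a090888079a) (nat_lit 0) (p (nat_lit 0x89888807871a) (nat_lit 0) (p (nat_lit 0x8000080000000090787088a) (nat_lit 0) (p (nat_lit 0x8000080000000088706860a) (nat_lit 0) (p (nat_lit 0x10706860782) (nat_lit 0) (p (nat_lit 0x8686058702) (nat_lit 0) (p (nat_lit 0x10605850482) (nat_lit 0) (p (nat_lit 0x8585048402) (nat_lit 0) (p (nat_lit 0x160004) (nat_lit 0) (p (nat_lit 0x60592)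 (nat_lit 0) (p (nat_lit 0x48512) (nat_lit 0) (p (nat_lit 0x50392) (nat_lit 0) (p (nat_lit 0x38312) (nat_lit 0) (p (nat_lit 0x40212) (nat_lit 0) (p (nat_lit 0x28192) (nat_lit 0) (p (nat_lit 0x30092) (nat_lit 0) (p (nat_lit 0x18012) (nat_lit 0) pn)))))))))))))))))))))))))))))) :=
  Cl.node (nat_lit 0x2a825aa825800000c0a8a0b8a) (nat_lit 1) (by decide +kernel) (ClAll.succ ClAll.zero n11)

def n19 : Cl (O (nat_lit 6)) (R (nat_lit 135377))
    (p (nat_lit 0x111) (nat_lit 0) (p (nat_lit 0x200014) (nat_lit 0) (p (nat_lit 0x20000c) (nat_lit 0) (p (nat_lit 0xc9) (nat_lit 0) (p (nat_lit 0x81) (nat_lit 0) (p (nat_lit 0x101) (nat_lit 1) (p (nat_lit 0x119) (nat_lit 0) (p (nat_lit 0xd1) (nat_lit 0) (p (nat_lit 0x89) (nat_lit 0) (p (nat_lit 0x41) (nat_lit 0) (p (nat_lit 0x10b0a09890a9a) (nat_lit 0) (p (nat_lit 0x8a8989088a1a) (nat_lit 0) (p (nat_lit 0x10a090888079a) (nat_lit 0) (p (nat_lit 0x89888807871a)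 (nat_lit 0) (p (nat_lit 0x8000080000000090787088a) (nat_lit 0) (p (nat_lit 0x8000080000000088706860a) (nat_lit 0) (p (nat_lit 0x10706860782) (nat_lit 0) (p (nat_lit 0x8686058702) (nat_lit 0) (p (nat_lit 0x10605850482) (nat_lit 0) (p (nat_lit 0x8585048402) (nat_lit 0) (p (nat_lit 0x160004) (nat_lit 0) (p (nat_lit 0x60592) (nat_lit 0) (p (nat_lit 0x48512) (nat_lit 0) (p (nat_lit 0x50392) (nat_lit 0) (p (nat_lit 0x38312) (nat_lit 0) (p (nat_lit 0x40212) (nat_lit 0) (p (nat_lit 0x28192) (nat_lit 0) (p (nat_lit 0x30092) (nat_lit 0) (p (nat_lit 0x18012) (nat_lit 0) pn))))))))))))))))))))))))))))) :=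
  Cl.node (nat_lit 0xb0004) (nat_lit 2) (by decide +kernel) (ClAll.succ (ClAll.succ ClAll.zero s4) s5)

def n20 : Cl (O (nat_lit 6)) (R (nat_lit 135377))
    (p (nat_lit 0x111) (nat_lit 0) (p (nat_lit 0x200014) (nat_lit 0) (p (nat_lit 0x20000c) (nat_lit 0) (p (nat_lit 0xc9) (nat_lit 1) (p (nat_lit 0x81) (nat_lit 0) (p (nat_lit 0x101) (nat_lit 1) (p (nat_lit 0x119) (nat_lit 0) (p (nat_lit 0xd1) (nat_lit 0) (p (nat_lit 0x89) (nat_lit 0) (p (nat_lit 0x41) (nat_lit 0) (p (nat_lit 0x10b0a09890a9a) (nat_lit 0) (p (nat_lit 0x8a8989088a1a) (nat_lit 0) (p (nat_lit 0x10a090888079a) (nat_lit 0) (p (nat_lit 0x89888807871a) (nat_lit 0) (p (nat_lit 0x8000080000000090787088a) (nat_lit 0) (p (nat_lit 0x8000080000000088706860a) (nat_lit 0) (p (nat_lit 0x10706860782) (nat_lit 0) (p (nat_lit 0x8686058702) (nat_lit 0) (p (nat_lit 0x10605850482) (nat_lit 0) (p (nat_lit 0x8585048402) (nat_lit 0) (p (nat_lit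 0x160004) (nat_lit 0) (p (nat_lit 0x60592) (nat_lit 0) (p (nat_lit 0x48512) (nat_lit 0) (p (nat_lit 0x50392) (nat_lit 0) (p (nat_lit 0x38312) (nat_lit 0) (p (nat_lit 0x40212) (nat_lit 0) (p (nat_lit 0x28192) (nat_lit 0) (p (nat_lit 0x30092) (nat_lit 0) (p (nat_lit 0x18012) (nat_lit 0) pn))))))))))))))))))))))))))))) :=
  Cl.node (nat_lit 0xb0004) (nat_lit 2) (by decide +kernel) (ClAll.succ (ClAll.succ ClAll.zero n12) s13)

def n21 : Cl (O (nat_lit 6)) (R (nat_lit 135377))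
    (p (nat_lit 0x200014) (nat_lit 0) (p (nat_lit 0x20000c) (nat_lit 0) (p (nat_lit 0x109) (nat_lit 0) (p (nat_lit 0x101) (nat_lit 0) (p (nat_lit 0x81) (nat_lit 1) (p (nat_lit 0xc1) (nat_lit 1) (p (nat_lit 0x119) (nat_lit 1) (p (nat_lit 0xd1) (nat_lit 0) (p (nat_lit 0x89) (nat_lit 0) (p (nat_lit 0x41) (nat_lit 0) (p (nat_lit 0x10b0a09890a9a) (nat_lit 0) (p (nat_lit 0x8a8989088a1a) (nat_lit 0) (p (nat_lit 0x10a090888079a) (nat_lit 0) (p (nat_lit 0x89888807871a) (nat_lit 0) (p (nat_lit 0x8000080000000090787088a) (nat_lit 0) (p (nat_lit 0x8000080000000088706860a) (nat_lit 0) (p (nat_lit 0x10706860782) (nat_lit 0) (p (nat_lit 0x8686058702) (nat_lit 0) (p (nat_lit 0x10605850482) (nat_lit 0) (p (nat_lit 0x8585048402) (nat_lit 0) (p (nat_lit 0x160004) (nat_lit 0) (p (nat_lit 0x60592) (nat_lit 0) (p (nat_lit 0x48512) (nat_lit 0) (p (nat_lit 0x50392) (nat_lit 0) (p (nat_lit 0x38312) (nat_lit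 0) (p (nat_lit 0x40212) (nat_lit 0) (p (nat_lit 0x28192) (nat_lit 0) (p (nat_lit 0x30092) (nat_lit 0) (p (nat_lit 0x18012) (nat_lit 0) pn))))))))))))))))))))))))))))) :=
  Cl.node (nat_lit 0xb0004) (nat_lit 2) (by decide +kernel) (ClAll.succ (ClAll.succ ClAll.zero n13) s35)

def n22 : Cl (O (nat_lit 6)) (R (nat_lit 135377))
    (p (nat_lit 0x200014) (nat_lit 0) (p (nat_lit 0x20000c) (nat_lit 0) (p (nat_lit 0xc9) (nat_lit 1) (p (nat_lit 0x89) (nat_lit 1) (p (nat_lit 0xc1) (nat_lit 0) (p (nat_lit 0x101) (nat_lit 1) (p (nat_lit 0x119) (nat_lit 0) (p (nat_lit 0xd1) (nat_lit 0) (p (nat_lit 0x81) (nat_lit 0) (p (nat_lit 0x41) (nat_lit 1) (p (nat_lit 0x10b0a09890a9a) (nat_lit 0) (p (nat_lit 0x8a8989088a1a) (nat_lit 0) (p (nat_lit 0x10a090888079a) (nat_lit 0) (p (nat_lit 0x89888807871a) (nat_lit 0) (p (nat_lit 0x8000080000000090787088a) (nat_lit 0) (p (nat_lit 0x8000080000000088706860a) (nat_lit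 0) (p (nat_lit 0x10706860782) (nat_lit 0) (p (nat_lit 0x8686058702) (nat_lit 0) (p (nat_lit 0x10605850482) (nat_lit 0) (p (nat_lit 0x8585048402) (nat_lit 0) (p (nat_lit 0x160004) (nat_lit 0) (p (nat_lit 0x60592) (nat_lit 0) (p (nat_lit 0x48512) (nat_lit 0) (p (nat_lit 0x50392) (nat_lit 0) (p (nat_lit 0x38312) (nat_lit 0) (p (nat_lit 0x40212) (nat_lit 0) (p (nat_lit 0x28192) (nat_lit 0) (p (nat_lit 0x30092) (nat_lit 0) (p (nat_lit 0x18012) (nat_lit 0) pn))))))))))))))))))))))))))))) :=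
  Cl.node (nat_lit 0xb0004) (nat_lit 2) (by decide +kernel) (ClAll.succ (ClAll.succ ClAll.zero s97) s98)

def n23 : Cl (O (nat_lit 6)) (R (nat_lit 135377))
    (p (nat_lit 0xb0004) (nat_lit 0) (p (nat_lit 0x200014) (nat_lit 0) (p (nat_lit 0x20000c) (nat_lit 0) (p (nat_lit 0x89) (nat_lit 1) (p (nat_lit 0xc1) (nat_lit 1) (p (nat_lit 0x101) (nat_lit 1) (p (nat_lit 0x119) (nat_lit 0) (p (nat_lit 0xd1) (nat_lit 0) (p (nat_lit 0x81) (nat_lit 0) (p (nat_lit 0x41) (nat_lit 1) (p (nat_lit 0x10b0a09890a9a) (nat_lit 0) (p (nat_lit 0x8a8989088a1a) (nat_lit 0) (p (nat_lit 0x10a090888079a) (nat_lit 0) (p (nat_lit 0x89888807871a) (nat_lit 0) (p (nat_lit 0x8000080000000090787088a) (nat_lit 0) (p (nat_lit 0x8000080000000088706860a) (nat_lit 0) (p (nat_lit 0x10706860782) (nat_lit 0) (p (nat_lit 0x8686058702) (nat_lit 0) (p (nat_lit 0x10605850482) (nat_lit 0) (p (nat_lit 0x8585048402) (nat_lit 0) (p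 (nat_lit 0x160004) (nat_lit 0) (p (nat_lit 0x60592) (nat_lit 0) (p (nat_lit 0x48512) (nat_lit 0) (p (nat_lit 0x50392) (nat_lit 0) (p (nat_lit 0x38312) (nat_lit 0) (p (nat_lit 0x40212) (nat_lit 0) (p (nat_lit 0x28192) (nat_lit 0) (p (nat_lit 0x30092) (nat_lit 0) (p (nat_lit 0x18012) (nat_lit 0) pn))))))))))))))))))))))))))))) :=
  Cl.node (nat_lit 0x109) (nat_lit 2) (by decide +kernel) (ClAll.succ (ClAll.succ ClAll.zero s102) n14)

def n24 : Cl (O (nat_lit 6)) (R (nat_lit 135377))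
    (p (nat_lit 0x200014) (nat_lit 0) (p (nat_lit 0x20000c) (nat_lit 0) (p (nat_lit 0x109) (nat_lit 0) (p (nat_lit 0x89) (nat_lit 1) (p (nat_lit 0xc9) (nat_lit 1) (p (nat_lit 0xc1) (nat_lit 0) (p (nat_lit 0x119) (nat_lit 1) (p (nat_lit 0xd1) (nat_lit 0) (p (nat_lit 0x81) (nat_lit 0) (p (nat_lit 0x41) (nat_lit 1) (p (nat_lit 0x10b0a09890a9a) (nat_lit 0) (p (nat_lit 0x8a8989088a1a) (nat_lit 0) (p (nat_lit 0x10a090888079a) (nat_lit 0) (p (nat_lit 0x89888807871a) (nat_lit 0) (p (nat_lit 0x8000080000000090787088a) (nat_lit 0) (p (nat_lit 0x8000080000000088706860a) (nat_lit 0) (p (nat_lit 0x10706860782) (nat_lit 0) (p (nat_lit 0x8686058702) (nat_lit 0) (p (nat_lit 0x10605850482) (nat_lit 0) (p (nat_lit 0x8585048402) (nat_lit 0) (p (nat_lit 0x160004) (nat_lit 0) (p (nat_lit 0x60592) (nat_lit 0) (p (nat_lit 0x48512) (nat_lit 0) (p (nat_lit 0x50392) (nat_lit 0) (p (nat_lit 0x38312) (nat_lit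 0) (p (nat_lit 0x40212) (nat_lit 0) (p (nat_lit 0x28192) (nat_lit 0) (p (nat_lit 0x30092) (nat_lit 0) (p (nat_lit 0x18012) (nat_lit 0) pn))))))))))))))))))))))))))))) :=
  Cl.node (nat_lit 0xb0004) (nat_lit 2) (by decide +kernel) (ClAll.succ (ClAll.succ ClAll.zero s110) s111)

def n25 : Cl (O (nat_lit 6)) (R (nat_lit 135377))
    (p (nat_lit 0xb0004) (nat_lit 0) (p (nat_lit 0x200014) (nat_lit 0) (p (nat_lit 0x20000c) (nat_lit 0) (p (nat_lit 0x89) (nat_lit 1) (p (nat_lit 0x101) (nat_lit 1) (p (nat_lit 0xc1) (nat_lit 1) (p (nat_lit 0x119) (nat_lit 1) (p (nat_lit 0xd1) (nat_lit 0) (p (nat_lit 0x81) (nat_lit 0) (p (nat_lit 0x41) (nat_lit 1) (p (nat_lit 0x10b0a09890a9a) (nat_lit 0) (p (nat_lit 0x8a8989088a1a) (nat_lit 0) (p (nat_lit 0x10a090888079a) (nat_lit 0) (p (nat_lit 0x89888807871a) (nat_lit 0) (p (nat_lit 0x8000080000000090787088a) (nat_lit 0) (p (nat_lit 0x8000080000000088706860a)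 (nat_lit 0) (p (nat_lit 0x10706860782) (nat_lit 0) (p (nat_lit 0x8686058702) (nat_lit 0) (p (nat_lit 0x10605850482) (nat_lit 0) (p (nat_lit 0x8585048402) (nat_lit 0) (p (nat_lit 0x160004) (nat_lit 0) (p (nat_lit 0x60592) (nat_lit 0) (p (nat_lit 0x48512) (nat_lit 0) (p (nat_lit 0x50392) (nat_lit 0) (p (nat_lit 0x38312) (nat_lit 0) (p (nat_lit 0x40212) (nat_lit 0) (p (nat_lit 0x28192) (nat_lit 0) (p (nat_lit 0x30092) (nat_lit 0) (p (nat_lit 0x18012) (nat_lit 0) pn))))))))))))))))))))))))))))) :=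
  Cl.node (nat_lit 0xc9) (nat_lit 2) (by decide +kernel) (ClAll.succ (ClAll.succ ClAll.zero s124) s125)

def n26 : Cl (O (nat_lit 6)) (R (nat_lit 135377))
    (p (nat_lit 0xb0004) (nat_lit 1) (p (nat_lit 0x200014) (nat_lit 0) (p (nat_lit 0x20000c) (nat_lit 0) (p (nat_lit 0x89) (nat_lit 1) (p (nat_lit 0x101) (nat_lit 1) (p (nat_lit 0xc1) (nat_lit 1) (p (nat_lit 0x119) (nat_lit 1) (p (nat_lit 0xd1) (nat_lit 0) (p (nat_lit 0x81) (nat_lit 0) (p (nat_lit 0x41) (nat_lit 1) (p (nat_lit 0x10b0a09890a9a) (nat_lit 0) (p (nat_lit 0x8a8989088a1a) (nat_lit 0) (p (nat_lit 0x10a090888079a) (nat_lit 0) (p (nat_lit 0x89888807871a) (nat_lit 0) (p (nat_lit 0x8000080000000090787088a) (nat_lit 0) (p (nat_lit 0x8000080000000088706860a) (nat_lit 0) (p (nat_lit 0x10706860782) (nat_lit 0) (p (nat_lit 0x8686058702) (nat_lit 0) (p (nat_lit 0x10605850482) (nat_lit 0) (p (nat_lit 0x8585048402) (nat_lit 0) (p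 (nat_lit 0x160004) (nat_lit 0) (p (nat_lit 0x60592) (nat_lit 0) (p (nat_lit 0x48512) (nat_lit 0) (p (nat_lit 0x50392) (nat_lit 0) (p (nat_lit 0x38312) (nat_lit 0) (p (nat_lit 0x40212) (nat_lit 0) (p (nat_lit 0x28192) (nat_lit 0) (p (nat_lit 0x30092) (nat_lit 0) (p (nat_lit 0x18012) (nat_lit 0) pn))))))))))))))))))))))))))))) :=
  Cl.node (nat_lit 0x2a825aa825800000b8a09890a) (nat_lit 1) (by decide +kernel) (ClAll.succ ClAll.zero n15)

def n27 : Cl (O (nat_lit 6)) (R (nat_lit 135377))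
    (p (nat_lit 0x200014) (nat_lit 0) (p (nat_lit 0x20000c) (nat_lit 0) (p (nat_lit 0xc9) (nat_lit 0) (p (nat_lit 0x89) (nat_lit 1) (p (nat_lit 0x109) (nat_lit 1) (p (nat_lit 0x101) (nat_lit 0) (p (nat_lit 0x111) (nat_lit 0) (p (nat_lit 0xd1) (nat_lit 1) (p (nat_lit 0x81) (nat_lit 0) (p (nat_lit 0x41) (nat_lit 1) (p (nat_lit 0x10b0a09890a9a) (nat_lit 0) (p (nat_lit 0x8a8989088a1a) (nat_lit 0) (p (nat_lit 0x10a090888079a) (nat_lit 0) (p (nat_lit 0x89888807871a) (nat_lit 0) (p (nat_lit 0x8000080000000090787088a) (nat_lit 0) (p (nat_lit 0x8000080000000088706860a) (nat_lit 0) (p (nat_lit 0x10706860782) (nat_lit 0) (p (nat_lit 0x8686058702) (nat_lit 0) (p (nat_lit 0x10605850482) (nat_lit 0) (p (nat_lit 0x8585048402) (nat_lit 0) (p (nat_lit 0x160004) (nat_lit 0) (p (nat_lit 0x60592) (nat_lit 0) (p (nat_lit 0x48512) (nat_lit 0) (p (nat_lit 0x50392) (nat_lit 0) (p (nat_lit 0x38312) (nat_lit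 0) (p (nat_lit 0x40212) (nat_lit 0) (p (nat_lit 0x28192) (nat_lit 0) (p (nat_lit 0x30092) (nat_lit 0) (p (nat_lit 0x18012) (nat_lit 0) pn))))))))))))))))))))))))))))) :=
  Cl.node (nat_lit 0x119) (nat_lit 2) (by decide +kernel) (ClAll.succ (ClAll.succ ClAll.zero s132) n16)

def n28 : Cl (O (nat_lit 6)) (R (nat_lit 135377))
    (p (nat_lit 0xb0004) (nat_lit 0) (p (nat_lit 0x200014) (nat_lit 0) (p (nat_lit 0x20000c) (nat_lit 0) (p (nat_lit 0xc9) (nat_lit 0) (p (nat_lit 0x89) (nat_lit 1) (p (nat_lit 0x101) (nat_lit 1) (p (nat_lit 0x111) (nat_lit 0) (p (nat_lit 0xd1) (nat_lit 1) (p (nat_lit 0x81) (nat_lit 0) (p (nat_lit 0x41) (nat_lit 1) (p (nat_lit 0x10b0a09890a9a) (nat_lit 0) (p (nat_lit 0x8a8989088a1a) (nat_lit 0) (p (nat_lit 0x10a090888079a) (nat_lit 0) (p (nat_lit 0x89888807871a) (nat_lit 0) (p (nat_lit 0x8000080000000090787088a) (nat_lit 0) (p (nat_lit 0x8000080000000088706860a)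 (nat_lit 0) (p (nat_lit 0x10706860782) (nat_lit 0) (p (nat_lit 0x8686058702) (nat_lit 0) (p (nat_lit 0x10605850482) (nat_lit 0) (p (nat_lit 0x8585048402) (nat_lit 0) (p (nat_lit 0x160004) (nat_lit 0) (p (nat_lit 0x60592) (nat_lit 0) (p (nat_lit 0x48512) (nat_lit 0) (p (nat_lit 0x50392) (nat_lit 0) (p (nat_lit 0x38312) (nat_lit 0) (p (nat_lit 0x40212) (nat_lit 0) (p (nat_lit 0x28192) (nat_lit 0) (p (nat_lit 0x30092) (nat_lit 0) (p (nat_lit 0x18012) (nat_lit 0) pn))))))))))))))))))))))))))))) :=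
  Cl.node (nat_lit 0x119) (nat_lit 2) (by decide +kernel) (ClAll.succ (ClAll.succ ClAll.zero s140) n17)

def n29 : Cl (O (nat_lit 6)) (R (nat_lit 135377))
    (p (nat_lit 0xb0004) (nat_lit 1) (p (nat_lit 0x200014) (nat_lit 0) (p (nat_lit 0x20000c) (nat_lit 0) (p (nat_lit 0xc9) (nat_lit 0) (p (nat_lit 0x89) (nat_lit 1) (p (nat_lit 0x101) (nat_lit 1) (p (nat_lit 0x111) (nat_lit 0) (p (nat_lit 0xd1) (nat_lit 1) (p (nat_lit 0x81) (nat_lit 0) (p (nat_lit 0x41) (nat_lit 1) (p (nat_lit 0x10b0a09890a9a) (nat_lit 0) (p (nat_lit 0x8a8989088a1a) (nat_lit 0) (p (nat_lit 0x10a090888079a) (nat_lit 0) (p (nat_lit 0x89888807871a) (nat_lit 0) (p (nat_lit 0x8000080000000090787088a) (nat_lit 0) (p (nat_lit 0x8000080000000088706860a) (nat_lit 0) (p (nat_lit 0x10706860782) (nat_lit 0) (p (nat_lit 0x8686058702) (nat_lit 0) (p (nat_lit 0x10605850482) (nat_lit 0) (p (nat_lit 0x8585048402) (nat_lit 0) (p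 (nat_lit 0x160004) (nat_lit 0) (p (nat_lit 0x60592) (nat_lit 0) (p (nat_lit 0x48512) (nat_lit 0) (p (nat_lit 0x50392) (nat_lit 0) (p (nat_lit 0x38312) (nat_lit 0) (p (nat_lit 0x40212) (nat_lit 0) (p (nat_lit 0x28192) (nat_lit 0) (p (nat_lit 0x30092) (nat_lit 0) (p (nat_lit 0x18012) (nat_lit 0) pn))))))))))))))))))))))))))))) :=
  Cl.node (nat_lit 0x2a825aa825800000b8a09890a) (nat_lit 1) (by decide +kernel) (ClAll.succ ClAll.zero n18)

def n30 : Cl (O (nat_lit 6)) (R (nat_lit 135377))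
    (p (nat_lit 0x200014) (nat_lit 0) (p (nat_lit 0x20000c) (nat_lit 0) (p (nat_lit 0xc9) (nat_lit 0) (p (nat_lit 0x81) (nat_lit 0) (p (nat_lit 0x101) (nat_lit 1) (p (nat_lit 0x119) (nat_lit 0) (p (nat_lit 0xd1) (nat_lit 0) (p (nat_lit 0x89) (nat_lit 0) (p (nat_lit 0x41) (nat_lit 0) (p (nat_lit 0x10b0a09890a9a) (nat_lit 0) (p (nat_lit 0x8a8989088a1a) (nat_lit 0) (p (nat_lit 0x10a090888079a) (nat_lit 0) (p (nat_lit 0x89888807871a) (nat_lit 0) (p (nat_lit 0x8000080000000090787088a) (nat_lit 0) (p (nat_lit 0x8000080000000088706860a) (nat_lit 0) (p (nat_lit 0x10706860782) (nat_lit 0) (p (nat_lit 0x8686058702) (nat_lit 0) (p (nat_lit 0x10605850482) (nat_lit 0) (p (nat_lit 0x8585048402) (nat_lit 0) (p (nat_lit 0x160004) (nat_lit 0) (p (nat_lit 0x60592) (nat_lit 0) (p (nat_lit 0x48512) (nat_lit 0) (p (nat_lit 0x50392) (nat_lit 0) (p (nat_lit 0x38312) (nat_lit 0) (p (nat_lit 0x40212) (nat_lit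 0) (p (nat_lit 0x28192) (nat_lit 0) (p (nat_lit 0x30092) (nat_lit 0) (p (nat_lit 0x18012) (nat_lit 0) pn)))))))))))))))))))))))))))) :=
  Cl.node (nat_lit 0x111) (nat_lit 2) (by decide +kernel) (ClAll.succ (ClAll.succ ClAll.zero n19) s6)

def n31 : Cl (O (nat_lit 6)) (R (nat_lit 135377))
    (p (nat_lit 0x200014) (nat_lit 0) (p (nat_lit 0x20000c) (nat_lit 0) (p (nat_lit 0xc9) (nat_lit 1) (p (nat_lit 0x81) (nat_lit 0) (p (nat_lit 0x101) (nat_lit 1) (p (nat_lit 0x119) (nat_lit 0) (p (nat_lit 0xd1) (nat_lit 0) (p (nat_lit 0x89) (nat_lit 0) (p (nat_lit 0x41) (nat_lit 0) (p (nat_lit 0x10b0a09890a9a) (nat_lit 0) (p (nat_lit 0x8a8989088a1a) (nat_lit 0) (p (nat_lit 0x10a090888079a) (nat_lit 0) (p (nat_lit 0x89888807871a) (nat_lit 0) (p (nat_lit 0x8000080000000090787088a) (nat_lit 0) (p (nat_lit 0x8000080000000088706860a) (nat_lit 0) (p (nat_lit 0x10706860782) (nat_lit 0) (p (nat_lit 0x8686058702)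 (nat_lit 0) (p (nat_lit 0x10605850482) (nat_lit 0) (p (nat_lit 0x8585048402) (nat_lit 0) (p (nat_lit 0x160004) (nat_lit 0) (p (nat_lit 0x60592) (nat_lit 0) (p (nat_lit 0x48512) (nat_lit 0) (p (nat_lit 0x50392) (nat_lit 0) (p (nat_lit 0x38312) (nat_lit 0) (p (nat_lit 0x40212) (nat_lit 0) (p (nat_lit 0x28192) (nat_lit 0) (p (nat_lit 0x30092) (nat_lit 0) (p (nat_lit 0x18012) (nat_lit 0) pn)))))))))))))))))))))))))))) :=
  Cl.node (nat_lit 0x111) (nat_lit 2) (by decide +kernel) (ClAll.succ (ClAll.succ ClAll.zero n20) s14)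

def n32 : Cl (O (nat_lit 6)) (R (nat_lit 135377))
    (p (nat_lit 0x20000c) (nat_lit 0) (p (nat_lit 0xc9) (nat_lit 0) (p (nat_lit 0xc1) (nat_lit 0) (p (nat_lit 0x81) (nat_lit 1) (p (nat_lit 0x101) (nat_lit 1) (p (nat_lit 0x119) (nat_lit 0) (p (nat_lit 0xd1) (nat_lit 0) (p (nat_lit 0x89) (nat_lit 0) (p (nat_lit 0x41) (nat_lit 0) (p (nat_lit 0x10b0a09890a9a) (nat_lit 0) (p (nat_lit 0x8a8989088a1a) (nat_lit 0) (p (nat_lit 0x10a090888079a) (nat_lit 0) (p (nat_lit 0x89888807871a) (nat_lit 0) (p (nat_lit 0x8000080000000090787088a) (nat_lit 0) (p (nat_lit 0x8000080000000088706860a) (nat_lit 0) (p (nat_lit 0x10706860782) (nat_lit 0) (p (nat_lit 0x8686058702) (nat_lit 0) (p (nat_lit 0x10605850482) (nat_lit 0) (p (nat_lit 0x8585048402) (nat_lit 0) (p (nat_lit 0x160004) (nat_lit 0) (p (nat_lit 0x60592) (nat_lit 0) (p (nat_lit 0x48512) (nat_lit 0) (p (nat_lit 0x50392) (nat_lit 0) (p (nat_lit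 0x38312) (nat_lit 0) (p (nat_lit 0x40212) (nat_lit 0) (p (nat_lit 0x28192) (nat_lit 0) (p (nat_lit 0x30092) (nat_lit 0) (p (nat_lit 0x18012) (nat_lit 0) pn)))))))))))))))))))))))))))) :=
  Cl.node (nat_lit 0x200014) (nat_lit 2) (by decide +kernel) (ClAll.succ (ClAll.succ ClAll.zero s17) s18)

def n33 : Cl (O (nat_lit 6)) (R (nat_lit 135377))
    (p (nat_lit 0x20000c) (nat_lit 0) (p (nat_lit 0xc9) (nat_lit 1) (p (nat_lit 0xc1) (nat_lit 0) (p (nat_lit 0x81) (nat_lit 1) (p (nat_lit 0x101) (nat_lit 1) (p (nat_lit 0x119) (nat_lit 0) (p (nat_lit 0xd1) (nat_lit 0) (p (nat_lit 0x89) (nat_lit 0) (p (nat_lit 0x41) (nat_lit 0) (p (nat_lit 0x10b0a09890a9a) (nat_lit 0) (p (nat_lit 0x8a8989088a1a) (nat_lit 0) (p (nat_lit 0x10a090888079a) (nat_lit 0) (p (nat_lit 0x89888807871a) (nat_lit 0) (p (nat_lit 0x8000080000000090787088a) (nat_lit 0) (p (nat_lit 0x8000080000000088706860a) (nat_lit 0) (p (nat_lit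 0x10706860782) (nat_lit 0) (p (nat_lit 0x8686058702) (nat_lit 0) (p (nat_lit 0x10605850482) (nat_lit 0) (p (nat_lit 0x8585048402) (nat_lit 0) (p (nat_lit 0x160004) (nat_lit 0) (p (nat_lit 0x60592) (nat_lit 0) (p (nat_lit 0x48512) (nat_lit 0) (p (nat_lit 0x50392) (nat_lit 0) (p (nat_lit 0x38312) (nat_lit 0) (p (nat_lit 0x40212) (nat_lit 0) (p (nat_lit 0x28192) (nat_lit 0) (p (nat_lit 0x30092) (nat_lit 0) (p (nat_lit 0x18012) (nat_lit 0) pn)))))))))))))))))))))))))))) :=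
  Cl.node (nat_lit 0x200014) (nat_lit 2) (by decide +kernel) (ClAll.succ (ClAll.succ ClAll.zero s20) s21)

def n34 : Cl (O (nat_lit 6)) (R (nat_lit 135377))
    (p (nat_lit 0x200014) (nat_lit 0) (p (nat_lit 0x20000c) (nat_lit 0) (p (nat_lit 0x109) (nat_lit 1) (p (nat_lit 0xc9) (nat_lit 1) (p (nat_lit 0xc1) (nat_lit 0) (p (nat_lit 0x119) (nat_lit 1) (p (nat_lit 0xd1) (nat_lit 0) (p (nat_lit 0x89) (nat_lit 0) (p (nat_lit 0x41) (nat_lit 0) (p (nat_lit 0x10b0a09890a9a) (nat_lit 0) (p (nat_lit 0x8a8989088a1a) (nat_lit 0) (p (nat_lit 0x10a090888079a) (nat_lit 0) (p (nat_lit 0x89888807871a) (nat_lit 0) (p (nat_lit 0x8000080000000090787088a) (nat_lit 0) (p (nat_lit 0x8000080000000088706860a) (nat_lit 0) (p (nat_lit 0x10706860782) (nat_lit 0) (p (nat_lit 0x8686058702) (nat_lit 0) (p (nat_lit 0x10605850482) (nat_lit 0) (p (nat_lit 0x8585048402) (nat_lit 0) (p (nat_lit 0x160004) (nat_lit 0)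 (p (nat_lit 0x60592) (nat_lit 0) (p (nat_lit 0x48512) (nat_lit 0) (p (nat_lit 0x50392) (nat_lit 0) (p (nat_lit 0x38312) (nat_lit 0) (p (nat_lit 0x40212) (nat_lit 0) (p (nat_lit 0x28192) (nat_lit 0) (p (nat_lit 0x30092) (nat_lit 0) (p (nat_lit 0x18012) (nat_lit 0) pn)))))))))))))))))))))))))))) :=
  Cl.node (nat_lit 0xb0004) (nat_lit 2) (by decide +kernel) (ClAll.succ (ClAll.succ ClAll.zero s26) s27)

def n35 : Cl (O (nat_lit 6)) (R (nat_lit 135377))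
    (p (nat_lit 0x20000c) (nat_lit 0) (p (nat_lit 0x109) (nat_lit 0) (p (nat_lit 0x101) (nat_lit 0) (p (nat_lit 0x81) (nat_lit 1) (p (nat_lit 0xc1) (nat_lit 1) (p (nat_lit 0x119) (nat_lit 1) (p (nat_lit 0xd1) (nat_lit 0) (p (nat_lit 0x89) (nat_lit 0) (p (nat_lit 0x41) (nat_lit 0) (p (nat_lit 0x10b0a09890a9a) (nat_lit 0) (p (nat_lit 0x8a8989088a1a) (nat_lit 0) (p (nat_lit 0x10a090888079a) (nat_lit 0) (p (nat_lit 0x89888807871a) (nat_lit 0) (p (nat_lit 0x8000080000000090787088a) (nat_lit 0) (p (nat_lit 0x8000080000000088706860a) (nat_lit 0) (p (nat_lit 0x10706860782) (nat_lit 0) (p (nat_lit 0x8686058702) (nat_lit 0) (p (nat_lit 0x10605850482) (nat_lit 0) (p (nat_lit 0x8585048402) (nat_lit 0) (p (nat_lit 0x160004) (nat_lit 0) (p (nat_lit 0x60592) (nat_lit 0) (p (nat_lit 0x48512) (nat_lit 0) (p (nat_lit 0x50392) (nat_lit 0) (p (nat_lit 0x38312) (nat_lit 0) (p (nat_lit 0x40212) (nat_lit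 0) (p (nat_lit 0x28192) (nat_lit 0) (p (nat_lit 0x30092) (nat_lit 0) (p (nat_lit 0x18012) (nat_lit 0) pn)))))))))))))))))))))))))))) :=
  Cl.node (nat_lit 0x200014) (nat_lit 2) (by decide +kernel) (ClAll.succ (ClAll.succ ClAll.zero n21) s36)

def n36 : Cl (O (nat_lit 6)) (R (nat_lit 135377))
    (p (nat_lit 0x20000c) (nat_lit 0) (p (nat_lit 0x109) (nat_lit 1) (p (nat_lit 0x101) (nat_lit 0) (p (nat_lit 0x81) (nat_lit 1) (p (nat_lit 0xc1) (nat_lit 1) (p (nat_lit 0x119) (nat_lit 1) (p (nat_lit 0xd1) (nat_lit 0) (p (nat_lit 0x89) (nat_lit 0) (p (nat_lit 0x41) (nat_lit 0) (p (nat_lit 0x10b0a09890a9a) (nat_lit 0) (p (nat_lit 0x8a8989088a1a) (nat_lit 0) (p (nat_lit 0x10a090888079a) (nat_lit 0) (p (nat_lit 0x89888807871a) (nat_lit 0) (p (nat_lit 0x8000080000000090787088a) (nat_lit 0) (p (nat_lit 0x8000080000000088706860a) (nat_lit 0) (p (nat_lit 0x10706860782) (nat_lit 0) (p (nat_lit 0x8686058702)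 (nat_lit 0) (p (nat_lit 0x10605850482) (nat_lit 0) (p (nat_lit 0x8585048402) (nat_lit 0) (p (nat_lit 0x160004) (nat_lit 0) (p (nat_lit 0x60592) (nat_lit 0) (p (nat_lit 0x48512) (nat_lit 0) (p (nat_lit 0x50392) (nat_lit 0) (p (nat_lit 0x38312) (nat_lit 0) (p (nat_lit 0x40212) (nat_lit 0) (p (nat_lit 0x28192) (nat_lit 0) (p (nat_lit 0x30092) (nat_lit 0) (p (nat_lit 0x18012) (nat_lit 0) pn)))))))))))))))))))))))))))) :=
  Cl.node (nat_lit 0x200014) (nat_lit 2) (by decide +kernel) (ClAll.succ (ClAll.succ ClAll.zero s38) s39)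

def n37 : Cl (O (nat_lit 6)) (R (nat_lit 135377))
    (p (nat_lit 0x200014) (nat_lit 0) (p (nat_lit 0x20000c) (nat_lit 0) (p (nat_lit 0xc1) (nat_lit 0) (p (nat_lit 0x81) (nat_lit 1) (p (nat_lit 0x101) (nat_lit 1) (p (nat_lit 0x111) (nat_lit 0) (p (nat_lit 0xd1) (nat_lit 1) (p (nat_lit 0x89) (nat_lit 0) (p (nat_lit 0x41) (nat_lit 0) (p (nat_lit 0x10b0a09890a9a) (nat_lit 0) (p (nat_lit 0x8a8989088a1a) (nat_lit 0) (p (nat_lit 0x10a090888079a) (nat_lit 0) (p (nat_lit 0x89888807871a) (nat_lit 0) (p (nat_lit 0x8000080000000090787088a) (nat_lit 0) (p (nat_lit 0x8000080000000088706860a) (nat_lit 0) (p (nat_lit 0x10706860782) (nat_lit 0) (p (nat_lit 0x8686058702) (nat_lit 0) (p (nat_lit 0x10605850482) (nat_lit 0) (p (nat_lit 0x8585048402) (nat_lit 0) (p (nat_lit 0x160004) (nat_lit 0) (p (nat_lit 0x60592) (nat_lit 0) (p (nat_lit 0x48512) (nat_lit 0) (p (nat_lit 0x50392) (nat_lit 0) (p (nat_lit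 0x38312) (nat_lit 0) (p (nat_lit 0x40212) (nat_lit 0) (p (nat_lit 0x28192) (nat_lit 0) (p (nat_lit 0x30092) (nat_lit 0) (p (nat_lit 0x18012) (nat_lit 0) pn)))))))))))))))))))))))))))) :=
  Cl.node (nat_lit 0x119) (nat_lit 2) (by decide +kernel) (ClAll.succ (ClAll.succ ClAll.zero s51) s52)

def n38 : Cl (O (nat_lit 6)) (R (nat_lit 135377))
    (p (nat_lit 0x200014) (nat_lit 0) (p (nat_lit 0x20000c) (nat_lit 0) (p (nat_lit 0xd1) (nat_lit 0) (p (nat_lit 0xc1) (nat_lit 0) (p (nat_lit 0x101) (nat_lit 1) (p (nat_lit 0x119) (nat_lit 0) (p (nat_lit 0xc9) (nat_lit 0) (p (nat_lit 0x89) (nat_lit 1) (p (nat_lit 0x41) (nat_lit 0) (p (nat_lit 0x10b0a09890a9a) (nat_lit 0) (p (nat_lit 0x8a8989088a1a) (nat_lit 0) (p (nat_lit 0x10a090888079a) (nat_lit 0) (p (nat_lit 0x89888807871a) (nat_lit 0) (p (nat_lit 0x8000080000000090787088a) (nat_lit 0) (p (nat_lit 0x8000080000000088706860a) (nat_lit 0) (p (nat_lit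 0x10706860782) (nat_lit 0) (p (nat_lit 0x8686058702) (nat_lit 0) (p (nat_lit 0x10605850482) (nat_lit 0) (p (nat_lit 0x8585048402) (nat_lit 0) (p (nat_lit 0x160004) (nat_lit 0) (p (nat_lit 0x60592) (nat_lit 0) (p (nat_lit 0x48512) (nat_lit 0) (p (nat_lit 0x50392) (nat_lit 0) (p (nat_lit 0x38312) (nat_lit 0) (p (nat_lit 0x40212) (nat_lit 0) (p (nat_lit 0x28192) (nat_lit 0) (p (nat_lit 0x30092) (nat_lit 0) (p (nat_lit 0x18012) (nat_lit 0) pn)))))))))))))))))))))))))))) :=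
  Cl.node (nat_lit 0xb0004) (nat_lit 2) (by decide +kernel) (ClAll.succ (ClAll.succ ClAll.zero s68) s69)

def n39 : Cl (O (nat_lit 6)) (R (nat_lit 135377))
    (p (nat_lit 0x200014) (nat_lit 0) (p (nat_lit 0x20000c) (nat_lit 0) (p (nat_lit 0x89) (nat_lit 0) (p (nat_lit 0x109) (nat_lit 1) (p (nat_lit 0x101) (nat_lit 0) (p (nat_lit 0x119) (nat_lit 0) (p (nat_lit 0xd1) (nat_lit 0) (p (nat_lit 0x81) (nat_lit 0) (p (nat_lit 0x41) (nat_lit 1) (p (nat_lit 0x10b0a09890a9a) (nat_lit 0) (p (nat_lit 0x8a8989088a1a) (nat_lit 0) (p (nat_lit 0x10a090888079a) (nat_lit 0) (p (nat_lit 0x89888807871a) (nat_lit 0) (p (nat_lit 0x8000080000000090787088a) (nat_lit 0) (p (nat_lit 0x8000080000000088706860a) (nat_lit 0) (p (nat_lit 0x10706860782) (nat_lit 0) (p (nat_lit 0x8686058702) (nat_lit 0) (p (nat_lit 0x10605850482) (nat_lit 0) (p (nat_lit 0x8585048402) (nat_lit 0) (p (nat_lit 0x160004) (nat_lit 0)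 (p (nat_lit 0x60592) (nat_lit 0) (p (nat_lit 0x48512) (nat_lit 0) (p (nat_lit 0x50392) (nat_lit 0) (p (nat_lit 0x38312) (nat_lit 0) (p (nat_lit 0x40212) (nat_lit 0) (p (nat_lit 0x28192) (nat_lit 0) (p (nat_lit 0x30092) (nat_lit 0) (p (nat_lit 0x18012) (nat_lit 0) pn)))))))))))))))))))))))))))) :=
  Cl.node (nat_lit 0x111) (nat_lit 2) (by decide +kernel) (ClAll.succ (ClAll.succ ClAll.zero s86) s87)

def n40 : Cl (O (nat_lit 6)) (R (nat_lit 135377))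
    (p (nat_lit 0x20000c) (nat_lit 0) (p (nat_lit 0xc9) (nat_lit 1) (p (nat_lit 0x89) (nat_lit 1) (p (nat_lit 0xc1) (nat_lit 0) (p (nat_lit 0x101) (nat_lit 1) (p (nat_lit 0x119) (nat_lit 0) (p (nat_lit 0xd1) (nat_lit 0) (p (nat_lit 0x81) (nat_lit 0) (p (nat_lit 0x41) (nat_lit 1) (p (nat_lit 0x10b0a09890a9a) (nat_lit 0) (p (nat_lit 0x8a8989088a1a) (nat_lit 0) (p (nat_lit 0x10a090888079a) (nat_lit 0) (p (nat_lit 0x89888807871a) (nat_lit 0) (p (nat_lit 0x8000080000000090787088a) (nat_lit 0) (p (nat_lit 0x8000080000000088706860a) (nat_lit 0) (p (nat_lit 0x10706860782) (nat_lit 0) (p (nat_lit 0x8686058702) (nat_lit 0) (p (nat_lit 0x10605850482) (nat_lit 0) (p (nat_lit 0x8585048402) (nat_lit 0) (p (nat_lit 0x160004) (nat_lit 0) (p (nat_lit 0x60592) (nat_lit 0) (p (nat_lit 0x48512) (nat_lit 0) (p (nat_lit 0x50392) (nat_lit 0) (p (nat_lit 0x38312) (nat_lit 0) (p (nat_lit 0x40212) (nat_lit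 0) (p (nat_lit 0x28192) (nat_lit 0) (p (nat_lit 0x30092) (nat_lit 0) (p (nat_lit 0x18012) (nat_lit 0) pn)))))))))))))))))))))))))))) :=
  Cl.node (nat_lit 0x200014) (nat_lit 2) (by decide +kernel) (ClAll.succ (ClAll.succ ClAll.zero n22) s99)

def n41 : Cl (O (nat_lit 6)) (R (nat_lit 135377))
    (p (nat_lit 0x200014) (nat_lit 0) (p (nat_lit 0x20000c) (nat_lit 0) (p (nat_lit 0x89) (nat_lit 1) (p (nat_lit 0xc1) (nat_lit 1) (p (nat_lit 0x101) (nat_lit 1) (p (nat_lit 0x119) (nat_lit 0) (p (nat_lit 0xd1) (nat_lit 0) (p (nat_lit 0x81) (nat_lit 0) (p (nat_lit 0x41) (nat_lit 1) (p (nat_lit 0x10b0a09890a9a) (nat_lit 0) (p (nat_lit 0x8a8989088a1a) (nat_lit 0) (p (nat_lit 0x10a090888079a) (nat_lit 0) (p (nat_lit 0x89888807871a) (nat_lit 0) (p (nat_lit 0x8000080000000090787088a) (nat_lit 0) (p (nat_lit 0x8000080000000088706860a) (nat_lit 0) (p (nat_lit 0x10706860782) (nat_lit 0) (p (nat_lit 0x8686058702)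 (nat_lit 0) (p (nat_lit 0x10605850482) (nat_lit 0) (p (nat_lit 0x8585048402) (nat_lit 0) (p (nat_lit 0x160004) (nat_lit 0) (p (nat_lit 0x60592) (nat_lit 0) (p (nat_lit 0x48512) (nat_lit 0) (p (nat_lit 0x50392) (nat_lit 0) (p (nat_lit 0x38312) (nat_lit 0) (p (nat_lit 0x40212) (nat_lit 0) (p (nat_lit 0x28192) (nat_lit 0) (p (nat_lit 0x30092) (nat_lit 0) (p (nat_lit 0x18012) (nat_lit 0) pn)))))))))))))))))))))))))))) :=
  Cl.node (nat_lit 0xb0004) (nat_lit 2) (by decide +kernel) (ClAll.succ (ClAll.succ ClAll.zero n23) s105)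

def n42 : Cl (O (nat_lit 6)) (R (nat_lit 135377))
    (p (nat_lit 0x20000c) (nat_lit 0) (p (nat_lit 0x109) (nat_lit 0) (p (nat_lit 0x89) (nat_lit 1) (p (nat_lit 0xc9) (nat_lit 1) (p (nat_lit 0xc1) (nat_lit 0) (p (nat_lit 0x119) (nat_lit 1) (p (nat_lit 0xd1) (nat_lit 0) (p (nat_lit 0x81) (nat_lit 0) (p (nat_lit 0x41) (nat_lit 1) (p (nat_lit 0x10b0a09890a9a) (nat_lit 0) (p (nat_lit 0x8a8989088a1a) (nat_lit 0) (p (nat_lit 0x10a090888079a) (nat_lit 0) (p (nat_lit 0x89888807871a) (nat_lit 0) (p (nat_lit 0x8000080000000090787088a) (nat_lit 0) (p (nat_lit 0x8000080000000088706860a) (nat_lit 0) (p (nat_lit 0x10706860782) (nat_lit 0) (p (nat_lit 0x8686058702) (nat_lit 0) (p (nat_lit 0x10605850482) (nat_lit 0) (p (nat_lit 0x8585048402) (nat_lit 0) (p (nat_lit 0x160004) (nat_lit 0) (p (nat_lit 0x60592) (nat_lit 0) (p (nat_lit 0x48512) (nat_lit 0) (p (nat_lit 0x50392) (nat_lit 0) (p (nat_lit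 0x38312) (nat_lit 0) (p (nat_lit 0x40212) (nat_lit 0) (p (nat_lit 0x28192) (nat_lit 0) (p (nat_lit 0x30092) (nat_lit 0) (p (nat_lit 0x18012) (nat_lit 0) pn)))))))))))))))))))))))))))) :=
  Cl.node (nat_lit 0x200014) (nat_lit 2) (by decide +kernel) (ClAll.succ (ClAll.succ ClAll.zero n24) s112)

def n43 : Cl (O (nat_lit 6)) (R (nat_lit 135377))
    (p (nat_lit 0x20000c) (nat_lit 0) (p (nat_lit 0x109) (nat_lit 1) (p (nat_lit 0x89) (nat_lit 1) (p (nat_lit 0x101) (nat_lit 0) (p (nat_lit 0xc1) (nat_lit 1) (p (nat_lit 0x119) (nat_lit 1) (p (nat_lit 0xd1) (nat_lit 0) (p (nat_lit 0x81) (nat_lit 0) (p (nat_lit 0x41) (nat_lit 1) (p (nat_lit 0x10b0a09890a9a) (nat_lit 0) (p (nat_lit 0x8a8989088a1a) (nat_lit 0) (p (nat_lit 0x10a090888079a) (nat_lit 0) (p (nat_lit 0x89888807871a) (nat_lit 0) (p (nat_lit 0x8000080000000090787088a) (nat_lit 0) (p (nat_lit 0x8000080000000088706860a) (nat_lit 0) (p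 (nat_lit 0x10706860782) (nat_lit 0) (p (nat_lit 0x8686058702) (nat_lit 0) (p (nat_lit 0x10605850482) (nat_lit 0) (p (nat_lit 0x8585048402) (nat_lit 0) (p (nat_lit 0x160004) (nat_lit 0) (p (nat_lit 0x60592) (nat_lit 0) (p (nat_lit 0x48512) (nat_lit 0) (p (nat_lit 0x50392) (nat_lit 0) (p (nat_lit 0x38312) (nat_lit 0) (p (nat_lit 0x40212) (nat_lit 0) (p (nat_lit 0x28192) (nat_lit 0) (p (nat_lit 0x30092) (nat_lit 0) (p (nat_lit 0x18012) (nat_lit 0) pn)))))))))))))))))))))))))))) :=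
  Cl.node (nat_lit 0x200014) (nat_lit 2) (by decide +kernel) (ClAll.succ (ClAll.succ ClAll.zero s119) s120)

def n44 : Cl (O (nat_lit 6)) (R (nat_lit 135377))
    (p (nat_lit 0x200014) (nat_lit 0) (p (nat_lit 0x20000c) (nat_lit 0) (p (nat_lit 0x89) (nat_lit 1) (p (nat_lit 0x101) (nat_lit 1) (p (nat_lit 0xc1) (nat_lit 1) (p (nat_lit 0x119) (nat_lit 1) (p (nat_lit 0xd1) (nat_lit 0) (p (nat_lit 0x81) (nat_lit 0) (p (nat_lit 0x41) (nat_lit 1) (p (nat_lit 0x10b0a09890a9a) (nat_lit 0) (p (nat_lit 0x8a8989088a1a) (nat_lit 0) (p (nat_lit 0x10a090888079a) (nat_lit 0) (p (nat_lit 0x89888807871a) (nat_lit 0) (p (nat_lit 0x8000080000000090787088a) (nat_lit 0) (p (nat_lit 0x8000080000000088706860a) (nat_lit 0) (p (nat_lit 0x10706860782) (nat_lit 0) (p (nat_lit 0x8686058702) (nat_lit 0) (p (nat_lit 0x10605850482) (nat_lit 0) (p (nat_lit 0x8585048402) (nat_lit 0) (p (nat_lit 0x160004) (nat_lit 0)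 (p (nat_lit 0x60592) (nat_lit 0) (p (nat_lit 0x48512) (nat_lit 0) (p (nat_lit 0x50392) (nat_lit 0) (p (nat_lit 0x38312) (nat_lit 0) (p (nat_lit 0x40212) (nat_lit 0) (p (nat_lit 0x28192) (nat_lit 0) (p (nat_lit 0x30092) (nat_lit 0) (p (nat_lit 0x18012) (nat_lit 0) pn)))))))))))))))))))))))))))) :=
  Cl.node (nat_lit 0xb0004) (nat_lit 2) (by decide +kernel) (ClAll.succ (ClAll.succ ClAll.zero n25) n26)

def n45 : Cl (O (nat_lit 6)) (R (nat_lit 135377))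
    (p (nat_lit 0x20000c) (nat_lit 0) (p (nat_lit 0xc9) (nat_lit 0) (p (nat_lit 0x89) (nat_lit 1) (p (nat_lit 0x109) (nat_lit 1) (p (nat_lit 0x101) (nat_lit 0) (p (nat_lit 0x111) (nat_lit 0) (p (nat_lit 0xd1) (nat_lit 1) (p (nat_lit 0x81) (nat_lit 0) (p (nat_lit 0x41) (nat_lit 1) (p (nat_lit 0x10b0a09890a9a) (nat_lit 0) (p (nat_lit 0x8a8989088a1a) (nat_lit 0) (p (nat_lit 0x10a090888079a) (nat_lit 0) (p (nat_lit 0x89888807871a) (nat_lit 0) (p (nat_lit 0x8000080000000090787088a) (nat_lit 0) (p (nat_lit 0x8000080000000088706860a) (nat_lit 0) (p (nat_lit 0x10706860782) (nat_lit 0) (p (nat_lit 0x8686058702) (nat_lit 0) (p (nat_lit 0x10605850482) (nat_lit 0) (p (nat_lit 0x8585048402) (nat_lit 0) (p (nat_lit 0x160004) (nat_lit 0) (p (nat_lit 0x60592) (nat_lit 0) (p (nat_lit 0x48512) (nat_lit 0) (p (nat_lit 0x50392) (nat_lit 0) (p (nat_lit 0x38312) (nat_lit 0) (p (nat_lit 0x40212) (nat_lit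 0) (p (nat_lit 0x28192) (nat_lit 0) (p (nat_lit 0x30092) (nat_lit 0) (p (nat_lit 0x18012) (nat_lit 0) pn)))))))))))))))))))))))))))) :=
  Cl.node (nat_lit 0x200014) (nat_lit 2) (by decide +kernel) (ClAll.succ (ClAll.succ ClAll.zero n27) s135)

def n46 : Cl (O (nat_lit 6)) (R (nat_lit 135377))
    (p (nat_lit 0x200014) (nat_lit 0) (p (nat_lit 0x20000c) (nat_lit 0) (p (nat_lit 0xc9) (nat_lit 0) (p (nat_lit 0x89) (nat_lit 1) (p (nat_lit 0x101) (nat_lit 1) (p (nat_lit 0x111) (nat_lit 0) (p (nat_lit 0xd1) (nat_lit 1) (p (nat_lit 0x81) (nat_lit 0) (p (nat_lit 0x41) (nat_lit 1) (p (nat_lit 0x10b0a09890a9a) (nat_lit 0) (p (nat_lit 0x8a8989088a1a) (nat_lit 0) (p (nat_lit 0x10a090888079a) (nat_lit 0) (p (nat_lit 0x89888807871a) (nat_lit 0) (p (nat_lit 0x8000080000000090787088a) (nat_lit 0) (p (nat_lit 0x8000080000000088706860a) (nat_lit 0) (p (nat_lit 0x10706860782) (nat_lit 0) (p (nat_lit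 0x8686058702) (nat_lit 0) (p (nat_lit 0x10605850482) (nat_lit 0) (p (nat_lit 0x8585048402) (nat_lit 0) (p (nat_lit 0x160004) (nat_lit 0) (p (nat_lit 0x60592) (nat_lit 0) (p (nat_lit 0x48512) (nat_lit 0) (p (nat_lit 0x50392) (nat_lit 0) (p (nat_lit 0x38312) (nat_lit 0) (p (nat_lit 0x40212) (nat_lit 0) (p (nat_lit 0x28192) (nat_lit 0) (p (nat_lit 0x30092) (nat_lit 0) (p (nat_lit 0x18012) (nat_lit 0) pn)))))))))))))))))))))))))))) :=
  Cl.node (nat_lit 0xb0004) (nat_lit 2) (by decide +kernel) (ClAll.succ (ClAll.succ ClAll.zero n28) n29)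

def n47 : Cl (O (nat_lit 6)) (R (nat_lit 135377))
    (p (nat_lit 0x200014) (nat_lit 0) (p (nat_lit 0x20000c) (nat_lit 0) (p (nat_lit 0x109) (nat_lit 0) (p (nat_lit 0xc9) (nat_lit 1) (p (nat_lit 0x89) (nat_lit 1) (p (nat_lit 0x111) (nat_lit 1) (p (nat_lit 0xd1) (nat_lit 1) (p (nat_lit 0x81) (nat_lit 0) (p (nat_lit 0x41) (nat_lit 1) (p (nat_lit 0x10b0a09890a9a) (nat_lit 0) (p (nat_lit 0x8a8989088a1a) (nat_lit 0) (p (nat_lit 0x10a090888079a) (nat_lit 0) (p (nat_lit 0x89888807871a) (nat_lit 0) (p (nat_lit 0x8000080000000090787088a) (nat_lit 0) (p (nat_lit 0x8000080000000088706860a) (nat_lit 0) (p (nat_lit 0x10706860782) (nat_lit 0) (p (nat_lit 0x8686058702) (nat_lit 0) (p (nat_lit 0x10605850482) (nat_lit 0) (p (nat_lit 0x8585048402) (nat_lit 0) (p (nat_lit 0x160004) (nat_lit 0) (p (nat_lit 0x60592) (nat_lit 0) (p (nat_lit 0x48512) (nat_lit 0) (p (nat_lit 0x50392) (nat_lit 0) (p (nat_lit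 0x38312) (nat_lit 0) (p (nat_lit 0x40212) (nat_lit 0) (p (nat_lit 0x28192) (nat_lit 0) (p (nat_lit 0x30092) (nat_lit 0) (p (nat_lit 0x18012) (nat_lit 0) pn)))))))))))))))))))))))))))) :=
  Cl.node (nat_lit 0xb0004) (nat_lit 2) (by decide +kernel) (ClAll.succ (ClAll.succ ClAll.zero s150) s151)

def n48 : Cl (O (nat_lit 6)) (R (nat_lit 135377))
    (p (nat_lit 0x20000c) (nat_lit 0) (p (nat_lit 0xc9) (nat_lit 0) (p (nat_lit 0x81) (nat_lit 0) (p (nat_lit 0x101) (nat_lit 1) (p (nat_lit 0x119) (nat_lit 0) (p (nat_lit 0xd1) (nat_lit 0) (p (nat_lit 0x89) (nat_lit 0) (p (nat_lit 0x41) (nat_lit 0) (p (nat_lit 0x10b0a09890a9a) (nat_lit 0) (p (nat_lit 0x8a8989088a1a) (nat_lit 0) (p (nat_lit 0x10a090888079a) (nat_lit 0) (p (nat_lit 0x89888807871a) (nat_lit 0) (p (nat_lit 0x8000080000000090787088a) (nat_lit 0) (p (nat_lit 0x8000080000000088706860a) (nat_lit 0) (p (nat_lit 0x10706860782) (nat_lit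 0) (p (nat_lit 0x8686058702) (nat_lit 0) (p (nat_lit 0x10605850482) (nat_lit 0) (p (nat_lit 0x8585048402) (nat_lit 0) (p (nat_lit 0x160004) (nat_lit 0) (p (nat_lit 0x60592) (nat_lit 0) (p (nat_lit 0x48512) (nat_lit 0) (p (nat_lit 0x50392) (nat_lit 0) (p (nat_lit 0x38312) (nat_lit 0) (p (nat_lit 0x40212) (nat_lit 0) (p (nat_lit 0x28192) (nat_lit 0) (p (nat_lit 0x30092) (nat_lit 0) (p (nat_lit 0x18012) (nat_lit 0) pn))))))))))))))))))))))))))) :=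
  Cl.node (nat_lit 0x200014) (nat_lit 2) (by decide +kernel) (ClAll.succ (ClAll.succ ClAll.zero n30) s7)

def n49 : Cl (O (nat_lit 6)) (R (nat_lit 135377))
    (p (nat_lit 0x20000c) (nat_lit 0) (p (nat_lit 0xc9) (nat_lit 1) (p (nat_lit 0x81) (nat_lit 0) (p (nat_lit 0x101) (nat_lit 1) (p (nat_lit 0x119) (nat_lit 0) (p (nat_lit 0xd1) (nat_lit 0) (p (nat_lit 0x89) (nat_lit 0) (p (nat_lit 0x41) (nat_lit 0) (p (nat_lit 0x10b0a09890a9a) (nat_lit 0) (p (nat_lit 0x8a8989088a1a) (nat_lit 0) (p (nat_lit 0x10a090888079a) (nat_lit 0) (p (nat_lit 0x89888807871a) (nat_lit 0) (p (nat_lit 0x8000080000000090787088a) (nat_lit 0) (p (nat_lit 0x8000080000000088706860a) (nat_lit 0) (p (nat_lit 0x10706860782) (nat_lit 0) (p (nat_lit 0x8686058702) (nat_lit 0) (p (nat_lit 0x10605850482) (nat_lit 0) (p (nat_lit 0x8585048402) (nat_lit 0) (p (nat_lit 0x160004) (nat_lit 0) (p (nat_lit 0x60592) (nat_lit 0) (p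 (nat_lit 0x48512) (nat_lit 0) (p (nat_lit 0x50392) (nat_lit 0) (p (nat_lit 0x38312) (nat_lit 0) (p (nat_lit 0x40212) (nat_lit 0) (p (nat_lit 0x28192) (nat_lit 0) (p (nat_lit 0x30092) (nat_lit 0) (p (nat_lit 0x18012) (nat_lit 0) pn))))))))))))))))))))))))))) :=
  Cl.node (nat_lit 0x200014) (nat_lit 2) (by decide +kernel) (ClAll.succ (ClAll.succ ClAll.zero n31) s15)

def n50 : Cl (O (nat_lit 6)) (R (nat_lit 135377))
    (p (nat_lit 0xc9) (nat_lit 0) (p (nat_lit 0xc1) (nat_lit 0) (p (nat_lit 0x81) (nat_lit 1) (p (nat_lit 0x101) (nat_lit 1) (p (nat_lit 0x119) (nat_lit 0) (p (nat_lit 0xd1) (nat_lit 0) (p (nat_lit 0x89) (nat_lit 0) (p (nat_lit 0x41) (nat_lit 0) (p (nat_lit 0x10b0a09890a9a) (nat_lit 0) (p (nat_lit 0x8a8989088a1a) (nat_lit 0) (p (nat_lit 0x10a090888079a) (nat_lit 0) (p (nat_lit 0x89888807871a) (nat_lit 0) (p (nat_lit 0x8000080000000090787088a) (nat_lit 0) (p (nat_lit 0x8000080000000088706860a)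 (nat_lit 0) (p (nat_lit 0x10706860782) (nat_lit 0) (p (nat_lit 0x8686058702) (nat_lit 0) (p (nat_lit 0x10605850482) (nat_lit 0) (p (nat_lit 0x8585048402) (nat_lit 0) (p (nat_lit 0x160004) (nat_lit 0) (p (nat_lit 0x60592) (nat_lit 0) (p (nat_lit 0x48512) (nat_lit 0) (p (nat_lit 0x50392) (nat_lit 0) (p (nat_lit 0x38312) (nat_lit 0) (p (nat_lit 0x40212) (nat_lit 0) (p (nat_lit 0x28192) (nat_lit 0) (p (nat_lit 0x30092) (nat_lit 0) (p (nat_lit 0x18012) (nat_lit 0) pn))))))))))))))))))))))))))) :=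
  Cl.node (nat_lit 0x20000c) (nat_lit 2) (by decide +kernel) (ClAll.succ (ClAll.succ ClAll.zero n32) s19)

def n51 : Cl (O (nat_lit 6)) (R (nat_lit 135377))
    (p (nat_lit 0xc9) (nat_lit 1) (p (nat_lit 0xc1) (nat_lit 0) (p (nat_lit 0x81) (nat_lit 1) (p (nat_lit 0x101) (nat_lit 1) (p (nat_lit 0x119) (nat_lit 0) (p (nat_lit 0xd1) (nat_lit 0) (p (nat_lit 0x89) (nat_lit 0) (p (nat_lit 0x41) (nat_lit 0) (p (nat_lit 0x10b0a09890a9a) (nat_lit 0) (p (nat_lit 0x8a8989088a1a) (nat_lit 0) (p (nat_lit 0x10a090888079a) (nat_lit 0) (p (nat_lit 0x89888807871a) (nat_lit 0) (p (nat_lit 0x8000080000000090787088a) (nat_lit 0) (p (nat_lit 0x8000080000000088706860a) (nat_lit 0) (p (nat_lit 0x10706860782) (nat_lit 0) (p (nat_lit 0x8686058702) (nat_lit 0) (p (nat_lit 0x10605850482) (nat_lit 0) (p (nat_lit 0x8585048402) (nat_lit 0) (p (nat_lit 0x160004) (nat_lit 0) (p (nat_lit 0x60592) (nat_lit 0) (p (nat_lit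 0x48512) (nat_lit 0) (p (nat_lit 0x50392) (nat_lit 0) (p (nat_lit 0x38312) (nat_lit 0) (p (nat_lit 0x40212) (nat_lit 0) (p (nat_lit 0x28192) (nat_lit 0) (p (nat_lit 0x30092) (nat_lit 0) (p (nat_lit 0x18012) (nat_lit 0) pn))))))))))))))))))))))))))) :=
  Cl.node (nat_lit 0x20000c) (nat_lit 2) (by decide +kernel) (ClAll.succ (ClAll.succ ClAll.zero n33) s22)

def n52 : Cl (O (nat_lit 6)) (R (nat_lit 135377))
    (p (nat_lit 0x20000c) (nat_lit 0) (p (nat_lit 0x109) (nat_lit 1) (p (nat_lit 0xc9) (nat_lit 1) (p (nat_lit 0xc1) (nat_lit 0) (p (nat_lit 0x119) (nat_lit 1) (p (nat_lit 0xd1) (nat_lit 0) (p (nat_lit 0x89) (nat_lit 0) (p (nat_lit 0x41) (nat_lit 0) (p (nat_lit 0x10b0a09890a9a) (nat_lit 0) (p (nat_lit 0x8a8989088a1a) (nat_lit 0) (p (nat_lit 0x10a090888079a) (nat_lit 0) (p (nat_lit 0x89888807871a) (nat_lit 0) (p (nat_lit 0x8000080000000090787088a) (nat_lit 0) (p (nat_lit 0x8000080000000088706860a)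 (nat_lit 0) (p (nat_lit 0x10706860782) (nat_lit 0) (p (nat_lit 0x8686058702) (nat_lit 0) (p (nat_lit 0x10605850482) (nat_lit 0) (p (nat_lit 0x8585048402) (nat_lit 0) (p (nat_lit 0x160004) (nat_lit 0) (p (nat_lit 0x60592) (nat_lit 0) (p (nat_lit 0x48512) (nat_lit 0) (p (nat_lit 0x50392) (nat_lit 0) (p (nat_lit 0x38312) (nat_lit 0) (p (nat_lit 0x40212) (nat_lit 0) (p (nat_lit 0x28192) (nat_lit 0) (p (nat_lit 0x30092) (nat_lit 0) (p (nat_lit 0x18012) (nat_lit 0) pn))))))))))))))))))))))))))) :=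
  Cl.node (nat_lit 0x200014) (nat_lit 2) (by decide +kernel) (ClAll.succ (ClAll.succ ClAll.zero n34) s28)

def n53 : Cl (O (nat_lit 6)) (R (nat_lit 135377))
    (p (nat_lit 0x109) (nat_lit 0) (p (nat_lit 0x101) (nat_lit 0) (p (nat_lit 0x81) (nat_lit 1) (p (nat_lit 0xc1) (nat_lit 1) (p (nat_lit 0x119) (nat_lit 1) (p (nat_lit 0xd1) (nat_lit 0) (p (nat_lit 0x89) (nat_lit 0) (p (nat_lit 0x41) (nat_lit 0) (p (nat_lit 0x10b0a09890a9a) (nat_lit 0) (p (nat_lit 0x8a8989088a1a) (nat_lit 0) (p (nat_lit 0x10a090888079a) (nat_lit 0) (p (nat_lit 0x89888807871a) (nat_lit 0) (p (nat_lit 0x8000080000000090787088a) (nat_lit 0) (p (nat_lit 0x8000080000000088706860a) (nat_lit 0) (p (nat_lit 0x10706860782) (nat_lit 0) (p (nat_lit 0x8686058702) (nat_lit 0) (p (nat_lit 0x10605850482) (nat_lit 0) (p (nat_lit 0x8585048402) (nat_lit 0) (p (nat_lit 0x160004) (nat_lit 0) (p (nat_lit 0x60592) (nat_lit 0) (p (nat_lit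 0x48512) (nat_lit 0) (p (nat_lit 0x50392) (nat_lit 0) (p (nat_lit 0x38312) (nat_lit 0) (p (nat_lit 0x40212) (nat_lit 0) (p (nat_lit 0x28192) (nat_lit 0) (p (nat_lit 0x30092) (nat_lit 0) (p (nat_lit 0x18012) (nat_lit 0) pn))))))))))))))))))))))))))) :=
  Cl.node (nat_lit 0x20000c) (nat_lit 2) (by decide +kernel) (ClAll.succ (ClAll.succ ClAll.zero n35) s37)

def n54 : Cl (O (nat_lit 6)) (R (nat_lit 135377))
    (p (nat_lit 0x109) (nat_lit 1) (p (nat_lit 0x101) (nat_lit 0) (p (nat_lit 0x81) (nat_lit 1) (p (nat_lit 0xc1) (nat_lit 1) (p (nat_lit 0x119) (nat_lit 1) (p (nat_lit 0xd1) (nat_lit 0) (p (nat_lit 0x89) (nat_lit 0) (p (nat_lit 0x41) (nat_lit 0) (p (nat_lit 0x10b0a09890a9a) (nat_lit 0) (p (nat_lit 0x8a8989088a1a) (nat_lit 0) (p (nat_lit 0x10a090888079a) (nat_lit 0) (p (nat_lit 0x89888807871a) (nat_lit 0) (p (nat_lit 0x8000080000000090787088a) (nat_lit 0) (p (nat_lit 0x8000080000000088706860a)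 (nat_lit 0) (p (nat_lit 0x10706860782) (nat_lit 0) (p (nat_lit 0x8686058702) (nat_lit 0) (p (nat_lit 0x10605850482) (nat_lit 0) (p (nat_lit 0x8585048402) (nat_lit 0) (p (nat_lit 0x160004) (nat_lit 0) (p (nat_lit 0x60592) (nat_lit 0) (p (nat_lit 0x48512) (nat_lit 0) (p (nat_lit 0x50392) (nat_lit 0) (p (nat_lit 0x38312) (nat_lit 0) (p (nat_lit 0x40212) (nat_lit 0) (p (nat_lit 0x28192) (nat_lit 0) (p (nat_lit 0x30092) (nat_lit 0) (p (nat_lit 0x18012) (nat_lit 0) pn))))))))))))))))))))))))))) :=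
  Cl.node (nat_lit 0x20000c) (nat_lit 2) (by decide +kernel) (ClAll.succ (ClAll.succ ClAll.zero n36) s40)

def n55 : Cl (O (nat_lit 6)) (R (nat_lit 135377))
    (p (nat_lit 0x20000c) (nat_lit 0) (p (nat_lit 0x101) (nat_lit 1) (p (nat_lit 0x81) (nat_lit 1) (p (nat_lit 0xc1) (nat_lit 1) (p (nat_lit 0x119) (nat_lit 1) (p (nat_lit 0xd1) (nat_lit 0) (p (nat_lit 0x89) (nat_lit 0) (p (nat_lit 0x41) (nat_lit 0) (p (nat_lit 0x10b0a09890a9a) (nat_lit 0) (p (nat_lit 0x8a8989088a1a) (nat_lit 0) (p (nat_lit 0x10a090888079a) (nat_lit 0) (p (nat_lit 0x89888807871a) (nat_lit 0) (p (nat_lit 0x8000080000000090787088a) (nat_lit 0) (p (nat_lit 0x8000080000000088706860a) (nat_lit 0) (p (nat_lit 0x10706860782) (nat_lit 0) (p (nat_lit 0x8686058702) (nat_lit 0) (p (nat_lit 0x10605850482) (nat_lit 0) (p (nat_lit 0x8585048402) (nat_lit 0) (p (nat_lit 0x160004) (nat_lit 0) (p (nat_lit 0x60592) (nat_lit 0) (p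 (nat_lit 0x48512) (nat_lit 0) (p (nat_lit 0x50392) (nat_lit 0) (p (nat_lit 0x38312) (nat_lit 0) (p (nat_lit 0x40212) (nat_lit 0) (p (nat_lit 0x28192) (nat_lit 0) (p (nat_lit 0x30092) (nat_lit 0) (p (nat_lit 0x18012) (nat_lit 0) pn))))))))))))))))))))))))))) :=
  Cl.node (nat_lit 0x200014) (nat_lit 2) (by decide +kernel) (ClAll.succ (ClAll.succ ClAll.zero s41) s42)

def n56 : Cl (O (nat_lit 6)) (R (nat_lit 135377))
    (p (nat_lit 0x200014) (nat_lit 0) (p (nat_lit 0x20000c) (nat_lit 0) (p (nat_lit 0x81) (nat_lit 0) (p (nat_lit 0x101) (nat_lit 1) (p (nat_lit 0x111) (nat_lit 0) (p (nat_lit 0xd1) (nat_lit 1) (p (nat_lit 0x89) (nat_lit 0) (p (nat_lit 0x41) (nat_lit 0) (p (nat_lit 0x10b0a09890a9a) (nat_lit 0) (p (nat_lit 0x8a8989088a1a) (nat_lit 0) (p (nat_lit 0x10a090888079a) (nat_lit 0) (p (nat_lit 0x89888807871a) (nat_lit 0) (p (nat_lit 0x8000080000000090787088a) (nat_lit 0) (p (nat_lit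 0x8000080000000088706860a) (nat_lit 0) (p (nat_lit 0x10706860782) (nat_lit 0) (p (nat_lit 0x8686058702) (nat_lit 0) (p (nat_lit 0x10605850482) (nat_lit 0) (p (nat_lit 0x8585048402) (nat_lit 0) (p (nat_lit 0x160004) (nat_lit 0) (p (nat_lit 0x60592) (nat_lit 0) (p (nat_lit 0x48512) (nat_lit 0) (p (nat_lit 0x50392) (nat_lit 0) (p (nat_lit 0x38312) (nat_lit 0) (p (nat_lit 0x40212) (nat_lit 0) (p (nat_lit 0x28192) (nat_lit 0) (p (nat_lit 0x30092) (nat_lit 0) (p (nat_lit 0x18012) (nat_lit 0) pn))))))))))))))))))))))))))) :=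
  Cl.node (nat_lit 0x119) (nat_lit 2) (by decide +kernel) (ClAll.succ (ClAll.succ ClAll.zero s47) s48)

def n57 : Cl (O (nat_lit 6)) (R (nat_lit 135377))
    (p (nat_lit 0x20000c) (nat_lit 0) (p (nat_lit 0xc1) (nat_lit 0) (p (nat_lit 0x81) (nat_lit 1) (p (nat_lit 0x101) (nat_lit 1) (p (nat_lit 0x111) (nat_lit 0) (p (nat_lit 0xd1) (nat_lit 1) (p (nat_lit 0x89) (nat_lit 0) (p (nat_lit 0x41) (nat_lit 0) (p (nat_lit 0x10b0a09890a9a) (nat_lit 0) (p (nat_lit 0x8a8989088a1a) (nat_lit 0) (p (nat_lit 0x10a090888079a) (nat_lit 0) (p (nat_lit 0x89888807871a) (nat_lit 0) (p (nat_lit 0x8000080000000090787088a) (nat_lit 0) (p (nat_lit 0x8000080000000088706860a) (nat_lit 0) (p (nat_lit 0x10706860782) (nat_lit 0) (p (nat_lit 0x8686058702) (nat_lit 0) (p (nat_lit 0x10605850482) (nat_lit 0) (p (nat_lit 0x8585048402) (nat_lit 0) (p (nat_lit 0x160004) (nat_lit 0) (p (nat_lit 0x60592) (nat_lit 0) (p (nat_lit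 0x48512) (nat_lit 0) (p (nat_lit 0x50392) (nat_lit 0) (p (nat_lit 0x38312) (nat_lit 0) (p (nat_lit 0x40212) (nat_lit 0) (p (nat_lit 0x28192) (nat_lit 0) (p (nat_lit 0x30092) (nat_lit 0) (p (nat_lit 0x18012) (nat_lit 0) pn))))))))))))))))))))))))))) :=
  Cl.node (nat_lit 0x200014) (nat_lit 2) (by decide +kernel) (ClAll.succ (ClAll.succ ClAll.zero n37) s53)

def n58 : Cl (O (nat_lit 6)) (R (nat_lit 135377))
    (p (nat_lit 0x20000c) (nat_lit 0) (p (nat_lit 0xd1) (nat_lit 0) (p (nat_lit 0x109) (nat_lit 1) (p (nat_lit 0x101) (nat_lit 0) (p (nat_lit 0x119) (nat_lit 0) (p (nat_lit 0xc9) (nat_lit 0) (p (nat_lit 0x89) (nat_lit 1) (p (nat_lit 0x41) (nat_lit 0) (p (nat_lit 0x10b0a09890a9a) (nat_lit 0) (p (nat_lit 0x8a8989088a1a) (nat_lit 0) (p (nat_lit 0x10a090888079a) (nat_lit 0) (p (nat_lit 0x89888807871a) (nat_lit 0) (p (nat_lit 0x8000080000000090787088a) (nat_lit 0) (p (nat_lit 0x8000080000000088706860a)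 (nat_lit 0) (p (nat_lit 0x10706860782) (nat_lit 0) (p (nat_lit 0x8686058702) (nat_lit 0) (p (nat_lit 0x10605850482) (nat_lit 0) (p (nat_lit 0x8585048402) (nat_lit 0) (p (nat_lit 0x160004) (nat_lit 0) (p (nat_lit 0x60592) (nat_lit 0) (p (nat_lit 0x48512) (nat_lit 0) (p (nat_lit 0x50392) (nat_lit 0) (p (nat_lit 0x38312) (nat_lit 0) (p (nat_lit 0x40212) (nat_lit 0) (p (nat_lit 0x28192) (nat_lit 0) (p (nat_lit 0x30092) (nat_lit 0) (p (nat_lit 0x18012) (nat_lit 0) pn))))))))))))))))))))))))))) :=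
  Cl.node (nat_lit 0x200014) (nat_lit 2) (by decide +kernel) (ClAll.succ (ClAll.succ ClAll.zero s62) s63)

def n59 : Cl (O (nat_lit 6)) (R (nat_lit 135377))
    (p (nat_lit 0x20000c) (nat_lit 0) (p (nat_lit 0xd1) (nat_lit 1) (p (nat_lit 0x109) (nat_lit 1) (p (nat_lit 0x101) (nat_lit 0) (p (nat_lit 0x119) (nat_lit 0) (p (nat_lit 0xc9) (nat_lit 0) (p (nat_lit 0x89) (nat_lit 1) (p (nat_lit 0x41) (nat_lit 0) (p (nat_lit 0x10b0a09890a9a) (nat_lit 0) (p (nat_lit 0x8a8989088a1a) (nat_lit 0) (p (nat_lit 0x10a090888079a) (nat_lit 0) (p (nat_lit 0x89888807871a) (nat_lit 0) (p (nat_lit 0x8000080000000090787088a) (nat_lit 0) (p (nat_lit 0x8000080000000088706860a) (nat_lit 0) (p (nat_lit 0x10706860782) (nat_lit 0) (p (nat_lit 0x8686058702) (nat_lit 0) (p (nat_lit 0x10605850482) (nat_lit 0) (p (nat_lit 0x8585048402) (nat_lit 0) (p (nat_lit 0x160004) (nat_lit 0) (p (nat_lit 0x60592) (nat_lit 0)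 (p (nat_lit 0x48512) (nat_lit 0) (p (nat_lit 0x50392) (nat_lit 0) (p (nat_lit 0x38312) (nat_lit 0) (p (nat_lit 0x40212) (nat_lit 0) (p (nat_lit 0x28192) (nat_lit 0) (p (nat_lit 0x30092) (nat_lit 0) (p (nat_lit 0x18012) (nat_lit 0) pn))))))))))))))))))))))))))) :=
  Cl.node (nat_lit 0x200014) (nat_lit 2) (by decide +kernel) (ClAll.succ (ClAll.succ ClAll.zero s65) s66)

def n60 : Cl (O (nat_lit 6)) (R (nat_lit 135377))
    (p (nat_lit 0x20000c) (nat_lit 0) (p (nat_lit 0xd1) (nat_lit 0) (p (nat_lit 0xc1) (nat_lit 0) (p (nat_lit 0x101) (nat_lit 1) (p (nat_lit 0x119) (nat_lit 0) (p (nat_lit 0xc9) (nat_lit 0) (p (nat_lit 0x89) (nat_lit 1) (p (nat_lit 0x41) (nat_lit 0) (p (nat_lit 0x10b0a09890a9a) (nat_lit 0) (p (nat_lit 0x8a8989088a1a) (nat_lit 0) (p (nat_lit 0x10a090888079a) (nat_lit 0) (p (nat_lit 0x89888807871a) (nat_lit 0) (p (nat_lit 0x8000080000000090787088a) (nat_lit 0) (p (nat_lit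 0x8000080000000088706860a) (nat_lit 0) (p (nat_lit 0x10706860782) (nat_lit 0) (p (nat_lit 0x8686058702) (nat_lit 0) (p (nat_lit 0x10605850482) (nat_lit 0) (p (nat_lit 0x8585048402) (nat_lit 0) (p (nat_lit 0x160004) (nat_lit 0) (p (nat_lit 0x60592) (nat_lit 0) (p (nat_lit 0x48512) (nat_lit 0) (p (nat_lit 0x50392) (nat_lit 0) (p (nat_lit 0x38312) (nat_lit 0) (p (nat_lit 0x40212) (nat_lit 0) (p (nat_lit 0x28192) (nat_lit 0) (p (nat_lit 0x30092) (nat_lit 0) (p (nat_lit 0x18012) (nat_lit 0) pn))))))))))))))))))))))))))) :=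
  Cl.node (nat_lit 0x200014) (nat_lit 2) (by decide +kernel) (ClAll.succ (ClAll.succ ClAll.zero n38) s70)

def n61 : Cl (O (nat_lit 6)) (R (nat_lit 135377))
    (p (nat_lit 0x20000c) (nat_lit 0) (p (nat_lit 0x111) (nat_lit 0) (p (nat_lit 0x101) (nat_lit 0) (p (nat_lit 0xc1) (nat_lit 1) (p (nat_lit 0x119) (nat_lit 1) (p (nat_lit 0xc9) (nat_lit 0) (p (nat_lit 0x89) (nat_lit 1) (p (nat_lit 0x41) (nat_lit 0) (p (nat_lit 0x10b0a09890a9a) (nat_lit 0) (p (nat_lit 0x8a8989088a1a) (nat_lit 0) (p (nat_lit 0x10a090888079a) (nat_lit 0) (p (nat_lit 0x89888807871a) (nat_lit 0) (p (nat_lit 0x8000080000000090787088a) (nat_lit 0) (p (nat_lit 0x8000080000000088706860a) (nat_lit 0) (p (nat_lit 0x10706860782) (nat_lit 0) (p (nat_lit 0x8686058702) (nat_lit 0) (p (nat_lit 0x10605850482) (nat_lit 0) (p (nat_lit 0x8585048402) (nat_lit 0) (p (nat_lit 0x160004) (nat_lit 0) (p (nat_lit 0x60592) (nat_lit 0)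 (p (nat_lit 0x48512) (nat_lit 0) (p (nat_lit 0x50392) (nat_lit 0) (p (nat_lit 0x38312) (nat_lit 0) (p (nat_lit 0x40212) (nat_lit 0) (p (nat_lit 0x28192) (nat_lit 0) (p (nat_lit 0x30092) (nat_lit 0) (p (nat_lit 0x18012) (nat_lit 0) pn))))))))))))))))))))))))))) :=
  Cl.node (nat_lit 0x200014) (nat_lit 2) (by decide +kernel) (ClAll.succ (ClAll.succ ClAll.zero s78) s79)

def n62 : Cl (O (nat_lit 6)) (R (nat_lit 135377))
    (p (nat_lit 0x20000c) (nat_lit 0) (p (nat_lit 0x89) (nat_lit 0) (p (nat_lit 0x109) (nat_lit 1) (p (nat_lit 0x101) (nat_lit 0) (p (nat_lit 0x119) (nat_lit 0) (p (nat_lit 0xd1) (nat_lit 0) (p (nat_lit 0x81) (nat_lit 0) (p (nat_lit 0x41) (nat_lit 1) (p (nat_lit 0x10b0a09890a9a) (nat_lit 0) (p (nat_lit 0x8a8989088a1a) (nat_lit 0) (p (nat_lit 0x10a090888079a) (nat_lit 0) (p (nat_lit 0x89888807871a) (nat_lit 0) (p (nat_lit 0x8000080000000090787088a) (nat_lit 0) (p (nat_lit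 0x8000080000000088706860a) (nat_lit 0) (p (nat_lit 0x10706860782) (nat_lit 0) (p (nat_lit 0x8686058702) (nat_lit 0) (p (nat_lit 0x10605850482) (nat_lit 0) (p (nat_lit 0x8585048402) (nat_lit 0) (p (nat_lit 0x160004) (nat_lit 0) (p (nat_lit 0x60592) (nat_lit 0) (p (nat_lit 0x48512) (nat_lit 0) (p (nat_lit 0x50392) (nat_lit 0) (p (nat_lit 0x38312) (nat_lit 0) (p (nat_lit 0x40212) (nat_lit 0) (p (nat_lit 0x28192) (nat_lit 0) (p (nat_lit 0x30092) (nat_lit 0) (p (nat_lit 0x18012) (nat_lit 0) pn))))))))))))))))))))))))))) :=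
  Cl.node (nat_lit 0x200014) (nat_lit 2) (by decide +kernel) (ClAll.succ (ClAll.succ ClAll.zero n39) s88)

def n63 : Cl (O (nat_lit 6)) (R (nat_lit 135377))
    (p (nat_lit 0xc9) (nat_lit 0) (p (nat_lit 0x89) (nat_lit 1) (p (nat_lit 0x109) (nat_lit 1) (p (nat_lit 0x101) (nat_lit 0) (p (nat_lit 0x119) (nat_lit 0) (p (nat_lit 0xd1) (nat_lit 0) (p (nat_lit 0x81) (nat_lit 0) (p (nat_lit 0x41) (nat_lit 1) (p (nat_lit 0x10b0a09890a9a) (nat_lit 0) (p (nat_lit 0x8a8989088a1a) (nat_lit 0) (p (nat_lit 0x10a090888079a) (nat_lit 0) (p (nat_lit 0x89888807871a) (nat_lit 0) (p (nat_lit 0x8000080000000090787088a) (nat_lit 0) (p (nat_lit 0x8000080000000088706860a) (nat_lit 0) (p (nat_lit 0x10706860782) (nat_lit 0) (p (nat_lit 0x8686058702) (nat_lit 0) (p (nat_lit 0x10605850482) (nat_lit 0) (p (nat_lit 0x8585048402) (nat_lit 0) (p (nat_lit 0x160004) (nat_lit 0) (p (nat_lit 0x60592) (nat_lit 0) (p (nat_lit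 0x48512) (nat_lit 0) (p (nat_lit 0x50392) (nat_lit 0) (p (nat_lit 0x38312) (nat_lit 0) (p (nat_lit 0x40212) (nat_lit 0) (p (nat_lit 0x28192) (nat_lit 0) (p (nat_lit 0x30092) (nat_lit 0) (p (nat_lit 0x18012) (nat_lit 0) pn))))))))))))))))))))))))))) :=
  Cl.node (nat_lit 0x20000c) (nat_lit 2) (by decide +kernel) (ClAll.succ (ClAll.succ ClAll.zero s90) s91)

def n64 : Cl (O (nat_lit 6)) (R (nat_lit 135377))
    (p (nat_lit 0xc9) (nat_lit 0) (p (nat_lit 0x89) (nat_lit 1) (p (nat_lit 0xc1) (nat_lit 0) (p (nat_lit 0x101) (nat_lit 1) (p (nat_lit 0x119) (nat_lit 0) (p (nat_lit 0xd1) (nat_lit 0) (p (nat_lit 0x81) (nat_lit 0) (p (nat_lit 0x41) (nat_lit 1) (p (nat_lit 0x10b0a09890a9a) (nat_lit 0) (p (nat_lit 0x8a8989088a1a) (nat_lit 0) (p (nat_lit 0x10a090888079a) (nat_lit 0) (p (nat_lit 0x89888807871a) (nat_lit 0) (p (nat_lit 0x8000080000000090787088a) (nat_lit 0) (p (nat_lit 0x8000080000000088706860a)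 (nat_lit 0) (p (nat_lit 0x10706860782) (nat_lit 0) (p (nat_lit 0x8686058702) (nat_lit 0) (p (nat_lit 0x10605850482) (nat_lit 0) (p (nat_lit 0x8585048402) (nat_lit 0) (p (nat_lit 0x160004) (nat_lit 0) (p (nat_lit 0x60592) (nat_lit 0) (p (nat_lit 0x48512) (nat_lit 0) (p (nat_lit 0x50392) (nat_lit 0) (p (nat_lit 0x38312) (nat_lit 0) (p (nat_lit 0x40212) (nat_lit 0) (p (nat_lit 0x28192) (nat_lit 0) (p (nat_lit 0x30092) (nat_lit 0) (p (nat_lit 0x18012) (nat_lit 0) pn))))))))))))))))))))))))))) :=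
  Cl.node (nat_lit 0x20000c) (nat_lit 2) (by decide +kernel) (ClAll.succ (ClAll.succ ClAll.zero s95) s96)

def n65 : Cl (O (nat_lit 6)) (R (nat_lit 135377))
    (p (nat_lit 0xc9) (nat_lit 1) (p (nat_lit 0x89) (nat_lit 1) (p (nat_lit 0xc1) (nat_lit 0) (p (nat_lit 0x101) (nat_lit 1) (p (nat_lit 0x119) (nat_lit 0) (p (nat_lit 0xd1) (nat_lit 0) (p (nat_lit 0x81) (nat_lit 0) (p (nat_lit 0x41) (nat_lit 1) (p (nat_lit 0x10b0a09890a9a) (nat_lit 0) (p (nat_lit 0x8a8989088a1a) (nat_lit 0) (p (nat_lit 0x10a090888079a) (nat_lit 0) (p (nat_lit 0x89888807871a) (nat_lit 0) (p (nat_lit 0x8000080000000090787088a) (nat_lit 0) (p (nat_lit 0x8000080000000088706860a) (nat_lit 0) (p (nat_lit 0x10706860782) (nat_lit 0) (p (nat_lit 0x8686058702) (nat_lit 0) (p (nat_lit 0x10605850482) (nat_lit 0) (p (nat_lit 0x8585048402) (nat_lit 0) (p (nat_lit 0x160004) (nat_lit 0) (p (nat_lit 0x60592) (nat_lit 0) (p (nat_lit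 0x48512) (nat_lit 0) (p (nat_lit 0x50392) (nat_lit 0) (p (nat_lit 0x38312) (nat_lit 0) (p (nat_lit 0x40212) (nat_lit 0) (p (nat_lit 0x28192) (nat_lit 0) (p (nat_lit 0x30092) (nat_lit 0) (p (nat_lit 0x18012) (nat_lit 0) pn))))))))))))))))))))))))))) :=
  Cl.node (nat_lit 0x20000c) (nat_lit 2) (by decide +kernel) (ClAll.succ (ClAll.succ ClAll.zero n40) s100)

def n66 : Cl (O (nat_lit 6)) (R (nat_lit 135377))
    (p (nat_lit 0x20000c) (nat_lit 0) (p (nat_lit 0x89) (nat_lit 1) (p (nat_lit 0xc1) (nat_lit 1) (p (nat_lit 0x101) (nat_lit 1) (p (nat_lit 0x119) (nat_lit 0) (p (nat_lit 0xd1) (nat_lit 0) (p (nat_lit 0x81) (nat_lit 0) (p (nat_lit 0x41) (nat_lit 1) (p (nat_lit 0x10b0a09890a9a) (nat_lit 0) (p (nat_lit 0x8a8989088a1a) (nat_lit 0) (p (nat_lit 0x10a090888079a) (nat_lit 0) (p (nat_lit 0x89888807871a) (nat_lit 0) (p (nat_lit 0x8000080000000090787088a) (nat_lit 0) (p (nat_lit 0x8000080000000088706860a)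 (nat_lit 0) (p (nat_lit 0x10706860782) (nat_lit 0) (p (nat_lit 0x8686058702) (nat_lit 0) (p (nat_lit 0x10605850482) (nat_lit 0) (p (nat_lit 0x8585048402) (nat_lit 0) (p (nat_lit 0x160004) (nat_lit 0) (p (nat_lit 0x60592) (nat_lit 0) (p (nat_lit 0x48512) (nat_lit 0) (p (nat_lit 0x50392) (nat_lit 0) (p (nat_lit 0x38312) (nat_lit 0) (p (nat_lit 0x40212) (nat_lit 0) (p (nat_lit 0x28192) (nat_lit 0) (p (nat_lit 0x30092) (nat_lit 0) (p (nat_lit 0x18012) (nat_lit 0) pn))))))))))))))))))))))))))) :=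
  Cl.node (nat_lit 0x200014) (nat_lit 2) (by decide +kernel) (ClAll.succ (ClAll.succ ClAll.zero n41) s106)

def n67 : Cl (O (nat_lit 6)) (R (nat_lit 135377))
    (p (nat_lit 0x109) (nat_lit 0) (p (nat_lit 0x89) (nat_lit 1) (p (nat_lit 0xc9) (nat_lit 1) (p (nat_lit 0xc1) (nat_lit 0) (p (nat_lit 0x119) (nat_lit 1) (p (nat_lit 0xd1) (nat_lit 0) (p (nat_lit 0x81) (nat_lit 0) (p (nat_lit 0x41) (nat_lit 1) (p (nat_lit 0x10b0a09890a9a) (nat_lit 0) (p (nat_lit 0x8a8989088a1a) (nat_lit 0) (p (nat_lit 0x10a090888079a) (nat_lit 0) (p (nat_lit 0x89888807871a) (nat_lit 0) (p (nat_lit 0x8000080000000090787088a) (nat_lit 0) (p (nat_lit 0x8000080000000088706860a) (nat_lit 0) (p (nat_lit 0x10706860782) (nat_lit 0) (p (nat_lit 0x8686058702) (nat_lit 0) (p (nat_lit 0x10605850482) (nat_lit 0) (p (nat_lit 0x8585048402) (nat_lit 0) (p (nat_lit 0x160004) (nat_lit 0) (p (nat_lit 0x60592) (nat_lit 0) (p (nat_lit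 0x48512) (nat_lit 0) (p (nat_lit 0x50392) (nat_lit 0) (p (nat_lit 0x38312) (nat_lit 0) (p (nat_lit 0x40212) (nat_lit 0) (p (nat_lit 0x28192) (nat_lit 0) (p (nat_lit 0x30092) (nat_lit 0) (p (nat_lit 0x18012) (nat_lit 0) pn))))))))))))))))))))))))))) :=
  Cl.node (nat_lit 0x20000c) (nat_lit 2) (by decide +kernel) (ClAll.succ (ClAll.succ ClAll.zero n42) s113)

def n68 : Cl (O (nat_lit 6)) (R (nat_lit 135377))
    (p (nat_lit 0x109) (nat_lit 1) (p (nat_lit 0x89) (nat_lit 1) (p (nat_lit 0xc9) (nat_lit 1) (p (nat_lit 0xc1) (nat_lit 0) (p (nat_lit 0x119) (nat_lit 1) (p (nat_lit 0xd1) (nat_lit 0) (p (nat_lit 0x81) (nat_lit 0) (p (nat_lit 0x41) (nat_lit 1) (p (nat_lit 0x10b0a09890a9a) (nat_lit 0) (p (nat_lit 0x8a8989088a1a) (nat_lit 0) (p (nat_lit 0x10a090888079a) (nat_lit 0) (p (nat_lit 0x89888807871a) (nat_lit 0) (p (nat_lit 0x8000080000000090787088a) (nat_lit 0) (p (nat_lit 0x8000080000000088706860a)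 (nat_lit 0) (p (nat_lit 0x10706860782) (nat_lit 0) (p (nat_lit 0x8686058702) (nat_lit 0) (p (nat_lit 0x10605850482) (nat_lit 0) (p (nat_lit 0x8585048402) (nat_lit 0) (p (nat_lit 0x160004) (nat_lit 0) (p (nat_lit 0x60592) (nat_lit 0) (p (nat_lit 0x48512) (nat_lit 0) (p (nat_lit 0x50392) (nat_lit 0) (p (nat_lit 0x38312) (nat_lit 0) (p (nat_lit 0x40212) (nat_lit 0) (p (nat_lit 0x28192) (nat_lit 0) (p (nat_lit 0x30092) (nat_lit 0) (p (nat_lit 0x18012) (nat_lit 0) pn))))))))))))))))))))))))))) :=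
  Cl.node (nat_lit 0x20000c) (nat_lit 2) (by decide +kernel) (ClAll.succ (ClAll.succ ClAll.zero s114) s115)

def n69 : Cl (O (nat_lit 6)) (R (nat_lit 135377))
    (p (nat_lit 0x109) (nat_lit 0) (p (nat_lit 0x89) (nat_lit 1) (p (nat_lit 0x101) (nat_lit 0) (p (nat_lit 0xc1) (nat_lit 1) (p (nat_lit 0x119) (nat_lit 1) (p (nat_lit 0xd1) (nat_lit 0) (p (nat_lit 0x81) (nat_lit 0) (p (nat_lit 0x41) (nat_lit 1) (p (nat_lit 0x10b0a09890a9a) (nat_lit 0) (p (nat_lit 0x8a8989088a1a) (nat_lit 0) (p (nat_lit 0x10a090888079a) (nat_lit 0) (p (nat_lit 0x89888807871a) (nat_lit 0) (p (nat_lit 0x8000080000000090787088a) (nat_lit 0) (p (nat_lit 0x8000080000000088706860a) (nat_lit 0) (p (nat_lit 0x10706860782) (nat_lit 0) (p (nat_lit 0x8686058702) (nat_lit 0) (p (nat_lit 0x10605850482) (nat_lit 0) (p (nat_lit 0x8585048402) (nat_lit 0) (p (nat_lit 0x160004) (nat_lit 0) (p (nat_lit 0x60592) (nat_lit 0) (p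 (nat_lit 0x48512) (nat_lit 0) (p (nat_lit 0x50392) (nat_lit 0) (p (nat_lit 0x38312) (nat_lit 0) (p (nat_lit 0x40212) (nat_lit 0) (p (nat_lit 0x28192) (nat_lit 0) (p (nat_lit 0x30092) (nat_lit 0) (p (nat_lit 0x18012) (nat_lit 0) pn))))))))))))))))))))))))))) :=
  Cl.node (nat_lit 0x20000c) (nat_lit 2) (by decide +kernel) (ClAll.succ (ClAll.succ ClAll.zero s117) s118)

def n70 : Cl (O (nat_lit 6)) (R (nat_lit 135377))
    (p (nat_lit 0x109) (nat_lit 1) (p (nat_lit 0x89) (nat_lit 1) (p (nat_lit 0x101) (nat_lit 0) (p (nat_lit 0xc1) (nat_lit 1) (p (nat_lit 0x119) (nat_lit 1) (p (nat_lit 0xd1) (nat_lit 0) (p (nat_lit 0x81) (nat_lit 0) (p (nat_lit 0x41) (nat_lit 1) (p (nat_lit 0x10b0a09890a9a) (nat_lit 0) (p (nat_lit 0x8a8989088a1a) (nat_lit 0) (p (nat_lit 0x10a090888079a) (nat_lit 0) (p (nat_lit 0x89888807871a) (nat_lit 0) (p (nat_lit 0x8000080000000090787088a) (nat_lit 0) (p (nat_lit 0x8000080000000088706860a)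 (nat_lit 0) (p (nat_lit 0x10706860782) (nat_lit 0) (p (nat_lit 0x8686058702) (nat_lit 0) (p (nat_lit 0x10605850482) (nat_lit 0) (p (nat_lit 0x8585048402) (nat_lit 0) (p (nat_lit 0x160004) (nat_lit 0) (p (nat_lit 0x60592) (nat_lit 0) (p (nat_lit 0x48512) (nat_lit 0) (p (nat_lit 0x50392) (nat_lit 0) (p (nat_lit 0x38312) (nat_lit 0) (p (nat_lit 0x40212) (nat_lit 0) (p (nat_lit 0x28192) (nat_lit 0) (p (nat_lit 0x30092) (nat_lit 0) (p (nat_lit 0x18012) (nat_lit 0) pn))))))))))))))))))))))))))) :=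
  Cl.node (nat_lit 0x20000c) (nat_lit 2) (by decide +kernel) (ClAll.succ (ClAll.succ ClAll.zero n43) s121)

def n71 : Cl (O (nat_lit 6)) (R (nat_lit 135377))
    (p (nat_lit 0x20000c) (nat_lit 0) (p (nat_lit 0x89) (nat_lit 1) (p (nat_lit 0x101) (nat_lit 1) (p (nat_lit 0xc1) (nat_lit 1) (p (nat_lit 0x119) (nat_lit 1) (p (nat_lit 0xd1) (nat_lit 0) (p (nat_lit 0x81) (nat_lit 0) (p (nat_lit 0x41) (nat_lit 1) (p (nat_lit 0x10b0a09890a9a) (nat_lit 0) (p (nat_lit 0x8a8989088a1a) (nat_lit 0) (p (nat_lit 0x10a090888079a) (nat_lit 0) (p (nat_lit 0x89888807871a) (nat_lit 0) (p (nat_lit 0x8000080000000090787088a) (nat_lit 0) (p (nat_lit 0x8000080000000088706860a) (nat_lit 0) (p (nat_lit 0x10706860782) (nat_lit 0) (p (nat_lit 0x8686058702) (nat_lit 0) (p (nat_lit 0x10605850482) (nat_lit 0) (p (nat_lit 0x8585048402) (nat_lit 0) (p (nat_lit 0x160004) (nat_lit 0) (p (nat_lit 0x60592) (nat_lit 0)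 (p (nat_lit 0x48512) (nat_lit 0) (p (nat_lit 0x50392) (nat_lit 0) (p (nat_lit 0x38312) (nat_lit 0) (p (nat_lit 0x40212) (nat_lit 0) (p (nat_lit 0x28192) (nat_lit 0) (p (nat_lit 0x30092) (nat_lit 0) (p (nat_lit 0x18012) (nat_lit 0) pn))))))))))))))))))))))))))) :=
  Cl.node (nat_lit 0x200014) (nat_lit 2) (by decide +kernel) (ClAll.succ (ClAll.succ ClAll.zero n44) s128)

def n72 : Cl (O (nat_lit 6)) (R (nat_lit 135377))
    (p (nat_lit 0xc9) (nat_lit 0) (p (nat_lit 0x89) (nat_lit 1) (p (nat_lit 0x109) (nat_lit 1) (p (nat_lit 0x101) (nat_lit 0) (p (nat_lit 0x111) (nat_lit 0) (p (nat_lit 0xd1) (nat_lit 1) (p (nat_lit 0x81) (nat_lit 0) (p (nat_lit 0x41) (nat_lit 1) (p (nat_lit 0x10b0a09890a9a) (nat_lit 0) (p (nat_lit 0x8a8989088a1a) (nat_lit 0) (p (nat_lit 0x10a090888079a) (nat_lit 0) (p (nat_lit 0x89888807871a) (nat_lit 0) (p (nat_lit 0x8000080000000090787088a) (nat_lit 0) (p (nat_lit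 0x8000080000000088706860a) (nat_lit 0) (p (nat_lit 0x10706860782) (nat_lit 0) (p (nat_lit 0x8686058702) (nat_lit 0) (p (nat_lit 0x10605850482) (nat_lit 0) (p (nat_lit 0x8585048402) (nat_lit 0) (p (nat_lit 0x160004) (nat_lit 0) (p (nat_lit 0x60592) (nat_lit 0) (p (nat_lit 0x48512) (nat_lit 0) (p (nat_lit 0x50392) (nat_lit 0) (p (nat_lit 0x38312) (nat_lit 0) (p (nat_lit 0x40212) (nat_lit 0) (p (nat_lit 0x28192) (nat_lit 0) (p (nat_lit 0x30092) (nat_lit 0) (p (nat_lit 0x18012) (nat_lit 0) pn))))))))))))))))))))))))))) :=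
  Cl.node (nat_lit 0x20000c) (nat_lit 2) (by decide +kernel) (ClAll.succ (ClAll.succ ClAll.zero n45) s136)

def n73 : Cl (O (nat_lit 6)) (R (nat_lit 135377))
    (p (nat_lit 0x20000c) (nat_lit 0) (p (nat_lit 0xc9) (nat_lit 0) (p (nat_lit 0x89) (nat_lit 1) (p (nat_lit 0x101) (nat_lit 1) (p (nat_lit 0x111) (nat_lit 0) (p (nat_lit 0xd1) (nat_lit 1) (p (nat_lit 0x81) (nat_lit 0) (p (nat_lit 0x41) (nat_lit 1) (p (nat_lit 0x10b0a09890a9a) (nat_lit 0) (p (nat_lit 0x8a8989088a1a) (nat_lit 0) (p (nat_lit 0x10a090888079a) (nat_lit 0) (p (nat_lit 0x89888807871a) (nat_lit 0) (p (nat_lit 0x8000080000000090787088a) (nat_lit 0) (p (nat_lit 0x8000080000000088706860a) (nat_lit 0) (p (nat_lit 0x10706860782) (nat_lit 0) (p (nat_lit 0x8686058702) (nat_lit 0) (p (nat_lit 0x10605850482) (nat_lit 0) (p (nat_lit 0x8585048402) (nat_lit 0) (p (nat_lit 0x160004) (nat_lit 0) (p (nat_lit 0x60592) (nat_lit 0)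 (p (nat_lit 0x48512) (nat_lit 0) (p (nat_lit 0x50392) (nat_lit 0) (p (nat_lit 0x38312) (nat_lit 0) (p (nat_lit 0x40212) (nat_lit 0) (p (nat_lit 0x28192) (nat_lit 0) (p (nat_lit 0x30092) (nat_lit 0) (p (nat_lit 0x18012) (nat_lit 0) pn))))))))))))))))))))))))))) :=
  Cl.node (nat_lit 0x200014) (nat_lit 2) (by decide +kernel) (ClAll.succ (ClAll.succ ClAll.zero n46) s145)

def n74 : Cl (O (nat_lit 6)) (R (nat_lit 135377))
    (p (nat_lit 0x20000c) (nat_lit 0) (p (nat_lit 0x109) (nat_lit 0) (p (nat_lit 0xc9) (nat_lit 1) (p (nat_lit 0x89) (nat_lit 1) (p (nat_lit 0x111) (nat_lit 1) (p (nat_lit 0xd1) (nat_lit 1) (p (nat_lit 0x81) (nat_lit 0) (p (nat_lit 0x41) (nat_lit 1) (p (nat_lit 0x10b0a09890a9a) (nat_lit 0) (p (nat_lit 0x8a8989088a1a) (nat_lit 0) (p (nat_lit 0x10a090888079a) (nat_lit 0) (p (nat_lit 0x89888807871a) (nat_lit 0) (p (nat_lit 0x8000080000000090787088a) (nat_lit 0) (p (nat_lit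 0x8000080000000088706860a) (nat_lit 0) (p (nat_lit 0x10706860782) (nat_lit 0) (p (nat_lit 0x8686058702) (nat_lit 0) (p (nat_lit 0x10605850482) (nat_lit 0) (p (nat_lit 0x8585048402) (nat_lit 0) (p (nat_lit 0x160004) (nat_lit 0) (p (nat_lit 0x60592) (nat_lit 0) (p (nat_lit 0x48512) (nat_lit 0) (p (nat_lit 0x50392) (nat_lit 0) (p (nat_lit 0x38312) (nat_lit 0) (p (nat_lit 0x40212) (nat_lit 0) (p (nat_lit 0x28192) (nat_lit 0) (p (nat_lit 0x30092) (nat_lit 0) (p (nat_lit 0x18012) (nat_lit 0) pn))))))))))))))))))))))))))) :=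
  Cl.node (nat_lit 0x200014) (nat_lit 2) (by decide +kernel) (ClAll.succ (ClAll.succ ClAll.zero n47) s152)

def n75 : Cl (O (nat_lit 6)) (R (nat_lit 135377))
    (p (nat_lit 0x20000c) (nat_lit 0) (p (nat_lit 0x111) (nat_lit 0) (p (nat_lit 0x109) (nat_lit 0) (p (nat_lit 0xc9) (nat_lit 1) (p (nat_lit 0x119) (nat_lit 1) (p (nat_lit 0xc1) (nat_lit 0) (p (nat_lit 0x81) (nat_lit 1) (p (nat_lit 0x41) (nat_lit 1) (p (nat_lit 0x10b0a09890a9a) (nat_lit 0) (p (nat_lit 0x8a8989088a1a) (nat_lit 0) (p (nat_lit 0x10a090888079a) (nat_lit 0) (p (nat_lit 0x89888807871a) (nat_lit 0) (p (nat_lit 0x8000080000000090787088a) (nat_lit 0) (p (nat_lit 0x8000080000000088706860a) (nat_lit 0) (p (nat_lit 0x10706860782) (nat_lit 0) (p (nat_lit 0x8686058702) (nat_lit 0) (p (nat_lit 0x10605850482) (nat_lit 0) (p (nat_lit 0x8585048402) (nat_lit 0) (p (nat_lit 0x160004) (nat_lit 0) (p (nat_lit 0x60592) (nat_lit 0)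 (p (nat_lit 0x48512) (nat_lit 0) (p (nat_lit 0x50392) (nat_lit 0) (p (nat_lit 0x38312) (nat_lit 0) (p (nat_lit 0x40212) (nat_lit 0) (p (nat_lit 0x28192) (nat_lit 0) (p (nat_lit 0x30092) (nat_lit 0) (p (nat_lit 0x18012) (nat_lit 0) pn))))))))))))))))))))))))))) :=
  Cl.node (nat_lit 0x200014) (nat_lit 2) (by decide +kernel) (ClAll.succ (ClAll.succ ClAll.zero s165) s166)

def n76 : Cl (O (nat_lit 6)) (R (nat_lit 135377))
    (p (nat_lit 0x200014) (nat_lit 0) (p (nat_lit 0x20000c) (nat_lit 0) (p (nat_lit 0x109) (nat_lit 1) (p (nat_lit 0xc9) (nat_lit 1) (p (nat_lit 0x119) (nat_lit 1) (p (nat_lit 0xc1) (nat_lit 0) (p (nat_lit 0x81) (nat_lit 1) (p (nat_lit 0x41) (nat_lit 1) (p (nat_lit 0x10b0a09890a9a) (nat_lit 0) (p (nat_lit 0x8a8989088a1a) (nat_lit 0) (p (nat_lit 0x10a090888079a) (nat_lit 0) (p (nat_lit 0x89888807871a) (nat_lit 0) (p (nat_lit 0x8000080000000090787088a) (nat_lit 0) (p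 (nat_lit 0x8000080000000088706860a) (nat_lit 0) (p (nat_lit 0x10706860782) (nat_lit 0) (p (nat_lit 0x8686058702) (nat_lit 0) (p (nat_lit 0x10605850482) (nat_lit 0) (p (nat_lit 0x8585048402) (nat_lit 0) (p (nat_lit 0x160004) (nat_lit 0) (p (nat_lit 0x60592) (nat_lit 0) (p (nat_lit 0x48512) (nat_lit 0) (p (nat_lit 0x50392) (nat_lit 0) (p (nat_lit 0x38312) (nat_lit 0) (p (nat_lit 0x40212) (nat_lit 0) (p (nat_lit 0x28192) (nat_lit 0) (p (nat_lit 0x30092) (nat_lit 0) (p (nat_lit 0x18012) (nat_lit 0) pn))))))))))))))))))))))))))) :=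
  Cl.node (nat_lit 0xb0004) (nat_lit 2) (by decide +kernel) (ClAll.succ (ClAll.succ ClAll.zero s169) s170)

def n77 : Cl (O (nat_lit 6)) (R (nat_lit 135377))
    (p (nat_lit 0xc9) (nat_lit 1) (p (nat_lit 0x109) (nat_lit 1) (p (nat_lit 0x101) (nat_lit 0) (p (nat_lit 0x119) (nat_lit 0) (p (nat_lit 0xd1) (nat_lit 0) (p (nat_lit 0x89) (nat_lit 0) (p (nat_lit 0x41) (nat_lit 0) (p (nat_lit 0x10b0a09890a9a) (nat_lit 0) (p (nat_lit 0x8a8989088a1a) (nat_lit 0) (p (nat_lit 0x10a090888079a) (nat_lit 0) (p (nat_lit 0x89888807871a) (nat_lit 0) (p (nat_lit 0x8000080000000090787088a) (nat_lit 0) (p (nat_lit 0x8000080000000088706860a) (nat_lit 0) (p (nat_lit 0x10706860782) (nat_lit 0) (p (nat_lit 0x8686058702) (nat_lit 0) (p (nat_lit 0x10605850482) (nat_lit 0) (p (nat_lit 0x8585048402) (nat_lit 0) (p (nat_lit 0x160004) (nat_lit 0) (p (nat_lit 0x60592) (nat_lit 0) (p (nat_lit 0x48512) (nat_lit 0)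 (p (nat_lit 0x50392) (nat_lit 0) (p (nat_lit 0x38312) (nat_lit 0) (p (nat_lit 0x40212) (nat_lit 0) (p (nat_lit 0x28192) (nat_lit 0) (p (nat_lit 0x30092) (nat_lit 0) (p (nat_lit 0x18012) (nat_lit 0) pn)))))))))))))))))))))))))) :=
  Cl.node (nat_lit 0x20000c) (nat_lit 2) (by decide +kernel) (ClAll.succ (ClAll.succ ClAll.zero s2) s3)

def n78 : Cl (O (nat_lit 6)) (R (nat_lit 135377))
    (p (nat_lit 0xc9) (nat_lit 0) (p (nat_lit 0x81) (nat_lit 0) (p (nat_lit 0x101) (nat_lit 1) (p (nat_lit 0x119) (nat_lit 0) (p (nat_lit 0xd1) (nat_lit 0) (p (nat_lit 0x89) (nat_lit 0) (p (nat_lit 0x41) (nat_lit 0) (p (nat_lit 0x10b0a09890a9a) (nat_lit 0) (p (nat_lit 0x8a8989088a1a) (nat_lit 0) (p (nat_lit 0x10a090888079a) (nat_lit 0) (p (nat_lit 0x89888807871a) (nat_lit 0) (p (nat_lit 0x8000080000000090787088a) (nat_lit 0) (p (nat_lit 0x8000080000000088706860a) (nat_lit 0) (p (nat_lit 0x10706860782) (nat_lit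 0) (p (nat_lit 0x8686058702) (nat_lit 0) (p (nat_lit 0x10605850482) (nat_lit 0) (p (nat_lit 0x8585048402) (nat_lit 0) (p (nat_lit 0x160004) (nat_lit 0) (p (nat_lit 0x60592) (nat_lit 0) (p (nat_lit 0x48512) (nat_lit 0) (p (nat_lit 0x50392) (nat_lit 0) (p (nat_lit 0x38312) (nat_lit 0) (p (nat_lit 0x40212) (nat_lit 0) (p (nat_lit 0x28192) (nat_lit 0) (p (nat_lit 0x30092) (nat_lit 0) (p (nat_lit 0x18012) (nat_lit 0) pn)))))))))))))))))))))))))) :=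
  Cl.node (nat_lit 0x20000c) (nat_lit 2) (by decide +kernel) (ClAll.succ (ClAll.succ ClAll.zero n48) s8)

def n79 : Cl (O (nat_lit 6)) (R (nat_lit 135377))
    (p (nat_lit 0xc9) (nat_lit 1) (p (nat_lit 0x81) (nat_lit 0) (p (nat_lit 0x101) (nat_lit 1) (p (nat_lit 0x119) (nat_lit 0) (p (nat_lit 0xd1) (nat_lit 0) (p (nat_lit 0x89) (nat_lit 0) (p (nat_lit 0x41) (nat_lit 0) (p (nat_lit 0x10b0a09890a9a) (nat_lit 0) (p (nat_lit 0x8a8989088a1a) (nat_lit 0) (p (nat_lit 0x10a090888079a) (nat_lit 0) (p (nat_lit 0x89888807871a) (nat_lit 0) (p (nat_lit 0x8000080000000090787088a) (nat_lit 0) (p (nat_lit 0x8000080000000088706860a) (nat_lit 0) (p (nat_lit 0x10706860782) (nat_lit 0) (p (nat_lit 0x8686058702) (nat_lit 0) (p (nat_lit 0x10605850482) (nat_lit 0) (p (nat_lit 0x8585048402) (nat_lit 0) (p (nat_lit 0x160004) (nat_lit 0) (p (nat_lit 0x60592) (nat_lit 0) (p (nat_lit 0x48512) (nat_lit 0) (p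 (nat_lit 0x50392) (nat_lit 0) (p (nat_lit 0x38312) (nat_lit 0) (p (nat_lit 0x40212) (nat_lit 0) (p (nat_lit 0x28192) (nat_lit 0) (p (nat_lit 0x30092) (nat_lit 0) (p (nat_lit 0x18012) (nat_lit 0) pn)))))))))))))))))))))))))) :=
  Cl.node (nat_lit 0x20000c) (nat_lit 2) (by decide +kernel) (ClAll.succ (ClAll.succ ClAll.zero n49) s16)

def n80 : Cl (O (nat_lit 6)) (R (nat_lit 135377))
    (p (nat_lit 0xc1) (nat_lit 0) (p (nat_lit 0x81) (nat_lit 1) (p (nat_lit 0x101) (nat_lit 1) (p (nat_lit 0x119) (nat_lit 0) (p (nat_lit 0xd1) (nat_lit 0) (p (nat_lit 0x89) (nat_lit 0) (p (nat_lit 0x41) (nat_lit 0) (p (nat_lit 0x10b0a09890a9a) (nat_lit 0) (p (nat_lit 0x8a8989088a1a) (nat_lit 0) (p (nat_lit 0x10a090888079a) (nat_lit 0) (p (nat_lit 0x89888807871a) (nat_lit 0) (p (nat_lit 0x8000080000000090787088a) (nat_lit 0) (p (nat_lit 0x8000080000000088706860a) (nat_lit 0) (p (nat_lit 0x10706860782) (nat_lit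 0) (p (nat_lit 0x8686058702) (nat_lit 0) (p (nat_lit 0x10605850482) (nat_lit 0) (p (nat_lit 0x8585048402) (nat_lit 0) (p (nat_lit 0x160004) (nat_lit 0) (p (nat_lit 0x60592) (nat_lit 0) (p (nat_lit 0x48512) (nat_lit 0) (p (nat_lit 0x50392) (nat_lit 0) (p (nat_lit 0x38312) (nat_lit 0) (p (nat_lit 0x40212) (nat_lit 0) (p (nat_lit 0x28192) (nat_lit 0) (p (nat_lit 0x30092) (nat_lit 0) (p (nat_lit 0x18012) (nat_lit 0) pn)))))))))))))))))))))))))) :=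
  Cl.node (nat_lit 0xc9) (nat_lit 2) (by decide +kernel) (ClAll.succ (ClAll.succ ClAll.zero n50) n51)

def n81 : Cl (O (nat_lit 6)) (R (nat_lit 135377))
    (p (nat_lit 0x109) (nat_lit 1) (p (nat_lit 0xc9) (nat_lit 1) (p (nat_lit 0xc1) (nat_lit 0) (p (nat_lit 0x119) (nat_lit 1) (p (nat_lit 0xd1) (nat_lit 0) (p (nat_lit 0x89) (nat_lit 0) (p (nat_lit 0x41) (nat_lit 0) (p (nat_lit 0x10b0a09890a9a) (nat_lit 0) (p (nat_lit 0x8a8989088a1a) (nat_lit 0) (p (nat_lit 0x10a090888079a) (nat_lit 0) (p (nat_lit 0x89888807871a) (nat_lit 0) (p (nat_lit 0x8000080000000090787088a) (nat_lit 0) (p (nat_lit 0x8000080000000088706860a) (nat_lit 0) (p (nat_lit 0x10706860782) (nat_lit 0) (p (nat_lit 0x8686058702) (nat_lit 0) (p (nat_lit 0x10605850482) (nat_lit 0) (p (nat_lit 0x8585048402) (nat_lit 0) (p (nat_lit 0x160004) (nat_lit 0) (p (nat_lit 0x60592) (nat_lit 0) (p (nat_lit 0x48512) (nat_lit 0) (p (nat_lit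 0x50392) (nat_lit 0) (p (nat_lit 0x38312) (nat_lit 0) (p (nat_lit 0x40212) (nat_lit 0) (p (nat_lit 0x28192) (nat_lit 0) (p (nat_lit 0x30092) (nat_lit 0) (p (nat_lit 0x18012) (nat_lit 0) pn)))))))))))))))))))))))))) :=
  Cl.node (nat_lit 0x20000c) (nat_lit 2) (by decide +kernel) (ClAll.succ (ClAll.succ ClAll.zero n52) s29)

def n82 : Cl (O (nat_lit 6)) (R (nat_lit 135377))
    (p (nat_lit 0x109) (nat_lit 1) (p (nat_lit 0x81) (nat_lit 0) (p (nat_lit 0xc1) (nat_lit 1) (p (nat_lit 0x119) (nat_lit 1) (p (nat_lit 0xd1) (nat_lit 0) (p (nat_lit 0x89) (nat_lit 0) (p (nat_lit 0x41) (nat_lit 0) (p (nat_lit 0x10b0a09890a9a) (nat_lit 0) (p (nat_lit 0x8a8989088a1a) (nat_lit 0) (p (nat_lit 0x10a090888079a) (nat_lit 0) (p (nat_lit 0x89888807871a) (nat_lit 0) (p (nat_lit 0x8000080000000090787088a) (nat_lit 0) (p (nat_lit 0x8000080000000088706860a) (nat_lit 0) (p (nat_lit 0x10706860782) (nat_lit 0)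 (p (nat_lit 0x8686058702) (nat_lit 0) (p (nat_lit 0x10605850482) (nat_lit 0) (p (nat_lit 0x8585048402) (nat_lit 0) (p (nat_lit 0x160004) (nat_lit 0) (p (nat_lit 0x60592) (nat_lit 0) (p (nat_lit 0x48512) (nat_lit 0) (p (nat_lit 0x50392) (nat_lit 0) (p (nat_lit 0x38312) (nat_lit 0) (p (nat_lit 0x40212) (nat_lit 0) (p (nat_lit 0x28192) (nat_lit 0) (p (nat_lit 0x30092) (nat_lit 0) (p (nat_lit 0x18012) (nat_lit 0) pn)))))))))))))))))))))))))) :=
  Cl.node (nat_lit 0x20000c) (nat_lit 2) (by decide +kernel) (ClAll.succ (ClAll.succ ClAll.zero s31) s32)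

def n83 : Cl (O (nat_lit 6)) (R (nat_lit 135377))
    (p (nat_lit 0x101) (nat_lit 0) (p (nat_lit 0x81) (nat_lit 1) (p (nat_lit 0xc1) (nat_lit 1) (p (nat_lit 0x119) (nat_lit 1) (p (nat_lit 0xd1) (nat_lit 0) (p (nat_lit 0x89) (nat_lit 0) (p (nat_lit 0x41) (nat_lit 0) (p (nat_lit 0x10b0a09890a9a) (nat_lit 0) (p (nat_lit 0x8a8989088a1a) (nat_lit 0) (p (nat_lit 0x10a090888079a) (nat_lit 0) (p (nat_lit 0x89888807871a) (nat_lit 0) (p (nat_lit 0x8000080000000090787088a) (nat_lit 0) (p (nat_lit 0x8000080000000088706860a) (nat_lit 0) (p (nat_lit 0x10706860782) (nat_lit 0) (p (nat_lit 0x8686058702) (nat_lit 0) (p (nat_lit 0x10605850482) (nat_lit 0) (p (nat_lit 0x8585048402) (nat_lit 0) (p (nat_lit 0x160004) (nat_lit 0) (p (nat_lit 0x60592) (nat_lit 0) (p (nat_lit 0x48512) (nat_lit 0) (p (nat_lit 0x50392) (nat_lit 0) (p (nat_lit 0x38312) (nat_lit 0) (p (nat_lit 0x40212) (nat_lit 0) (p (nat_lit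 0x28192) (nat_lit 0) (p (nat_lit 0x30092) (nat_lit 0) (p (nat_lit 0x18012) (nat_lit 0) pn)))))))))))))))))))))))))) :=
  Cl.node (nat_lit 0x109) (nat_lit 2) (by decide +kernel) (ClAll.succ (ClAll.succ ClAll.zero n53) n54)

def n84 : Cl (O (nat_lit 6)) (R (nat_lit 135377))
    (p (nat_lit 0x101) (nat_lit 1) (p (nat_lit 0x81) (nat_lit 1) (p (nat_lit 0xc1) (nat_lit 1) (p (nat_lit 0x119) (nat_lit 1) (p (nat_lit 0xd1) (nat_lit 0) (p (nat_lit 0x89) (nat_lit 0) (p (nat_lit 0x41) (nat_lit 0) (p (nat_lit 0x10b0a09890a9a) (nat_lit 0) (p (nat_lit 0x8a8989088a1a) (nat_lit 0) (p (nat_lit 0x10a090888079a) (nat_lit 0) (p (nat_lit 0x89888807871a) (nat_lit 0) (p (nat_lit 0x8000080000000090787088a) (nat_lit 0) (p (nat_lit 0x8000080000000088706860a) (nat_lit 0) (p (nat_lit 0x10706860782) (nat_lit 0) (p (nat_lit 0x8686058702) (nat_lit 0) (p (nat_lit 0x10605850482) (nat_lit 0) (p (nat_lit 0x8585048402)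 (nat_lit 0) (p (nat_lit 0x160004) (nat_lit 0) (p (nat_lit 0x60592) (nat_lit 0) (p (nat_lit 0x48512) (nat_lit 0) (p (nat_lit 0x50392) (nat_lit 0) (p (nat_lit 0x38312) (nat_lit 0) (p (nat_lit 0x40212) (nat_lit 0) (p (nat_lit 0x28192) (nat_lit 0) (p (nat_lit 0x30092) (nat_lit 0) (p (nat_lit 0x18012) (nat_lit 0) pn)))))))))))))))))))))))))) :=
  Cl.node (nat_lit 0x20000c) (nat_lit 2) (by decide +kernel) (ClAll.succ (ClAll.succ ClAll.zero n55) s43)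

def n85 : Cl (O (nat_lit 6)) (R (nat_lit 135377))
    (p (nat_lit 0x20000c) (nat_lit 0) (p (nat_lit 0x81) (nat_lit 0) (p (nat_lit 0x101) (nat_lit 1) (p (nat_lit 0x111) (nat_lit 0) (p (nat_lit 0xd1) (nat_lit 1) (p (nat_lit 0x89) (nat_lit 0) (p (nat_lit 0x41) (nat_lit 0) (p (nat_lit 0x10b0a09890a9a) (nat_lit 0) (p (nat_lit 0x8a8989088a1a) (nat_lit 0) (p (nat_lit 0x10a090888079a) (nat_lit 0) (p (nat_lit 0x89888807871a) (nat_lit 0) (p (nat_lit 0x8000080000000090787088a) (nat_lit 0) (p (nat_lit 0x8000080000000088706860a) (nat_lit 0) (p (nat_lit 0x10706860782) (nat_lit 0) (p (nat_lit 0x8686058702) (nat_lit 0) (p (nat_lit 0x10605850482) (nat_lit 0) (p (nat_lit 0x8585048402) (nat_lit 0) (p (nat_lit 0x160004) (nat_lit 0) (p (nat_lit 0x60592) (nat_lit 0) (p (nat_lit 0x48512) (nat_lit 0) (p (nat_lit 0x50392) (nat_lit 0) (p (nat_lit 0x38312) (nat_lit 0) (p (nat_lit 0x40212) (nat_lit 0) (p (nat_lit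 0x28192) (nat_lit 0) (p (nat_lit 0x30092) (nat_lit 0) (p (nat_lit 0x18012) (nat_lit 0) pn)))))))))))))))))))))))))) :=
  Cl.node (nat_lit 0x200014) (nat_lit 2) (by decide +kernel) (ClAll.succ (ClAll.succ ClAll.zero n56) s49)

def n86 : Cl (O (nat_lit 6)) (R (nat_lit 135377))
    (p (nat_lit 0xc1) (nat_lit 0) (p (nat_lit 0x81) (nat_lit 1) (p (nat_lit 0x101) (nat_lit 1) (p (nat_lit 0x111) (nat_lit 0) (p (nat_lit 0xd1) (nat_lit 1) (p (nat_lit 0x89) (nat_lit 0) (p (nat_lit 0x41) (nat_lit 0) (p (nat_lit 0x10b0a09890a9a) (nat_lit 0) (p (nat_lit 0x8a8989088a1a) (nat_lit 0) (p (nat_lit 0x10a090888079a) (nat_lit 0) (p (nat_lit 0x89888807871a) (nat_lit 0) (p (nat_lit 0x8000080000000090787088a) (nat_lit 0) (p (nat_lit 0x8000080000000088706860a) (nat_lit 0) (p (nat_lit 0x10706860782) (nat_lit 0) (p (nat_lit 0x8686058702) (nat_lit 0) (p (nat_lit 0x10605850482) (nat_lit 0) (p (nat_lit 0x8585048402)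 (nat_lit 0) (p (nat_lit 0x160004) (nat_lit 0) (p (nat_lit 0x60592) (nat_lit 0) (p (nat_lit 0x48512) (nat_lit 0) (p (nat_lit 0x50392) (nat_lit 0) (p (nat_lit 0x38312) (nat_lit 0) (p (nat_lit 0x40212) (nat_lit 0) (p (nat_lit 0x28192) (nat_lit 0) (p (nat_lit 0x30092) (nat_lit 0) (p (nat_lit 0x18012) (nat_lit 0) pn)))))))))))))))))))))))))) :=
  Cl.node (nat_lit 0x20000c) (nat_lit 2) (by decide +kernel) (ClAll.succ (ClAll.succ ClAll.zero n57) s54)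

def n87 : Cl (O (nat_lit 6)) (R (nat_lit 135377))
    (p (nat_lit 0x101) (nat_lit 0) (p (nat_lit 0xc1) (nat_lit 1) (p (nat_lit 0x81) (nat_lit 1) (p (nat_lit 0x111) (nat_lit 1) (p (nat_lit 0xd1) (nat_lit 1) (p (nat_lit 0x89) (nat_lit 0) (p (nat_lit 0x41) (nat_lit 0) (p (nat_lit 0x10b0a09890a9a) (nat_lit 0) (p (nat_lit 0x8a8989088a1a) (nat_lit 0) (p (nat_lit 0x10a090888079a) (nat_lit 0) (p (nat_lit 0x89888807871a) (nat_lit 0) (p (nat_lit 0x8000080000000090787088a) (nat_lit 0) (p (nat_lit 0x8000080000000088706860a) (nat_lit 0) (p (nat_lit 0x10706860782) (nat_lit 0) (p (nat_lit 0x8686058702) (nat_lit 0) (p (nat_lit 0x10605850482) (nat_lit 0) (p (nat_lit 0x8585048402) (nat_lit 0) (p (nat_lit 0x160004) (nat_lit 0) (p (nat_lit 0x60592) (nat_lit 0) (p (nat_lit 0x48512) (nat_lit 0) (p (nat_lit 0x50392) (nat_lit 0) (p (nat_lit 0x38312) (nat_lit 0) (p (nat_lit 0x40212) (nat_lit 0) (p (nat_lit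 0x28192) (nat_lit 0) (p (nat_lit 0x30092) (nat_lit 0) (p (nat_lit 0x18012) (nat_lit 0) pn)))))))))))))))))))))))))) :=
  Cl.node (nat_lit 0x20000c) (nat_lit 2) (by decide +kernel) (ClAll.succ (ClAll.succ ClAll.zero s58) s59)

def n88 : Cl (O (nat_lit 6)) (R (nat_lit 135377))
    (p (nat_lit 0xd1) (nat_lit 0) (p (nat_lit 0x109) (nat_lit 1) (p (nat_lit 0x101) (nat_lit 0) (p (nat_lit 0x119) (nat_lit 0) (p (nat_lit 0xc9) (nat_lit 0) (p (nat_lit 0x89) (nat_lit 1) (p (nat_lit 0x41) (nat_lit 0) (p (nat_lit 0x10b0a09890a9a) (nat_lit 0) (p (nat_lit 0x8a8989088a1a) (nat_lit 0) (p (nat_lit 0x10a090888079a) (nat_lit 0) (p (nat_lit 0x89888807871a) (nat_lit 0) (p (nat_lit 0x8000080000000090787088a) (nat_lit 0) (p (nat_lit 0x8000080000000088706860a) (nat_lit 0) (p (nat_lit 0x10706860782) (nat_lit 0) (p (nat_lit 0x8686058702) (nat_lit 0) (p (nat_lit 0x10605850482) (nat_lit 0) (p (nat_lit 0x8585048402)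 (nat_lit 0) (p (nat_lit 0x160004) (nat_lit 0) (p (nat_lit 0x60592) (nat_lit 0) (p (nat_lit 0x48512) (nat_lit 0) (p (nat_lit 0x50392) (nat_lit 0) (p (nat_lit 0x38312) (nat_lit 0) (p (nat_lit 0x40212) (nat_lit 0) (p (nat_lit 0x28192) (nat_lit 0) (p (nat_lit 0x30092) (nat_lit 0) (p (nat_lit 0x18012) (nat_lit 0) pn)))))))))))))))))))))))))) :=
  Cl.node (nat_lit 0x20000c) (nat_lit 2) (by decide +kernel) (ClAll.succ (ClAll.succ ClAll.zero n58) s64)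

def n89 : Cl (O (nat_lit 6)) (R (nat_lit 135377))
    (p (nat_lit 0xd1) (nat_lit 1) (p (nat_lit 0x109) (nat_lit 1) (p (nat_lit 0x101) (nat_lit 0) (p (nat_lit 0x119) (nat_lit 0) (p (nat_lit 0xc9) (nat_lit 0) (p (nat_lit 0x89) (nat_lit 1) (p (nat_lit 0x41) (nat_lit 0) (p (nat_lit 0x10b0a09890a9a) (nat_lit 0) (p (nat_lit 0x8a8989088a1a) (nat_lit 0) (p (nat_lit 0x10a090888079a) (nat_lit 0) (p (nat_lit 0x89888807871a) (nat_lit 0) (p (nat_lit 0x8000080000000090787088a) (nat_lit 0) (p (nat_lit 0x8000080000000088706860a) (nat_lit 0) (p (nat_lit 0x10706860782) (nat_lit 0) (p (nat_lit 0x8686058702) (nat_lit 0) (p (nat_lit 0x10605850482) (nat_lit 0) (p (nat_lit 0x8585048402) (nat_lit 0) (p (nat_lit 0x160004) (nat_lit 0) (p (nat_lit 0x60592) (nat_lit 0) (p (nat_lit 0x48512) (nat_lit 0) (p (nat_lit 0x50392) (nat_lit 0) (p (nat_lit 0x38312) (nat_lit 0) (p (nat_lit 0x40212) (nat_lit 0) (p (nat_lit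 0x28192) (nat_lit 0) (p (nat_lit 0x30092) (nat_lit 0) (p (nat_lit 0x18012) (nat_lit 0) pn)))))))))))))))))))))))))) :=
  Cl.node (nat_lit 0x20000c) (nat_lit 2) (by decide +kernel) (ClAll.succ (ClAll.succ ClAll.zero n59) s67)

def n90 : Cl (O (nat_lit 6)) (R (nat_lit 135377))
    (p (nat_lit 0xd1) (nat_lit 0) (p (nat_lit 0xc1) (nat_lit 0) (p (nat_lit 0x101) (nat_lit 1) (p (nat_lit 0x119) (nat_lit 0) (p (nat_lit 0xc9) (nat_lit 0) (p (nat_lit 0x89) (nat_lit 1) (p (nat_lit 0x41) (nat_lit 0) (p (nat_lit 0x10b0a09890a9a) (nat_lit 0) (p (nat_lit 0x8a8989088a1a) (nat_lit 0) (p (nat_lit 0x10a090888079a) (nat_lit 0) (p (nat_lit 0x89888807871a) (nat_lit 0) (p (nat_lit 0x8000080000000090787088a) (nat_lit 0) (p (nat_lit 0x8000080000000088706860a) (nat_lit 0) (p (nat_lit 0x10706860782) (nat_lit 0) (p (nat_lit 0x8686058702) (nat_lit 0) (p (nat_lit 0x10605850482) (nat_lit 0) (p (nat_lit 0x8585048402)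 (nat_lit 0) (p (nat_lit 0x160004) (nat_lit 0) (p (nat_lit 0x60592) (nat_lit 0) (p (nat_lit 0x48512) (nat_lit 0) (p (nat_lit 0x50392) (nat_lit 0) (p (nat_lit 0x38312) (nat_lit 0) (p (nat_lit 0x40212) (nat_lit 0) (p (nat_lit 0x28192) (nat_lit 0) (p (nat_lit 0x30092) (nat_lit 0) (p (nat_lit 0x18012) (nat_lit 0) pn)))))))))))))))))))))))))) :=
  Cl.node (nat_lit 0x20000c) (nat_lit 2) (by decide +kernel) (ClAll.succ (ClAll.succ ClAll.zero n60) s71)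

def n91 : Cl (O (nat_lit 6)) (R (nat_lit 135377))
    (p (nat_lit 0x111) (nat_lit 1) (p (nat_lit 0xd1) (nat_lit 1) (p (nat_lit 0xc1) (nat_lit 0) (p (nat_lit 0x119) (nat_lit 1) (p (nat_lit 0xc9) (nat_lit 0) (p (nat_lit 0x89) (nat_lit 1) (p (nat_lit 0x41) (nat_lit 0) (p (nat_lit 0x10b0a09890a9a) (nat_lit 0) (p (nat_lit 0x8a8989088a1a) (nat_lit 0) (p (nat_lit 0x10a090888079a) (nat_lit 0) (p (nat_lit 0x89888807871a) (nat_lit 0) (p (nat_lit 0x8000080000000090787088a) (nat_lit 0) (p (nat_lit 0x8000080000000088706860a) (nat_lit 0) (p (nat_lit 0x10706860782) (nat_lit 0) (p (nat_lit 0x8686058702) (nat_lit 0) (p (nat_lit 0x10605850482) (nat_lit 0) (p (nat_lit 0x8585048402) (nat_lit 0) (p (nat_lit 0x160004) (nat_lit 0) (p (nat_lit 0x60592) (nat_lit 0) (p (nat_lit 0x48512) (nat_lit 0) (p (nat_lit 0x50392) (nat_lit 0) (p (nat_lit 0x38312) (nat_lit 0) (p (nat_lit 0x40212) (nat_lit 0) (p (nat_lit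 0x28192) (nat_lit 0) (p (nat_lit 0x30092) (nat_lit 0) (p (nat_lit 0x18012) (nat_lit 0) pn)))))))))))))))))))))))))) :=
  Cl.node (nat_lit 0x20000c) (nat_lit 2) (by decide +kernel) (ClAll.succ (ClAll.succ ClAll.zero s76) s77)

def n92 : Cl (O (nat_lit 6)) (R (nat_lit 135377))
    (p (nat_lit 0x111) (nat_lit 0) (p (nat_lit 0x101) (nat_lit 0) (p (nat_lit 0xc1) (nat_lit 1) (p (nat_lit 0x119) (nat_lit 1) (p (nat_lit 0xc9) (nat_lit 0) (p (nat_lit 0x89) (nat_lit 1) (p (nat_lit 0x41) (nat_lit 0) (p (nat_lit 0x10b0a09890a9a) (nat_lit 0) (p (nat_lit 0x8a8989088a1a) (nat_lit 0) (p (nat_lit 0x10a090888079a) (nat_lit 0) (p (nat_lit 0x89888807871a) (nat_lit 0) (p (nat_lit 0x8000080000000090787088a) (nat_lit 0) (p (nat_lit 0x8000080000000088706860a) (nat_lit 0) (p (nat_lit 0x10706860782) (nat_lit 0) (p (nat_lit 0x8686058702) (nat_lit 0) (p (nat_lit 0x10605850482) (nat_lit 0) (p (nat_lit 0x8585048402)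 (nat_lit 0) (p (nat_lit 0x160004) (nat_lit 0) (p (nat_lit 0x60592) (nat_lit 0) (p (nat_lit 0x48512) (nat_lit 0) (p (nat_lit 0x50392) (nat_lit 0) (p (nat_lit 0x38312) (nat_lit 0) (p (nat_lit 0x40212) (nat_lit 0) (p (nat_lit 0x28192) (nat_lit 0) (p (nat_lit 0x30092) (nat_lit 0) (p (nat_lit 0x18012) (nat_lit 0) pn)))))))))))))))))))))))))) :=
  Cl.node (nat_lit 0x20000c) (nat_lit 2) (by decide +kernel) (ClAll.succ (ClAll.succ ClAll.zero n61) s80)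

def n93 : Cl (O (nat_lit 6)) (R (nat_lit 135377))
    (p (nat_lit 0x111) (nat_lit 1) (p (nat_lit 0x101) (nat_lit 0) (p (nat_lit 0xc1) (nat_lit 1) (p (nat_lit 0x119) (nat_lit 1) (p (nat_lit 0xc9) (nat_lit 0) (p (nat_lit 0x89) (nat_lit 1) (p (nat_lit 0x41) (nat_lit 0) (p (nat_lit 0x10b0a09890a9a) (nat_lit 0) (p (nat_lit 0x8a8989088a1a) (nat_lit 0) (p (nat_lit 0x10a090888079a) (nat_lit 0) (p (nat_lit 0x89888807871a) (nat_lit 0) (p (nat_lit 0x8000080000000090787088a) (nat_lit 0) (p (nat_lit 0x8000080000000088706860a) (nat_lit 0) (p (nat_lit 0x10706860782) (nat_lit 0) (p (nat_lit 0x8686058702) (nat_lit 0) (p (nat_lit 0x10605850482) (nat_lit 0) (p (nat_lit 0x8585048402) (nat_lit 0) (p (nat_lit 0x160004) (nat_lit 0) (p (nat_lit 0x60592) (nat_lit 0) (p (nat_lit 0x48512) (nat_lit 0) (p (nat_lit 0x50392) (nat_lit 0) (p (nat_lit 0x38312) (nat_lit 0) (p (nat_lit 0x40212) (nat_lit 0) (p (nat_lit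 0x28192) (nat_lit 0) (p (nat_lit 0x30092) (nat_lit 0) (p (nat_lit 0x18012) (nat_lit 0) pn)))))))))))))))))))))))))) :=
  Cl.node (nat_lit 0x20000c) (nat_lit 2) (by decide +kernel) (ClAll.succ (ClAll.succ ClAll.zero s81) s82)

def n94 : Cl (O (nat_lit 6)) (R (nat_lit 135377))
    (p (nat_lit 0x89) (nat_lit 0) (p (nat_lit 0x109) (nat_lit 1) (p (nat_lit 0x101) (nat_lit 0) (p (nat_lit 0x119) (nat_lit 0) (p (nat_lit 0xd1) (nat_lit 0) (p (nat_lit 0x81) (nat_lit 0) (p (nat_lit 0x41) (nat_lit 1) (p (nat_lit 0x10b0a09890a9a) (nat_lit 0) (p (nat_lit 0x8a8989088a1a) (nat_lit 0) (p (nat_lit 0x10a090888079a) (nat_lit 0) (p (nat_lit 0x89888807871a) (nat_lit 0) (p (nat_lit 0x8000080000000090787088a) (nat_lit 0) (p (nat_lit 0x8000080000000088706860a) (nat_lit 0) (p (nat_lit 0x10706860782) (nat_lit 0) (p (nat_lit 0x8686058702) (nat_lit 0) (p (nat_lit 0x10605850482) (nat_lit 0) (p (nat_lit 0x8585048402)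 (nat_lit 0) (p (nat_lit 0x160004) (nat_lit 0) (p (nat_lit 0x60592) (nat_lit 0) (p (nat_lit 0x48512) (nat_lit 0) (p (nat_lit 0x50392) (nat_lit 0) (p (nat_lit 0x38312) (nat_lit 0) (p (nat_lit 0x40212) (nat_lit 0) (p (nat_lit 0x28192) (nat_lit 0) (p (nat_lit 0x30092) (nat_lit 0) (p (nat_lit 0x18012) (nat_lit 0) pn)))))))))))))))))))))))))) :=
  Cl.node (nat_lit 0x20000c) (nat_lit 2) (by decide +kernel) (ClAll.succ (ClAll.succ ClAll.zero n62) s89)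

def n95 : Cl (O (nat_lit 6)) (R (nat_lit 135377))
    (p (nat_lit 0x89) (nat_lit 1) (p (nat_lit 0x109) (nat_lit 1) (p (nat_lit 0x101) (nat_lit 0) (p (nat_lit 0x119) (nat_lit 0) (p (nat_lit 0xd1) (nat_lit 0) (p (nat_lit 0x81) (nat_lit 0) (p (nat_lit 0x41) (nat_lit 1) (p (nat_lit 0x10b0a09890a9a) (nat_lit 0) (p (nat_lit 0x8a8989088a1a) (nat_lit 0) (p (nat_lit 0x10a090888079a) (nat_lit 0) (p (nat_lit 0x89888807871a) (nat_lit 0) (p (nat_lit 0x8000080000000090787088a) (nat_lit 0) (p (nat_lit 0x8000080000000088706860a) (nat_lit 0) (p (nat_lit 0x10706860782) (nat_lit 0) (p (nat_lit 0x8686058702) (nat_lit 0) (p (nat_lit 0x10605850482) (nat_lit 0) (p (nat_lit 0x8585048402) (nat_lit 0) (p (nat_lit 0x160004) (nat_lit 0) (p (nat_lit 0x60592) (nat_lit 0) (p (nat_lit 0x48512) (nat_lit 0) (p (nat_lit 0x50392) (nat_lit 0) (p (nat_lit 0x38312) (nat_lit 0) (p (nat_lit 0x40212) (nat_lit 0) (p (nat_lit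 0x28192) (nat_lit 0) (p (nat_lit 0x30092) (nat_lit 0) (p (nat_lit 0x18012) (nat_lit 0) pn)))))))))))))))))))))))))) :=
  Cl.node (nat_lit 0xc9) (nat_lit 2) (by decide +kernel) (ClAll.succ (ClAll.succ ClAll.zero n63) s92)

def n96 : Cl (O (nat_lit 6)) (R (nat_lit 135377))
    (p (nat_lit 0x89) (nat_lit 0) (p (nat_lit 0xc1) (nat_lit 0) (p (nat_lit 0x101) (nat_lit 1) (p (nat_lit 0x119) (nat_lit 0) (p (nat_lit 0xd1) (nat_lit 0) (p (nat_lit 0x81) (nat_lit 0) (p (nat_lit 0x41) (nat_lit 1) (p (nat_lit 0x10b0a09890a9a) (nat_lit 0) (p (nat_lit 0x8a8989088a1a) (nat_lit 0) (p (nat_lit 0x10a090888079a) (nat_lit 0) (p (nat_lit 0x89888807871a) (nat_lit 0) (p (nat_lit 0x8000080000000090787088a) (nat_lit 0) (p (nat_lit 0x8000080000000088706860a) (nat_lit 0) (p (nat_lit 0x10706860782) (nat_lit 0) (p (nat_lit 0x8686058702) (nat_lit 0) (p (nat_lit 0x10605850482) (nat_lit 0) (p (nat_lit 0x8585048402)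 (nat_lit 0) (p (nat_lit 0x160004) (nat_lit 0) (p (nat_lit 0x60592) (nat_lit 0) (p (nat_lit 0x48512) (nat_lit 0) (p (nat_lit 0x50392) (nat_lit 0) (p (nat_lit 0x38312) (nat_lit 0) (p (nat_lit 0x40212) (nat_lit 0) (p (nat_lit 0x28192) (nat_lit 0) (p (nat_lit 0x30092) (nat_lit 0) (p (nat_lit 0x18012) (nat_lit 0) pn)))))))))))))))))))))))))) :=
  Cl.node (nat_lit 0x20000c) (nat_lit 2) (by decide +kernel) (ClAll.succ (ClAll.succ ClAll.zero s93) s94)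

def n97 : Cl (O (nat_lit 6)) (R (nat_lit 135377))
    (p (nat_lit 0x89) (nat_lit 1) (p (nat_lit 0xc1) (nat_lit 0) (p (nat_lit 0x101) (nat_lit 1) (p (nat_lit 0x119) (nat_lit 0) (p (nat_lit 0xd1) (nat_lit 0) (p (nat_lit 0x81) (nat_lit 0) (p (nat_lit 0x41) (nat_lit 1) (p (nat_lit 0x10b0a09890a9a) (nat_lit 0) (p (nat_lit 0x8a8989088a1a) (nat_lit 0) (p (nat_lit 0x10a090888079a) (nat_lit 0) (p (nat_lit 0x89888807871a) (nat_lit 0) (p (nat_lit 0x8000080000000090787088a) (nat_lit 0) (p (nat_lit 0x8000080000000088706860a) (nat_lit 0) (p (nat_lit 0x10706860782) (nat_lit 0) (p (nat_lit 0x8686058702) (nat_lit 0) (p (nat_lit 0x10605850482) (nat_lit 0) (p (nat_lit 0x8585048402) (nat_lit 0) (p (nat_lit 0x160004) (nat_lit 0) (p (nat_lit 0x60592) (nat_lit 0) (p (nat_lit 0x48512) (nat_lit 0) (p (nat_lit 0x50392) (nat_lit 0) (p (nat_lit 0x38312) (nat_lit 0) (p (nat_lit 0x40212) (nat_lit 0) (p (nat_lit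 0x28192) (nat_lit 0) (p (nat_lit 0x30092) (nat_lit 0) (p (nat_lit 0x18012) (nat_lit 0) pn)))))))))))))))))))))))))) :=
  Cl.node (nat_lit 0xc9) (nat_lit 2) (by decide +kernel) (ClAll.succ (ClAll.succ ClAll.zero n64) n65)

def n98 : Cl (O (nat_lit 6)) (R (nat_lit 135377))
    (p (nat_lit 0x89) (nat_lit 1) (p (nat_lit 0xc1) (nat_lit 1) (p (nat_lit 0x101) (nat_lit 1) (p (nat_lit 0x119) (nat_lit 0) (p (nat_lit 0xd1) (nat_lit 0) (p (nat_lit 0x81) (nat_lit 0) (p (nat_lit 0x41) (nat_lit 1) (p (nat_lit 0x10b0a09890a9a) (nat_lit 0) (p (nat_lit 0x8a8989088a1a) (nat_lit 0) (p (nat_lit 0x10a090888079a) (nat_lit 0) (p (nat_lit 0x89888807871a) (nat_lit 0) (p (nat_lit 0x8000080000000090787088a) (nat_lit 0) (p (nat_lit 0x8000080000000088706860a) (nat_lit 0) (p (nat_lit 0x10706860782) (nat_lit 0) (p (nat_lit 0x8686058702) (nat_lit 0) (p (nat_lit 0x10605850482) (nat_lit 0) (p (nat_lit 0x8585048402)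 (nat_lit 0) (p (nat_lit 0x160004) (nat_lit 0) (p (nat_lit 0x60592) (nat_lit 0) (p (nat_lit 0x48512) (nat_lit 0) (p (nat_lit 0x50392) (nat_lit 0) (p (nat_lit 0x38312) (nat_lit 0) (p (nat_lit 0x40212) (nat_lit 0) (p (nat_lit 0x28192) (nat_lit 0) (p (nat_lit 0x30092) (nat_lit 0) (p (nat_lit 0x18012) (nat_lit 0) pn)))))))))))))))))))))))))) :=
  Cl.node (nat_lit 0x20000c) (nat_lit 2) (by decide +kernel) (ClAll.succ (ClAll.succ ClAll.zero n66) s107)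

def n99 : Cl (O (nat_lit 6)) (R (nat_lit 135377))
    (p (nat_lit 0x89) (nat_lit 1) (p (nat_lit 0xc9) (nat_lit 1) (p (nat_lit 0xc1) (nat_lit 0) (p (nat_lit 0x119) (nat_lit 1) (p (nat_lit 0xd1) (nat_lit 0) (p (nat_lit 0x81) (nat_lit 0) (p (nat_lit 0x41) (nat_lit 1) (p (nat_lit 0x10b0a09890a9a) (nat_lit 0) (p (nat_lit 0x8a8989088a1a) (nat_lit 0) (p (nat_lit 0x10a090888079a) (nat_lit 0) (p (nat_lit 0x89888807871a) (nat_lit 0) (p (nat_lit 0x8000080000000090787088a) (nat_lit 0) (p (nat_lit 0x8000080000000088706860a) (nat_lit 0) (p (nat_lit 0x10706860782) (nat_lit 0) (p (nat_lit 0x8686058702) (nat_lit 0) (p (nat_lit 0x10605850482) (nat_lit 0) (p (nat_lit 0x8585048402) (nat_lit 0) (p (nat_lit 0x160004) (nat_lit 0) (p (nat_lit 0x60592) (nat_lit 0) (p (nat_lit 0x48512) (nat_lit 0) (p (nat_lit 0x50392) (nat_lit 0) (p (nat_lit 0x38312) (nat_lit 0) (p (nat_lit 0x40212) (nat_lit 0) (p (nat_lit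 0x28192) (nat_lit 0) (p (nat_lit 0x30092) (nat_lit 0) (p (nat_lit 0x18012) (nat_lit 0) pn)))))))))))))))))))))))))) :=
  Cl.node (nat_lit 0x109) (nat_lit 2) (by decide +kernel) (ClAll.succ (ClAll.succ ClAll.zero n67) n68)

def n100 : Cl (O (nat_lit 6)) (R (nat_lit 135377))
    (p (nat_lit 0x89) (nat_lit 1) (p (nat_lit 0x101) (nat_lit 0) (p (nat_lit 0xc1) (nat_lit 1) (p (nat_lit 0x119) (nat_lit 1) (p (nat_lit 0xd1) (nat_lit 0) (p (nat_lit 0x81) (nat_lit 0) (p (nat_lit 0x41) (nat_lit 1) (p (nat_lit 0x10b0a09890a9a) (nat_lit 0) (p (nat_lit 0x8a8989088a1a) (nat_lit 0) (p (nat_lit 0x10a090888079a) (nat_lit 0) (p (nat_lit 0x89888807871a) (nat_lit 0) (p (nat_lit 0x8000080000000090787088a) (nat_lit 0) (p (nat_lit 0x8000080000000088706860a) (nat_lit 0) (p (nat_lit 0x10706860782) (nat_lit 0) (p (nat_lit 0x8686058702) (nat_lit 0) (p (nat_lit 0x10605850482) (nat_lit 0) (p (nat_lit 0x8585048402)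 (nat_lit 0) (p (nat_lit 0x160004) (nat_lit 0) (p (nat_lit 0x60592) (nat_lit 0) (p (nat_lit 0x48512) (nat_lit 0) (p (nat_lit 0x50392) (nat_lit 0) (p (nat_lit 0x38312) (nat_lit 0) (p (nat_lit 0x40212) (nat_lit 0) (p (nat_lit 0x28192) (nat_lit 0) (p (nat_lit 0x30092) (nat_lit 0) (p (nat_lit 0x18012) (nat_lit 0) pn)))))))))))))))))))))))))) :=
  Cl.node (nat_lit 0x109) (nat_lit 2) (by decide +kernel) (ClAll.succ (ClAll.succ ClAll.zero n69) n70)

def n101 : Cl (O (nat_lit 6)) (R (nat_lit 135377))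
    (p (nat_lit 0x89) (nat_lit 0) (p (nat_lit 0x101) (nat_lit 1) (p (nat_lit 0xc1) (nat_lit 1) (p (nat_lit 0x119) (nat_lit 1) (p (nat_lit 0xd1) (nat_lit 0) (p (nat_lit 0x81) (nat_lit 0) (p (nat_lit 0x41) (nat_lit 1) (p (nat_lit 0x10b0a09890a9a) (nat_lit 0) (p (nat_lit 0x8a8989088a1a) (nat_lit 0) (p (nat_lit 0x10a090888079a) (nat_lit 0) (p (nat_lit 0x89888807871a) (nat_lit 0) (p (nat_lit 0x8000080000000090787088a) (nat_lit 0) (p (nat_lit 0x8000080000000088706860a) (nat_lit 0) (p (nat_lit 0x10706860782) (nat_lit 0) (p (nat_lit 0x8686058702) (nat_lit 0) (p (nat_lit 0x10605850482) (nat_lit 0) (p (nat_lit 0x8585048402) (nat_lit 0) (p (nat_lit 0x160004) (nat_lit 0) (p (nat_lit 0x60592) (nat_lit 0) (p (nat_lit 0x48512) (nat_lit 0) (p (nat_lit 0x50392) (nat_lit 0) (p (nat_lit 0x38312) (nat_lit 0) (p (nat_lit 0x40212) (nat_lit 0) (p (nat_lit 0x28192) (nat_lit 0) (p (nat_lit 0x30092) (nat_lit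 0) (p (nat_lit 0x18012) (nat_lit 0) pn)))))))))))))))))))))))))) :=
  Cl.node (nat_lit 0x20000c) (nat_lit 2) (by decide +kernel) (ClAll.succ (ClAll.succ ClAll.zero s122) s123)

def n102 : Cl (O (nat_lit 6)) (R (nat_lit 135377))
    (p (nat_lit 0x89) (nat_lit 1) (p (nat_lit 0x101) (nat_lit 1) (p (nat_lit 0xc1) (nat_lit 1) (p (nat_lit 0x119) (nat_lit 1) (p (nat_lit 0xd1) (nat_lit 0) (p (nat_lit 0x81) (nat_lit 0) (p (nat_lit 0x41) (nat_lit 1) (p (nat_lit 0x10b0a09890a9a) (nat_lit 0) (p (nat_lit 0x8a8989088a1a) (nat_lit 0) (p (nat_lit 0x10a090888079a) (nat_lit 0) (p (nat_lit 0x89888807871a) (nat_lit 0) (p (nat_lit 0x8000080000000090787088a) (nat_lit 0) (p (nat_lit 0x8000080000000088706860a) (nat_lit 0) (p (nat_lit 0x10706860782) (nat_lit 0) (p (nat_lit 0x8686058702) (nat_lit 0) (p (nat_lit 0x10605850482) (nat_lit 0) (p (nat_lit 0x8585048402) (nat_lit 0) (p (nat_lit 0x160004) (nat_lit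 0) (p (nat_lit 0x60592) (nat_lit 0) (p (nat_lit 0x48512) (nat_lit 0) (p (nat_lit 0x50392) (nat_lit 0) (p (nat_lit 0x38312) (nat_lit 0) (p (nat_lit 0x40212) (nat_lit 0) (p (nat_lit 0x28192) (nat_lit 0) (p (nat_lit 0x30092) (nat_lit 0) (p (nat_lit 0x18012) (nat_lit 0) pn)))))))))))))))))))))))))) :=
  Cl.node (nat_lit 0x20000c) (nat_lit 2) (by decide +kernel) (ClAll.succ (ClAll.succ ClAll.zero n71) s129)

def n103 : Cl (O (nat_lit 6)) (R (nat_lit 135377))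
    (p (nat_lit 0x89) (nat_lit 1) (p (nat_lit 0x109) (nat_lit 1) (p (nat_lit 0x101) (nat_lit 0) (p (nat_lit 0x111) (nat_lit 0) (p (nat_lit 0xd1) (nat_lit 1) (p (nat_lit 0x81) (nat_lit 0) (p (nat_lit 0x41) (nat_lit 1) (p (nat_lit 0x10b0a09890a9a) (nat_lit 0) (p (nat_lit 0x8a8989088a1a) (nat_lit 0) (p (nat_lit 0x10a090888079a) (nat_lit 0) (p (nat_lit 0x89888807871a) (nat_lit 0) (p (nat_lit 0x8000080000000090787088a) (nat_lit 0) (p (nat_lit 0x8000080000000088706860a) (nat_lit 0) (p (nat_lit 0x10706860782) (nat_lit 0) (p (nat_lit 0x8686058702) (nat_lit 0) (p (nat_lit 0x10605850482) (nat_lit 0) (p (nat_lit 0x8585048402) (nat_lit 0) (p (nat_lit 0x160004) (nat_lit 0) (p (nat_lit 0x60592) (nat_lit 0) (p (nat_lit 0x48512) (nat_lit 0) (p (nat_lit 0x50392) (nat_lit 0) (p (nat_lit 0x38312) (nat_lit 0) (p (nat_lit 0x40212) (nat_lit 0) (p (nat_lit 0x28192) (nat_lit 0) (p (nat_lit 0x30092) (nat_lit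 0) (p (nat_lit 0x18012) (nat_lit 0) pn)))))))))))))))))))))))))) :=
  Cl.node (nat_lit 0xc9) (nat_lit 2) (by decide +kernel) (ClAll.succ (ClAll.succ ClAll.zero n72) s137)

def n104 : Cl (O (nat_lit 6)) (R (nat_lit 135377))
    (p (nat_lit 0xc9) (nat_lit 0) (p (nat_lit 0x89) (nat_lit 1) (p (nat_lit 0x101) (nat_lit 1) (p (nat_lit 0x111) (nat_lit 0) (p (nat_lit 0xd1) (nat_lit 1) (p (nat_lit 0x81) (nat_lit 0) (p (nat_lit 0x41) (nat_lit 1) (p (nat_lit 0x10b0a09890a9a) (nat_lit 0) (p (nat_lit 0x8a8989088a1a) (nat_lit 0) (p (nat_lit 0x10a090888079a) (nat_lit 0) (p (nat_lit 0x89888807871a) (nat_lit 0) (p (nat_lit 0x8000080000000090787088a) (nat_lit 0) (p (nat_lit 0x8000080000000088706860a) (nat_lit 0) (p (nat_lit 0x10706860782) (nat_lit 0) (p (nat_lit 0x8686058702) (nat_lit 0) (p (nat_lit 0x10605850482) (nat_lit 0) (p (nat_lit 0x8585048402) (nat_lit 0) (p (nat_lit 0x160004) (nat_lit 0) (p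 (nat_lit 0x60592) (nat_lit 0) (p (nat_lit 0x48512) (nat_lit 0) (p (nat_lit 0x50392) (nat_lit 0) (p (nat_lit 0x38312) (nat_lit 0) (p (nat_lit 0x40212) (nat_lit 0) (p (nat_lit 0x28192) (nat_lit 0) (p (nat_lit 0x30092) (nat_lit 0) (p (nat_lit 0x18012) (nat_lit 0) pn)))))))))))))))))))))))))) :=
  Cl.node (nat_lit 0x20000c) (nat_lit 2) (by decide +kernel) (ClAll.succ (ClAll.succ ClAll.zero n73) s146)

def n105 : Cl (O (nat_lit 6)) (R (nat_lit 135377))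
    (p (nat_lit 0x109) (nat_lit 0) (p (nat_lit 0xc9) (nat_lit 1) (p (nat_lit 0x89) (nat_lit 1) (p (nat_lit 0x111) (nat_lit 1) (p (nat_lit 0xd1) (nat_lit 1) (p (nat_lit 0x81) (nat_lit 0) (p (nat_lit 0x41) (nat_lit 1) (p (nat_lit 0x10b0a09890a9a) (nat_lit 0) (p (nat_lit 0x8a8989088a1a) (nat_lit 0) (p (nat_lit 0x10a090888079a) (nat_lit 0) (p (nat_lit 0x89888807871a) (nat_lit 0) (p (nat_lit 0x8000080000000090787088a) (nat_lit 0) (p (nat_lit 0x8000080000000088706860a) (nat_lit 0) (p (nat_lit 0x10706860782) (nat_lit 0) (p (nat_lit 0x8686058702) (nat_lit 0) (p (nat_lit 0x10605850482) (nat_lit 0) (p (nat_lit 0x8585048402) (nat_lit 0) (p (nat_lit 0x160004) (nat_lit 0) (p (nat_lit 0x60592) (nat_lit 0) (p (nat_lit 0x48512) (nat_lit 0) (p (nat_lit 0x50392) (nat_lit 0) (p (nat_lit 0x38312) (nat_lit 0) (p (nat_lit 0x40212) (nat_lit 0) (p (nat_lit 0x28192) (nat_lit 0) (p (nat_lit 0x30092) (nat_lit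 0) (p (nat_lit 0x18012) (nat_lit 0) pn)))))))))))))))))))))))))) :=
  Cl.node (nat_lit 0x20000c) (nat_lit 2) (by decide +kernel) (ClAll.succ (ClAll.succ ClAll.zero n74) s153)

def n106 : Cl (O (nat_lit 6)) (R (nat_lit 135377))
    (p (nat_lit 0xc9) (nat_lit 0) (p (nat_lit 0x109) (nat_lit 1) (p (nat_lit 0x101) (nat_lit 0) (p (nat_lit 0x119) (nat_lit 0) (p (nat_lit 0xc1) (nat_lit 0) (p (nat_lit 0x81) (nat_lit 1) (p (nat_lit 0x41) (nat_lit 1) (p (nat_lit 0x10b0a09890a9a) (nat_lit 0) (p (nat_lit 0x8a8989088a1a) (nat_lit 0) (p (nat_lit 0x10a090888079a) (nat_lit 0) (p (nat_lit 0x89888807871a) (nat_lit 0) (p (nat_lit 0x8000080000000090787088a) (nat_lit 0) (p (nat_lit 0x8000080000000088706860a) (nat_lit 0) (p (nat_lit 0x10706860782) (nat_lit 0) (p (nat_lit 0x8686058702) (nat_lit 0) (p (nat_lit 0x10605850482) (nat_lit 0) (p (nat_lit 0x8585048402) (nat_lit 0) (p (nat_lit 0x160004) (nat_lit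 0) (p (nat_lit 0x60592) (nat_lit 0) (p (nat_lit 0x48512) (nat_lit 0) (p (nat_lit 0x50392) (nat_lit 0) (p (nat_lit 0x38312) (nat_lit 0) (p (nat_lit 0x40212) (nat_lit 0) (p (nat_lit 0x28192) (nat_lit 0) (p (nat_lit 0x30092) (nat_lit 0) (p (nat_lit 0x18012) (nat_lit 0) pn)))))))))))))))))))))))))) :=
  Cl.node (nat_lit 0xd1) (nat_lit 2) (by decide +kernel) (ClAll.succ (ClAll.succ ClAll.zero s156) s157)

def n107 : Cl (O (nat_lit 6)) (R (nat_lit 135377))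
    (p (nat_lit 0xd1) (nat_lit 0) (p (nat_lit 0xc9) (nat_lit 0) (p (nat_lit 0x101) (nat_lit 1) (p (nat_lit 0x119) (nat_lit 0) (p (nat_lit 0xc1) (nat_lit 0) (p (nat_lit 0x81) (nat_lit 1) (p (nat_lit 0x41) (nat_lit 1) (p (nat_lit 0x10b0a09890a9a) (nat_lit 0) (p (nat_lit 0x8a8989088a1a) (nat_lit 0) (p (nat_lit 0x10a090888079a) (nat_lit 0) (p (nat_lit 0x89888807871a) (nat_lit 0) (p (nat_lit 0x8000080000000090787088a) (nat_lit 0) (p (nat_lit 0x8000080000000088706860a) (nat_lit 0) (p (nat_lit 0x10706860782) (nat_lit 0) (p (nat_lit 0x8686058702) (nat_lit 0) (p (nat_lit 0x10605850482) (nat_lit 0) (p (nat_lit 0x8585048402) (nat_lit 0) (p (nat_lit 0x160004) (nat_lit 0) (p (nat_lit 0x60592) (nat_lit 0) (p (nat_lit 0x48512) (nat_lit 0) (p (nat_lit 0x50392) (nat_lit 0) (p (nat_lit 0x38312) (nat_lit 0) (p (nat_lit 0x40212) (nat_lit 0) (p (nat_lit 0x28192) (nat_lit 0) (p (nat_lit 0x30092) (nat_lit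 0) (p (nat_lit 0x18012) (nat_lit 0) pn)))))))))))))))))))))))))) :=
  Cl.node (nat_lit 0x20000c) (nat_lit 2) (by decide +kernel) (ClAll.succ (ClAll.succ ClAll.zero s159) s160)

def n108 : Cl (O (nat_lit 6)) (R (nat_lit 135377))
    (p (nat_lit 0xd1) (nat_lit 1) (p (nat_lit 0xc9) (nat_lit 0) (p (nat_lit 0x101) (nat_lit 1) (p (nat_lit 0x119) (nat_lit 0) (p (nat_lit 0xc1) (nat_lit 0) (p (nat_lit 0x81) (nat_lit 1) (p (nat_lit 0x41) (nat_lit 1) (p (nat_lit 0x10b0a09890a9a) (nat_lit 0) (p (nat_lit 0x8a8989088a1a) (nat_lit 0) (p (nat_lit 0x10a090888079a) (nat_lit 0) (p (nat_lit 0x89888807871a) (nat_lit 0) (p (nat_lit 0x8000080000000090787088a) (nat_lit 0) (p (nat_lit 0x8000080000000088706860a) (nat_lit 0) (p (nat_lit 0x10706860782) (nat_lit 0) (p (nat_lit 0x8686058702) (nat_lit 0) (p (nat_lit 0x10605850482) (nat_lit 0) (p (nat_lit 0x8585048402) (nat_lit 0) (p (nat_lit 0x160004) (nat_lit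 0) (p (nat_lit 0x60592) (nat_lit 0) (p (nat_lit 0x48512) (nat_lit 0) (p (nat_lit 0x50392) (nat_lit 0) (p (nat_lit 0x38312) (nat_lit 0) (p (nat_lit 0x40212) (nat_lit 0) (p (nat_lit 0x28192) (nat_lit 0) (p (nat_lit 0x30092) (nat_lit 0) (p (nat_lit 0x18012) (nat_lit 0) pn)))))))))))))))))))))))))) :=
  Cl.node (nat_lit 0x20000c) (nat_lit 2) (by decide +kernel) (ClAll.succ (ClAll.succ ClAll.zero s161) s162)

def n109 : Cl (O (nat_lit 6)) (R (nat_lit 135377))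
    (p (nat_lit 0x111) (nat_lit 0) (p (nat_lit 0x109) (nat_lit 0) (p (nat_lit 0xc9) (nat_lit 1) (p (nat_lit 0x119) (nat_lit 1) (p (nat_lit 0xc1) (nat_lit 0) (p (nat_lit 0x81) (nat_lit 1) (p (nat_lit 0x41) (nat_lit 1) (p (nat_lit 0x10b0a09890a9a) (nat_lit 0) (p (nat_lit 0x8a8989088a1a) (nat_lit 0) (p (nat_lit 0x10a090888079a) (nat_lit 0) (p (nat_lit 0x89888807871a) (nat_lit 0) (p (nat_lit 0x8000080000000090787088a) (nat_lit 0) (p (nat_lit 0x8000080000000088706860a) (nat_lit 0) (p (nat_lit 0x10706860782) (nat_lit 0) (p (nat_lit 0x8686058702) (nat_lit 0) (p (nat_lit 0x10605850482) (nat_lit 0) (p (nat_lit 0x8585048402) (nat_lit 0) (p (nat_lit 0x160004) (nat_lit 0) (p (nat_lit 0x60592) (nat_lit 0) (p (nat_lit 0x48512) (nat_lit 0) (p (nat_lit 0x50392) (nat_lit 0) (p (nat_lit 0x38312) (nat_lit 0) (p (nat_lit 0x40212) (nat_lit 0) (p (nat_lit 0x28192) (nat_lit 0) (p (nat_lit 0x30092) (nat_lit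 0) (p (nat_lit 0x18012) (nat_lit 0) pn)))))))))))))))))))))))))) :=
  Cl.node (nat_lit 0x20000c) (nat_lit 2) (by decide +kernel) (ClAll.succ (ClAll.succ ClAll.zero n75) s167)

def n110 : Cl (O (nat_lit 6)) (R (nat_lit 135377))
    (p (nat_lit 0x20000c) (nat_lit 0) (p (nat_lit 0x109) (nat_lit 1) (p (nat_lit 0xc9) (nat_lit 1) (p (nat_lit 0x119) (nat_lit 1) (p (nat_lit 0xc1) (nat_lit 0) (p (nat_lit 0x81) (nat_lit 1) (p (nat_lit 0x41) (nat_lit 1) (p (nat_lit 0x10b0a09890a9a) (nat_lit 0) (p (nat_lit 0x8a8989088a1a) (nat_lit 0) (p (nat_lit 0x10a090888079a) (nat_lit 0) (p (nat_lit 0x89888807871a) (nat_lit 0) (p (nat_lit 0x8000080000000090787088a) (nat_lit 0) (p (nat_lit 0x8000080000000088706860a) (nat_lit 0) (p (nat_lit 0x10706860782) (nat_lit 0) (p (nat_lit 0x8686058702) (nat_lit 0) (p (nat_lit 0x10605850482) (nat_lit 0) (p (nat_lit 0x8585048402) (nat_lit 0) (p (nat_lit 0x160004) (nat_lit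 0) (p (nat_lit 0x60592) (nat_lit 0) (p (nat_lit 0x48512) (nat_lit 0) (p (nat_lit 0x50392) (nat_lit 0) (p (nat_lit 0x38312) (nat_lit 0) (p (nat_lit 0x40212) (nat_lit 0) (p (nat_lit 0x28192) (nat_lit 0) (p (nat_lit 0x30092) (nat_lit 0) (p (nat_lit 0x18012) (nat_lit 0) pn)))))))))))))))))))))))))) :=
  Cl.node (nat_lit 0x200014) (nat_lit 2) (by decide +kernel) (ClAll.succ (ClAll.succ ClAll.zero n76) s171)

def n111 : Cl (O (nat_lit 6)) (R (nat_lit 135377))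
    (p (nat_lit 0x109) (nat_lit 1) (p (nat_lit 0x101) (nat_lit 0) (p (nat_lit 0x119) (nat_lit 0) (p (nat_lit 0xd1) (nat_lit 0) (p (nat_lit 0x89) (nat_lit 0) (p (nat_lit 0x41) (nat_lit 0) (p (nat_lit 0x10b0a09890a9a) (nat_lit 0) (p (nat_lit 0x8a8989088a1a) (nat_lit 0) (p (nat_lit 0x10a090888079a) (nat_lit 0) (p (nat_lit 0x89888807871a) (nat_lit 0) (p (nat_lit 0x8000080000000090787088a) (nat_lit 0) (p (nat_lit 0x8000080000000088706860a) (nat_lit 0) (p (nat_lit 0x10706860782) (nat_lit 0) (p (nat_lit 0x8686058702) (nat_lit 0) (p (nat_lit 0x10605850482) (nat_lit 0) (p (nat_lit 0x8585048402) (nat_lit 0) (p (nat_lit 0x160004) (nat_lit 0) (p (nat_lit 0x60592) (nat_lit 0) (p (nat_lit 0x48512) (nat_lit 0) (p (nat_lit 0x50392) (nat_lit 0) (p (nat_lit 0x38312) (nat_lit 0) (p (nat_lit 0x40212) (nat_lit 0) (p (nat_lit 0x28192) (nat_lit 0) (p (nat_lit 0x30092) (nat_lit 0) (p (nat_lit 0x18012) (nat_lit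 0) pn))))))))))))))))))))))))) :=
  Cl.node (nat_lit 0xc9) (nat_lit 2) (by decide +kernel) (ClAll.succ (ClAll.succ ClAll.zero s1) n77)

def n112 : Cl (O (nat_lit 6)) (R (nat_lit 135377))
    (p (nat_lit 0x81) (nat_lit 0) (p (nat_lit 0x101) (nat_lit 1) (p (nat_lit 0x119) (nat_lit 0) (p (nat_lit 0xd1) (nat_lit 0) (p (nat_lit 0x89) (nat_lit 0) (p (nat_lit 0x41) (nat_lit 0) (p (nat_lit 0x10b0a09890a9a) (nat_lit 0) (p (nat_lit 0x8a8989088a1a) (nat_lit 0) (p (nat_lit 0x10a090888079a) (nat_lit 0) (p (nat_lit 0x89888807871a) (nat_lit 0) (p (nat_lit 0x8000080000000090787088a) (nat_lit 0) (p (nat_lit 0x8000080000000088706860a) (nat_lit 0) (p (nat_lit 0x10706860782) (nat_lit 0) (p (nat_lit 0x8686058702) (nat_lit 0) (p (nat_lit 0x10605850482) (nat_lit 0) (p (nat_lit 0x8585048402) (nat_lit 0) (p (nat_lit 0x160004) (nat_lit 0) (p (nat_lit 0x60592) (nat_lit 0) (p (nat_lit 0x48512) (nat_lit 0) (p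 (nat_lit 0x50392) (nat_lit 0) (p (nat_lit 0x38312) (nat_lit 0) (p (nat_lit 0x40212) (nat_lit 0) (p (nat_lit 0x28192) (nat_lit 0) (p (nat_lit 0x30092) (nat_lit 0) (p (nat_lit 0x18012) (nat_lit 0) pn))))))))))))))))))))))))) :=
  Cl.node (nat_lit 0xc9) (nat_lit 2) (by decide +kernel) (ClAll.succ (ClAll.succ ClAll.zero n78) n79)

def n113 : Cl (O (nat_lit 6)) (R (nat_lit 135377))
    (p (nat_lit 0x81) (nat_lit 1) (p (nat_lit 0x101) (nat_lit 1) (p (nat_lit 0x119) (nat_lit 0) (p (nat_lit 0xd1) (nat_lit 0) (p (nat_lit 0x89) (nat_lit 0) (p (nat_lit 0x41) (nat_lit 0) (p (nat_lit 0x10b0a09890a9a) (nat_lit 0) (p (nat_lit 0x8a8989088a1a) (nat_lit 0) (p (nat_lit 0x10a090888079a) (nat_lit 0) (p (nat_lit 0x89888807871a) (nat_lit 0) (p (nat_lit 0x8000080000000090787088a) (nat_lit 0) (p (nat_lit 0x8000080000000088706860a) (nat_lit 0) (p (nat_lit 0x10706860782) (nat_lit 0) (p (nat_lit 0x8686058702)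 (nat_lit 0) (p (nat_lit 0x10605850482) (nat_lit 0) (p (nat_lit 0x8585048402) (nat_lit 0) (p (nat_lit 0x160004) (nat_lit 0) (p (nat_lit 0x60592) (nat_lit 0) (p (nat_lit 0x48512) (nat_lit 0) (p (nat_lit 0x50392) (nat_lit 0) (p (nat_lit 0x38312) (nat_lit 0) (p (nat_lit 0x40212) (nat_lit 0) (p (nat_lit 0x28192) (nat_lit 0) (p (nat_lit 0x30092) (nat_lit 0) (p (nat_lit 0x18012) (nat_lit 0) pn))))))))))))))))))))))))) :=
  Cl.node (nat_lit 0xc1) (nat_lit 2) (by decide +kernel) (ClAll.succ (ClAll.succ ClAll.zero n80) s23)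

def n114 : Cl (O (nat_lit 6)) (R (nat_lit 135377))
    (p (nat_lit 0xc9) (nat_lit 1) (p (nat_lit 0xc1) (nat_lit 0) (p (nat_lit 0x119) (nat_lit 1) (p (nat_lit 0xd1) (nat_lit 0) (p (nat_lit 0x89) (nat_lit 0) (p (nat_lit 0x41) (nat_lit 0) (p (nat_lit 0x10b0a09890a9a) (nat_lit 0) (p (nat_lit 0x8a8989088a1a) (nat_lit 0) (p (nat_lit 0x10a090888079a) (nat_lit 0) (p (nat_lit 0x89888807871a) (nat_lit 0) (p (nat_lit 0x8000080000000090787088a) (nat_lit 0) (p (nat_lit 0x8000080000000088706860a) (nat_lit 0) (p (nat_lit 0x10706860782) (nat_lit 0) (p (nat_lit 0x8686058702) (nat_lit 0) (p (nat_lit 0x10605850482) (nat_lit 0) (p (nat_lit 0x8585048402) (nat_lit 0) (p (nat_lit 0x160004) (nat_lit 0) (p (nat_lit 0x60592) (nat_lit 0) (p (nat_lit 0x48512) (nat_lit 0) (p (nat_lit 0x50392) (nat_lit 0) (p (nat_lit 0x38312) (nat_lit 0) (p (nat_lit 0x40212) (nat_lit 0) (p (nat_lit 0x28192) (nat_lit 0) (p (nat_lit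 0x30092) (nat_lit 0) (p (nat_lit 0x18012) (nat_lit 0) pn))))))))))))))))))))))))) :=
  Cl.node (nat_lit 0x109) (nat_lit 2) (by decide +kernel) (ClAll.succ (ClAll.succ ClAll.zero s25) n81)

def n115 : Cl (O (nat_lit 6)) (R (nat_lit 135377))
    (p (nat_lit 0x81) (nat_lit 0) (p (nat_lit 0xc1) (nat_lit 1) (p (nat_lit 0x119) (nat_lit 1) (p (nat_lit 0xd1) (nat_lit 0) (p (nat_lit 0x89) (nat_lit 0) (p (nat_lit 0x41) (nat_lit 0) (p (nat_lit 0x10b0a09890a9a) (nat_lit 0) (p (nat_lit 0x8a8989088a1a) (nat_lit 0) (p (nat_lit 0x10a090888079a) (nat_lit 0) (p (nat_lit 0x89888807871a) (nat_lit 0) (p (nat_lit 0x8000080000000090787088a) (nat_lit 0) (p (nat_lit 0x8000080000000088706860a) (nat_lit 0) (p (nat_lit 0x10706860782) (nat_lit 0) (p (nat_lit 0x8686058702) (nat_lit 0) (p (nat_lit 0x10605850482) (nat_lit 0) (p (nat_lit 0x8585048402) (nat_lit 0) (p (nat_lit 0x160004) (nat_lit 0) (p (nat_lit 0x60592)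 (nat_lit 0) (p (nat_lit 0x48512) (nat_lit 0) (p (nat_lit 0x50392) (nat_lit 0) (p (nat_lit 0x38312) (nat_lit 0) (p (nat_lit 0x40212) (nat_lit 0) (p (nat_lit 0x28192) (nat_lit 0) (p (nat_lit 0x30092) (nat_lit 0) (p (nat_lit 0x18012) (nat_lit 0) pn))))))))))))))))))))))))) :=
  Cl.node (nat_lit 0x109) (nat_lit 2) (by decide +kernel) (ClAll.succ (ClAll.succ ClAll.zero s30) n82)

def n116 : Cl (O (nat_lit 6)) (R (nat_lit 135377))
    (p (nat_lit 0x81) (nat_lit 1) (p (nat_lit 0xc1) (nat_lit 1) (p (nat_lit 0x119) (nat_lit 1) (p (nat_lit 0xd1) (nat_lit 0) (p (nat_lit 0x89) (nat_lit 0) (p (nat_lit 0x41) (nat_lit 0) (p (nat_lit 0x10b0a09890a9a) (nat_lit 0) (p (nat_lit 0x8a8989088a1a) (nat_lit 0) (p (nat_lit 0x10a090888079a) (nat_lit 0) (p (nat_lit 0x89888807871a) (nat_lit 0) (p (nat_lit 0x8000080000000090787088a) (nat_lit 0) (p (nat_lit 0x8000080000000088706860a) (nat_lit 0) (p (nat_lit 0x10706860782)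 (nat_lit 0) (p (nat_lit 0x8686058702) (nat_lit 0) (p (nat_lit 0x10605850482) (nat_lit 0) (p (nat_lit 0x8585048402) (nat_lit 0) (p (nat_lit 0x160004) (nat_lit 0) (p (nat_lit 0x60592) (nat_lit 0) (p (nat_lit 0x48512) (nat_lit 0) (p (nat_lit 0x50392) (nat_lit 0) (p (nat_lit 0x38312) (nat_lit 0) (p (nat_lit 0x40212) (nat_lit 0) (p (nat_lit 0x28192) (nat_lit 0) (p (nat_lit 0x30092) (nat_lit 0) (p (nat_lit 0x18012) (nat_lit 0) pn))))))))))))))))))))))))) :=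
  Cl.node (nat_lit 0x101) (nat_lit 2) (by decide +kernel) (ClAll.succ (ClAll.succ ClAll.zero n83) n84)

def n117 : Cl (O (nat_lit 6)) (R (nat_lit 135377))
    (p (nat_lit 0x109) (nat_lit 1) (p (nat_lit 0x101) (nat_lit 0) (p (nat_lit 0x111) (nat_lit 0) (p (nat_lit 0xd1) (nat_lit 1) (p (nat_lit 0x89) (nat_lit 0) (p (nat_lit 0x41) (nat_lit 0) (p (nat_lit 0x10b0a09890a9a) (nat_lit 0) (p (nat_lit 0x8a8989088a1a) (nat_lit 0) (p (nat_lit 0x10a090888079a) (nat_lit 0) (p (nat_lit 0x89888807871a) (nat_lit 0) (p (nat_lit 0x8000080000000090787088a) (nat_lit 0) (p (nat_lit 0x8000080000000088706860a) (nat_lit 0) (p (nat_lit 0x10706860782) (nat_lit 0) (p (nat_lit 0x8686058702) (nat_lit 0) (p (nat_lit 0x10605850482) (nat_lit 0) (p (nat_lit 0x8585048402) (nat_lit 0) (p (nat_lit 0x160004) (nat_lit 0) (p (nat_lit 0x60592) (nat_lit 0) (p (nat_lit 0x48512) (nat_lit 0) (p (nat_lit 0x50392) (nat_lit 0)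 (p (nat_lit 0x38312) (nat_lit 0) (p (nat_lit 0x40212) (nat_lit 0) (p (nat_lit 0x28192) (nat_lit 0) (p (nat_lit 0x30092) (nat_lit 0) (p (nat_lit 0x18012) (nat_lit 0) pn))))))))))))))))))))))))) :=
  Cl.node (nat_lit 0x20000c) (nat_lit 2) (by decide +kernel) (ClAll.succ (ClAll.succ ClAll.zero s45) s46)

def n118 : Cl (O (nat_lit 6)) (R (nat_lit 135377))
    (p (nat_lit 0x81) (nat_lit 0) (p (nat_lit 0x101) (nat_lit 1) (p (nat_lit 0x111) (nat_lit 0) (p (nat_lit 0xd1) (nat_lit 1) (p (nat_lit 0x89) (nat_lit 0) (p (nat_lit 0x41) (nat_lit 0) (p (nat_lit 0x10b0a09890a9a) (nat_lit 0) (p (nat_lit 0x8a8989088a1a) (nat_lit 0) (p (nat_lit 0x10a090888079a) (nat_lit 0) (p (nat_lit 0x89888807871a) (nat_lit 0) (p (nat_lit 0x8000080000000090787088a) (nat_lit 0) (p (nat_lit 0x8000080000000088706860a) (nat_lit 0) (p (nat_lit 0x10706860782) (nat_lit 0) (p (nat_lit 0x8686058702) (nat_lit 0) (p (nat_lit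 0x10605850482) (nat_lit 0) (p (nat_lit 0x8585048402) (nat_lit 0) (p (nat_lit 0x160004) (nat_lit 0) (p (nat_lit 0x60592) (nat_lit 0) (p (nat_lit 0x48512) (nat_lit 0) (p (nat_lit 0x50392) (nat_lit 0) (p (nat_lit 0x38312) (nat_lit 0) (p (nat_lit 0x40212) (nat_lit 0) (p (nat_lit 0x28192) (nat_lit 0) (p (nat_lit 0x30092) (nat_lit 0) (p (nat_lit 0x18012) (nat_lit 0) pn))))))))))))))))))))))))) :=
  Cl.node (nat_lit 0x20000c) (nat_lit 2) (by decide +kernel) (ClAll.succ (ClAll.succ ClAll.zero n85) s50)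

def n119 : Cl (O (nat_lit 6)) (R (nat_lit 135377))
    (p (nat_lit 0x81) (nat_lit 1) (p (nat_lit 0x101) (nat_lit 1) (p (nat_lit 0x111) (nat_lit 0) (p (nat_lit 0xd1) (nat_lit 1) (p (nat_lit 0x89) (nat_lit 0) (p (nat_lit 0x41) (nat_lit 0) (p (nat_lit 0x10b0a09890a9a) (nat_lit 0) (p (nat_lit 0x8a8989088a1a) (nat_lit 0) (p (nat_lit 0x10a090888079a) (nat_lit 0) (p (nat_lit 0x89888807871a) (nat_lit 0) (p (nat_lit 0x8000080000000090787088a) (nat_lit 0) (p (nat_lit 0x8000080000000088706860a) (nat_lit 0) (p (nat_lit 0x10706860782) (nat_lit 0) (p (nat_lit 0x8686058702) (nat_lit 0) (p (nat_lit 0x10605850482) (nat_lit 0) (p (nat_lit 0x8585048402) (nat_lit 0) (p (nat_lit 0x160004) (nat_lit 0) (p (nat_lit 0x60592) (nat_lit 0) (p (nat_lit 0x48512) (nat_lit 0) (p (nat_lit 0x50392) (nat_lit 0) (p (nat_lit 0x38312) (nat_lit 0) (p (nat_lit 0x40212) (nat_lit 0) (p (nat_lit 0x28192) (nat_lit 0) (p (nat_lit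 0x30092) (nat_lit 0) (p (nat_lit 0x18012) (nat_lit 0) pn))))))))))))))))))))))))) :=
  Cl.node (nat_lit 0xc1) (nat_lit 2) (by decide +kernel) (ClAll.succ (ClAll.succ ClAll.zero n86) s55)

def n120 : Cl (O (nat_lit 6)) (R (nat_lit 135377))
    (p (nat_lit 0xc1) (nat_lit 1) (p (nat_lit 0x81) (nat_lit 1) (p (nat_lit 0x111) (nat_lit 1) (p (nat_lit 0xd1) (nat_lit 1) (p (nat_lit 0x89) (nat_lit 0) (p (nat_lit 0x41) (nat_lit 0) (p (nat_lit 0x10b0a09890a9a) (nat_lit 0) (p (nat_lit 0x8a8989088a1a) (nat_lit 0) (p (nat_lit 0x10a090888079a) (nat_lit 0) (p (nat_lit 0x89888807871a) (nat_lit 0) (p (nat_lit 0x8000080000000090787088a) (nat_lit 0) (p (nat_lit 0x8000080000000088706860a) (nat_lit 0) (p (nat_lit 0x10706860782) (nat_lit 0) (p (nat_lit 0x8686058702) (nat_lit 0) (p (nat_lit 0x10605850482) (nat_lit 0) (p (nat_lit 0x8585048402) (nat_lit 0) (p (nat_lit 0x160004) (nat_lit 0) (p (nat_lit 0x60592)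 (nat_lit 0) (p (nat_lit 0x48512) (nat_lit 0) (p (nat_lit 0x50392) (nat_lit 0) (p (nat_lit 0x38312) (nat_lit 0) (p (nat_lit 0x40212) (nat_lit 0) (p (nat_lit 0x28192) (nat_lit 0) (p (nat_lit 0x30092) (nat_lit 0) (p (nat_lit 0x18012) (nat_lit 0) pn))))))))))))))))))))))))) :=
  Cl.node (nat_lit 0x101) (nat_lit 2) (by decide +kernel) (ClAll.succ (ClAll.succ ClAll.zero n87) s60)

def n121 : Cl (O (nat_lit 6)) (R (nat_lit 135377))
    (p (nat_lit 0x109) (nat_lit 1) (p (nat_lit 0x101) (nat_lit 0) (p (nat_lit 0x119) (nat_lit 0) (p (nat_lit 0xc9) (nat_lit 0) (p (nat_lit 0x89) (nat_lit 1) (p (nat_lit 0x41) (nat_lit 0) (p (nat_lit 0x10b0a09890a9a) (nat_lit 0) (p (nat_lit 0x8a8989088a1a) (nat_lit 0) (p (nat_lit 0x10a090888079a) (nat_lit 0) (p (nat_lit 0x89888807871a) (nat_lit 0) (p (nat_lit 0x8000080000000090787088a) (nat_lit 0) (p (nat_lit 0x8000080000000088706860a) (nat_lit 0) (p (nat_lit 0x10706860782)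 (nat_lit 0) (p (nat_lit 0x8686058702) (nat_lit 0) (p (nat_lit 0x10605850482) (nat_lit 0) (p (nat_lit 0x8585048402) (nat_lit 0) (p (nat_lit 0x160004) (nat_lit 0) (p (nat_lit 0x60592) (nat_lit 0) (p (nat_lit 0x48512) (nat_lit 0) (p (nat_lit 0x50392) (nat_lit 0) (p (nat_lit 0x38312) (nat_lit 0) (p (nat_lit 0x40212) (nat_lit 0) (p (nat_lit 0x28192) (nat_lit 0) (p (nat_lit 0x30092) (nat_lit 0) (p (nat_lit 0x18012) (nat_lit 0) pn))))))))))))))))))))))))) :=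
  Cl.node (nat_lit 0xd1) (nat_lit 2) (by decide +kernel) (ClAll.succ (ClAll.succ ClAll.zero n88) n89)

def n122 : Cl (O (nat_lit 6)) (R (nat_lit 135377))
    (p (nat_lit 0xc1) (nat_lit 0) (p (nat_lit 0x101) (nat_lit 1) (p (nat_lit 0x119) (nat_lit 0) (p (nat_lit 0xc9) (nat_lit 0) (p (nat_lit 0x89) (nat_lit 1) (p (nat_lit 0x41) (nat_lit 0) (p (nat_lit 0x10b0a09890a9a) (nat_lit 0) (p (nat_lit 0x8a8989088a1a) (nat_lit 0) (p (nat_lit 0x10a090888079a) (nat_lit 0) (p (nat_lit 0x89888807871a) (nat_lit 0) (p (nat_lit 0x8000080000000090787088a) (nat_lit 0) (p (nat_lit 0x8000080000000088706860a) (nat_lit 0) (p (nat_lit 0x10706860782) (nat_lit 0) (p (nat_lit 0x8686058702) (nat_lit 0) (p (nat_lit 0x10605850482) (nat_lit 0) (p (nat_lit 0x8585048402) (nat_lit 0) (p (nat_lit 0x160004) (nat_lit 0) (p (nat_lit 0x60592) (nat_lit 0) (p (nat_lit 0x48512) (nat_lit 0) (p (nat_lit 0x50392) (nat_lit 0) (p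 (nat_lit 0x38312) (nat_lit 0) (p (nat_lit 0x40212) (nat_lit 0) (p (nat_lit 0x28192) (nat_lit 0) (p (nat_lit 0x30092) (nat_lit 0) (p (nat_lit 0x18012) (nat_lit 0) pn))))))))))))))))))))))))) :=
  Cl.node (nat_lit 0xd1) (nat_lit 2) (by decide +kernel) (ClAll.succ (ClAll.succ ClAll.zero n90) s72)

def n123 : Cl (O (nat_lit 6)) (R (nat_lit 135377))
    (p (nat_lit 0xd1) (nat_lit 1) (p (nat_lit 0xc1) (nat_lit 0) (p (nat_lit 0x119) (nat_lit 1) (p (nat_lit 0xc9) (nat_lit 0) (p (nat_lit 0x89) (nat_lit 1) (p (nat_lit 0x41) (nat_lit 0) (p (nat_lit 0x10b0a09890a9a) (nat_lit 0) (p (nat_lit 0x8a8989088a1a) (nat_lit 0) (p (nat_lit 0x10a090888079a) (nat_lit 0) (p (nat_lit 0x89888807871a) (nat_lit 0) (p (nat_lit 0x8000080000000090787088a) (nat_lit 0) (p (nat_lit 0x8000080000000088706860a) (nat_lit 0) (p (nat_lit 0x10706860782) (nat_lit 0) (p (nat_lit 0x8686058702) (nat_lit 0) (p (nat_lit 0x10605850482)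 (nat_lit 0) (p (nat_lit 0x8585048402) (nat_lit 0) (p (nat_lit 0x160004) (nat_lit 0) (p (nat_lit 0x60592) (nat_lit 0) (p (nat_lit 0x48512) (nat_lit 0) (p (nat_lit 0x50392) (nat_lit 0) (p (nat_lit 0x38312) (nat_lit 0) (p (nat_lit 0x40212) (nat_lit 0) (p (nat_lit 0x28192) (nat_lit 0) (p (nat_lit 0x30092) (nat_lit 0) (p (nat_lit 0x18012) (nat_lit 0) pn))))))))))))))))))))))))) :=
  Cl.node (nat_lit 0x111) (nat_lit 2) (by decide +kernel) (ClAll.succ (ClAll.succ ClAll.zero s75) n91)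

def n124 : Cl (O (nat_lit 6)) (R (nat_lit 135377))
    (p (nat_lit 0x101) (nat_lit 0) (p (nat_lit 0xc1) (nat_lit 1) (p (nat_lit 0x119) (nat_lit 1) (p (nat_lit 0xc9) (nat_lit 0) (p (nat_lit 0x89) (nat_lit 1) (p (nat_lit 0x41) (nat_lit 0) (p (nat_lit 0x10b0a09890a9a) (nat_lit 0) (p (nat_lit 0x8a8989088a1a) (nat_lit 0) (p (nat_lit 0x10a090888079a) (nat_lit 0) (p (nat_lit 0x89888807871a) (nat_lit 0) (p (nat_lit 0x8000080000000090787088a) (nat_lit 0) (p (nat_lit 0x8000080000000088706860a) (nat_lit 0) (p (nat_lit 0x10706860782) (nat_lit 0) (p (nat_lit 0x8686058702) (nat_lit 0) (p (nat_lit 0x10605850482) (nat_lit 0) (p (nat_lit 0x8585048402) (nat_lit 0) (p (nat_lit 0x160004) (nat_lit 0) (p (nat_lit 0x60592) (nat_lit 0) (p (nat_lit 0x48512) (nat_lit 0) (p (nat_lit 0x50392) (nat_lit 0) (p (nat_lit 0x38312) (nat_lit 0) (p (nat_lit 0x40212) (nat_lit 0) (p (nat_lit 0x28192) (nat_lit 0) (p (nat_lit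 0x30092) (nat_lit 0) (p (nat_lit 0x18012) (nat_lit 0) pn))))))))))))))))))))))))) :=
  Cl.node (nat_lit 0x111) (nat_lit 2) (by decide +kernel) (ClAll.succ (ClAll.succ ClAll.zero n92) n93)

def n125 : Cl (O (nat_lit 6)) (R (nat_lit 135377))
    (p (nat_lit 0x109) (nat_lit 1) (p (nat_lit 0x101) (nat_lit 0) (p (nat_lit 0x119) (nat_lit 0) (p (nat_lit 0xd1) (nat_lit 0) (p (nat_lit 0x81) (nat_lit 0) (p (nat_lit 0x41) (nat_lit 1) (p (nat_lit 0x10b0a09890a9a) (nat_lit 0) (p (nat_lit 0x8a8989088a1a) (nat_lit 0) (p (nat_lit 0x10a090888079a) (nat_lit 0) (p (nat_lit 0x89888807871a) (nat_lit 0) (p (nat_lit 0x8000080000000090787088a) (nat_lit 0) (p (nat_lit 0x8000080000000088706860a) (nat_lit 0) (p (nat_lit 0x10706860782) (nat_lit 0) (p (nat_lit 0x8686058702) (nat_lit 0) (p (nat_lit 0x10605850482) (nat_lit 0) (p (nat_lit 0x8585048402) (nat_lit 0) (p (nat_lit 0x160004) (nat_lit 0) (p (nat_lit 0x60592)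 (nat_lit 0) (p (nat_lit 0x48512) (nat_lit 0) (p (nat_lit 0x50392) (nat_lit 0) (p (nat_lit 0x38312) (nat_lit 0) (p (nat_lit 0x40212) (nat_lit 0) (p (nat_lit 0x28192) (nat_lit 0) (p (nat_lit 0x30092) (nat_lit 0) (p (nat_lit 0x18012) (nat_lit 0) pn))))))))))))))))))))))))) :=
  Cl.node (nat_lit 0x89) (nat_lit 2) (by decide +kernel) (ClAll.succ (ClAll.succ ClAll.zero n94) n95)

def n126 : Cl (O (nat_lit 6)) (R (nat_lit 135377))
    (p (nat_lit 0xc1) (nat_lit 0) (p (nat_lit 0x101) (nat_lit 1) (p (nat_lit 0x119) (nat_lit 0) (p (nat_lit 0xd1) (nat_lit 0) (p (nat_lit 0x81) (nat_lit 0) (p (nat_lit 0x41) (nat_lit 1) (p (nat_lit 0x10b0a09890a9a) (nat_lit 0) (p (nat_lit 0x8a8989088a1a) (nat_lit 0) (p (nat_lit 0x10a090888079a) (nat_lit 0) (p (nat_lit 0x89888807871a) (nat_lit 0) (p (nat_lit 0x8000080000000090787088a) (nat_lit 0) (p (nat_lit 0x8000080000000088706860a) (nat_lit 0) (p (nat_lit 0x10706860782)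 (nat_lit 0) (p (nat_lit 0x8686058702) (nat_lit 0) (p (nat_lit 0x10605850482) (nat_lit 0) (p (nat_lit 0x8585048402) (nat_lit 0) (p (nat_lit 0x160004) (nat_lit 0) (p (nat_lit 0x60592) (nat_lit 0) (p (nat_lit 0x48512) (nat_lit 0) (p (nat_lit 0x50392) (nat_lit 0) (p (nat_lit 0x38312) (nat_lit 0) (p (nat_lit 0x40212) (nat_lit 0) (p (nat_lit 0x28192) (nat_lit 0) (p (nat_lit 0x30092) (nat_lit 0) (p (nat_lit 0x18012) (nat_lit 0) pn))))))))))))))))))))))))) :=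
  Cl.node (nat_lit 0x89) (nat_lit 2) (by decide +kernel) (ClAll.succ (ClAll.succ ClAll.zero n96) n97)

def n127 : Cl (O (nat_lit 6)) (R (nat_lit 135377))
    (p (nat_lit 0xc1) (nat_lit 1) (p (nat_lit 0x101) (nat_lit 1) (p (nat_lit 0x119) (nat_lit 0) (p (nat_lit 0xd1) (nat_lit 0) (p (nat_lit 0x81) (nat_lit 0) (p (nat_lit 0x41) (nat_lit 1) (p (nat_lit 0x10b0a09890a9a) (nat_lit 0) (p (nat_lit 0x8a8989088a1a) (nat_lit 0) (p (nat_lit 0x10a090888079a) (nat_lit 0) (p (nat_lit 0x89888807871a) (nat_lit 0) (p (nat_lit 0x8000080000000090787088a) (nat_lit 0) (p (nat_lit 0x8000080000000088706860a) (nat_lit 0) (p (nat_lit 0x10706860782) (nat_lit 0) (p (nat_lit 0x8686058702) (nat_lit 0) (p (nat_lit 0x10605850482) (nat_lit 0) (p (nat_lit 0x8585048402) (nat_lit 0) (p (nat_lit 0x160004) (nat_lit 0) (p (nat_lit 0x60592) (nat_lit 0) (p (nat_lit 0x48512) (nat_lit 0) (p (nat_lit 0x50392) (nat_lit 0) (p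 (nat_lit 0x38312) (nat_lit 0) (p (nat_lit 0x40212) (nat_lit 0) (p (nat_lit 0x28192) (nat_lit 0) (p (nat_lit 0x30092) (nat_lit 0) (p (nat_lit 0x18012) (nat_lit 0) pn))))))))))))))))))))))))) :=
  Cl.node (nat_lit 0x89) (nat_lit 2) (by decide +kernel) (ClAll.succ (ClAll.succ ClAll.zero s101) n98)

def n128 : Cl (O (nat_lit 6)) (R (nat_lit 135377))
    (p (nat_lit 0xc9) (nat_lit 1) (p (nat_lit 0xc1) (nat_lit 0) (p (nat_lit 0x119) (nat_lit 1) (p (nat_lit 0xd1) (nat_lit 0) (p (nat_lit 0x81) (nat_lit 0) (p (nat_lit 0x41) (nat_lit 1) (p (nat_lit 0x10b0a09890a9a) (nat_lit 0) (p (nat_lit 0x8a8989088a1a) (nat_lit 0) (p (nat_lit 0x10a090888079a) (nat_lit 0) (p (nat_lit 0x89888807871a) (nat_lit 0) (p (nat_lit 0x8000080000000090787088a) (nat_lit 0) (p (nat_lit 0x8000080000000088706860a) (nat_lit 0) (p (nat_lit 0x10706860782) (nat_lit 0) (p (nat_lit 0x8686058702) (nat_lit 0) (p (nat_lit 0x10605850482)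 (nat_lit 0) (p (nat_lit 0x8585048402) (nat_lit 0) (p (nat_lit 0x160004) (nat_lit 0) (p (nat_lit 0x60592) (nat_lit 0) (p (nat_lit 0x48512) (nat_lit 0) (p (nat_lit 0x50392) (nat_lit 0) (p (nat_lit 0x38312) (nat_lit 0) (p (nat_lit 0x40212) (nat_lit 0) (p (nat_lit 0x28192) (nat_lit 0) (p (nat_lit 0x30092) (nat_lit 0) (p (nat_lit 0x18012) (nat_lit 0) pn))))))))))))))))))))))))) :=
  Cl.node (nat_lit 0x89) (nat_lit 2) (by decide +kernel) (ClAll.succ (ClAll.succ ClAll.zero s109) n99)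

def n129 : Cl (O (nat_lit 6)) (R (nat_lit 135377))
    (p (nat_lit 0x101) (nat_lit 0) (p (nat_lit 0xc1) (nat_lit 1) (p (nat_lit 0x119) (nat_lit 1) (p (nat_lit 0xd1) (nat_lit 0) (p (nat_lit 0x81) (nat_lit 0) (p (nat_lit 0x41) (nat_lit 1) (p (nat_lit 0x10b0a09890a9a) (nat_lit 0) (p (nat_lit 0x8a8989088a1a) (nat_lit 0) (p (nat_lit 0x10a090888079a) (nat_lit 0) (p (nat_lit 0x89888807871a) (nat_lit 0) (p (nat_lit 0x8000080000000090787088a) (nat_lit 0) (p (nat_lit 0x8000080000000088706860a) (nat_lit 0) (p (nat_lit 0x10706860782) (nat_lit 0) (p (nat_lit 0x8686058702) (nat_lit 0) (p (nat_lit 0x10605850482) (nat_lit 0) (p (nat_lit 0x8585048402) (nat_lit 0) (p (nat_lit 0x160004) (nat_lit 0) (p (nat_lit 0x60592) (nat_lit 0) (p (nat_lit 0x48512) (nat_lit 0) (p (nat_lit 0x50392) (nat_lit 0) (p (nat_lit 0x38312) (nat_lit 0) (p (nat_lit 0x40212) (nat_lit 0) (p (nat_lit 0x28192) (nat_lit 0) (p (nat_lit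 0x30092) (nat_lit 0) (p (nat_lit 0x18012) (nat_lit 0) pn))))))))))))))))))))))))) :=
  Cl.node (nat_lit 0x89) (nat_lit 2) (by decide +kernel) (ClAll.succ (ClAll.succ ClAll.zero s116) n100)

def n130 : Cl (O (nat_lit 6)) (R (nat_lit 135377))
    (p (nat_lit 0x101) (nat_lit 1) (p (nat_lit 0xc1) (nat_lit 1) (p (nat_lit 0x119) (nat_lit 1) (p (nat_lit 0xd1) (nat_lit 0) (p (nat_lit 0x81) (nat_lit 0) (p (nat_lit 0x41) (nat_lit 1) (p (nat_lit 0x10b0a09890a9a) (nat_lit 0) (p (nat_lit 0x8a8989088a1a) (nat_lit 0) (p (nat_lit 0x10a090888079a) (nat_lit 0) (p (nat_lit 0x89888807871a) (nat_lit 0) (p (nat_lit 0x8000080000000090787088a) (nat_lit 0) (p (nat_lit 0x8000080000000088706860a) (nat_lit 0) (p (nat_lit 0x10706860782) (nat_lit 0) (p (nat_lit 0x8686058702) (nat_lit 0) (p (nat_lit 0x10605850482) (nat_lit 0) (p (nat_lit 0x8585048402) (nat_lit 0) (p (nat_lit 0x160004) (nat_lit 0) (p (nat_lit 0x60592)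 (nat_lit 0) (p (nat_lit 0x48512) (nat_lit 0) (p (nat_lit 0x50392) (nat_lit 0) (p (nat_lit 0x38312) (nat_lit 0) (p (nat_lit 0x40212) (nat_lit 0) (p (nat_lit 0x28192) (nat_lit 0) (p (nat_lit 0x30092) (nat_lit 0) (p (nat_lit 0x18012) (nat_lit 0) pn))))))))))))))))))))))))) :=
  Cl.node (nat_lit 0x89) (nat_lit 2) (by decide +kernel) (ClAll.succ (ClAll.succ ClAll.zero n101) n102)

def n131 : Cl (O (nat_lit 6)) (R (nat_lit 135377))
    (p (nat_lit 0x109) (nat_lit 1) (p (nat_lit 0x101) (nat_lit 0) (p (nat_lit 0x111) (nat_lit 0) (p (nat_lit 0xd1) (nat_lit 1) (p (nat_lit 0x81) (nat_lit 0) (p (nat_lit 0x41) (nat_lit 1) (p (nat_lit 0x10b0a09890a9a) (nat_lit 0) (p (nat_lit 0x8a8989088a1a) (nat_lit 0) (p (nat_lit 0x10a090888079a) (nat_lit 0) (p (nat_lit 0x89888807871a) (nat_lit 0) (p (nat_lit 0x8000080000000090787088a) (nat_lit 0) (p (nat_lit 0x8000080000000088706860a) (nat_lit 0) (p (nat_lit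 0x10706860782) (nat_lit 0) (p (nat_lit 0x8686058702) (nat_lit 0) (p (nat_lit 0x10605850482) (nat_lit 0) (p (nat_lit 0x8585048402) (nat_lit 0) (p (nat_lit 0x160004) (nat_lit 0) (p (nat_lit 0x60592) (nat_lit 0) (p (nat_lit 0x48512) (nat_lit 0) (p (nat_lit 0x50392) (nat_lit 0) (p (nat_lit 0x38312) (nat_lit 0) (p (nat_lit 0x40212) (nat_lit 0) (p (nat_lit 0x28192) (nat_lit 0) (p (nat_lit 0x30092) (nat_lit 0) (p (nat_lit 0x18012) (nat_lit 0) pn))))))))))))))))))))))))) :=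
  Cl.node (nat_lit 0x89) (nat_lit 2) (by decide +kernel) (ClAll.succ (ClAll.succ ClAll.zero s131) n103)

def n132 : Cl (O (nat_lit 6)) (R (nat_lit 135377))
    (p (nat_lit 0x89) (nat_lit 0) (p (nat_lit 0x101) (nat_lit 1) (p (nat_lit 0x111) (nat_lit 0) (p (nat_lit 0xd1) (nat_lit 1) (p (nat_lit 0x81) (nat_lit 0) (p (nat_lit 0x41) (nat_lit 1) (p (nat_lit 0x10b0a09890a9a) (nat_lit 0) (p (nat_lit 0x8a8989088a1a) (nat_lit 0) (p (nat_lit 0x10a090888079a) (nat_lit 0) (p (nat_lit 0x89888807871a) (nat_lit 0) (p (nat_lit 0x8000080000000090787088a) (nat_lit 0) (p (nat_lit 0x8000080000000088706860a) (nat_lit 0) (p (nat_lit 0x10706860782) (nat_lit 0) (p (nat_lit 0x8686058702) (nat_lit 0) (p (nat_lit 0x10605850482) (nat_lit 0) (p (nat_lit 0x8585048402) (nat_lit 0) (p (nat_lit 0x160004) (nat_lit 0) (p (nat_lit 0x60592) (nat_lit 0) (p (nat_lit 0x48512) (nat_lit 0) (p (nat_lit 0x50392) (nat_lit 0)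 (p (nat_lit 0x38312) (nat_lit 0) (p (nat_lit 0x40212) (nat_lit 0) (p (nat_lit 0x28192) (nat_lit 0) (p (nat_lit 0x30092) (nat_lit 0) (p (nat_lit 0x18012) (nat_lit 0) pn))))))))))))))))))))))))) :=
  Cl.node (nat_lit 0x20000c) (nat_lit 2) (by decide +kernel) (ClAll.succ (ClAll.succ ClAll.zero s138) s139)

def n133 : Cl (O (nat_lit 6)) (R (nat_lit 135377))
    (p (nat_lit 0x89) (nat_lit 1) (p (nat_lit 0x101) (nat_lit 1) (p (nat_lit 0x111) (nat_lit 0) (p (nat_lit 0xd1) (nat_lit 1) (p (nat_lit 0x81) (nat_lit 0) (p (nat_lit 0x41) (nat_lit 1) (p (nat_lit 0x10b0a09890a9a) (nat_lit 0) (p (nat_lit 0x8a8989088a1a) (nat_lit 0) (p (nat_lit 0x10a090888079a) (nat_lit 0) (p (nat_lit 0x89888807871a) (nat_lit 0) (p (nat_lit 0x8000080000000090787088a) (nat_lit 0) (p (nat_lit 0x8000080000000088706860a) (nat_lit 0) (p (nat_lit 0x10706860782) (nat_lit 0) (p (nat_lit 0x8686058702) (nat_lit 0) (p (nat_lit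 0x10605850482) (nat_lit 0) (p (nat_lit 0x8585048402) (nat_lit 0) (p (nat_lit 0x160004) (nat_lit 0) (p (nat_lit 0x60592) (nat_lit 0) (p (nat_lit 0x48512) (nat_lit 0) (p (nat_lit 0x50392) (nat_lit 0) (p (nat_lit 0x38312) (nat_lit 0) (p (nat_lit 0x40212) (nat_lit 0) (p (nat_lit 0x28192) (nat_lit 0) (p (nat_lit 0x30092) (nat_lit 0) (p (nat_lit 0x18012) (nat_lit 0) pn))))))))))))))))))))))))) :=
  Cl.node (nat_lit 0xc9) (nat_lit 2) (by decide +kernel) (ClAll.succ (ClAll.succ ClAll.zero n104) s147)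

def n134 : Cl (O (nat_lit 6)) (R (nat_lit 135377))
    (p (nat_lit 0xc9) (nat_lit 1) (p (nat_lit 0x89) (nat_lit 1) (p (nat_lit 0x111) (nat_lit 1) (p (nat_lit 0xd1) (nat_lit 1) (p (nat_lit 0x81) (nat_lit 0) (p (nat_lit 0x41) (nat_lit 1) (p (nat_lit 0x10b0a09890a9a) (nat_lit 0) (p (nat_lit 0x8a8989088a1a) (nat_lit 0) (p (nat_lit 0x10a090888079a) (nat_lit 0) (p (nat_lit 0x89888807871a) (nat_lit 0) (p (nat_lit 0x8000080000000090787088a) (nat_lit 0) (p (nat_lit 0x8000080000000088706860a) (nat_lit 0) (p (nat_lit 0x10706860782) (nat_lit 0) (p (nat_lit 0x8686058702) (nat_lit 0) (p (nat_lit 0x10605850482) (nat_lit 0) (p (nat_lit 0x8585048402) (nat_lit 0) (p (nat_lit 0x160004) (nat_lit 0) (p (nat_lit 0x60592) (nat_lit 0) (p (nat_lit 0x48512) (nat_lit 0) (p (nat_lit 0x50392) (nat_lit 0) (p (nat_lit 0x38312) (nat_lit 0) (p (nat_lit 0x40212) (nat_lit 0) (p (nat_lit 0x28192) (nat_lit 0) (p (nat_lit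 0x30092) (nat_lit 0) (p (nat_lit 0x18012) (nat_lit 0) pn))))))))))))))))))))))))) :=
  Cl.node (nat_lit 0x109) (nat_lit 2) (by decide +kernel) (ClAll.succ (ClAll.succ ClAll.zero n105) s154)

def n135 : Cl (O (nat_lit 6)) (R (nat_lit 135377))
    (p (nat_lit 0x109) (nat_lit 1) (p (nat_lit 0x101) (nat_lit 0) (p (nat_lit 0x119) (nat_lit 0) (p (nat_lit 0xc1) (nat_lit 0) (p (nat_lit 0x81) (nat_lit 1) (p (nat_lit 0x41) (nat_lit 1) (p (nat_lit 0x10b0a09890a9a) (nat_lit 0) (p (nat_lit 0x8a8989088a1a) (nat_lit 0) (p (nat_lit 0x10a090888079a) (nat_lit 0) (p (nat_lit 0x89888807871a) (nat_lit 0) (p (nat_lit 0x8000080000000090787088a) (nat_lit 0) (p (nat_lit 0x8000080000000088706860a) (nat_lit 0) (p (nat_lit 0x10706860782) (nat_lit 0) (p (nat_lit 0x8686058702) (nat_lit 0) (p (nat_lit 0x10605850482) (nat_lit 0) (p (nat_lit 0x8585048402) (nat_lit 0) (p (nat_lit 0x160004) (nat_lit 0) (p (nat_lit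 0x60592) (nat_lit 0) (p (nat_lit 0x48512) (nat_lit 0) (p (nat_lit 0x50392) (nat_lit 0) (p (nat_lit 0x38312) (nat_lit 0) (p (nat_lit 0x40212) (nat_lit 0) (p (nat_lit 0x28192) (nat_lit 0) (p (nat_lit 0x30092) (nat_lit 0) (p (nat_lit 0x18012) (nat_lit 0) pn))))))))))))))))))))))))) :=
  Cl.node (nat_lit 0xc9) (nat_lit 2) (by decide +kernel) (ClAll.succ (ClAll.succ ClAll.zero n106) s158)

def n136 : Cl (O (nat_lit 6)) (R (nat_lit 135377))
    (p (nat_lit 0xc9) (nat_lit 0) (p (nat_lit 0x101) (nat_lit 1) (p (nat_lit 0x119) (nat_lit 0) (p (nat_lit 0xc1) (nat_lit 0) (p (nat_lit 0x81) (nat_lit 1) (p (nat_lit 0x41) (nat_lit 1) (p (nat_lit 0x10b0a09890a9a) (nat_lit 0) (p (nat_lit 0x8a8989088a1a) (nat_lit 0) (p (nat_lit 0x10a090888079a) (nat_lit 0) (p (nat_lit 0x89888807871a) (nat_lit 0) (p (nat_lit 0x8000080000000090787088a) (nat_lit 0) (p (nat_lit 0x8000080000000088706860a) (nat_lit 0) (p (nat_lit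 0x10706860782) (nat_lit 0) (p (nat_lit 0x8686058702) (nat_lit 0) (p (nat_lit 0x10605850482) (nat_lit 0) (p (nat_lit 0x8585048402) (nat_lit 0) (p (nat_lit 0x160004) (nat_lit 0) (p (nat_lit 0x60592) (nat_lit 0) (p (nat_lit 0x48512) (nat_lit 0) (p (nat_lit 0x50392) (nat_lit 0) (p (nat_lit 0x38312) (nat_lit 0) (p (nat_lit 0x40212) (nat_lit 0) (p (nat_lit 0x28192) (nat_lit 0) (p (nat_lit 0x30092) (nat_lit 0) (p (nat_lit 0x18012) (nat_lit 0) pn))))))))))))))))))))))))) :=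
  Cl.node (nat_lit 0xd1) (nat_lit 2) (by decide +kernel) (ClAll.succ (ClAll.succ ClAll.zero n107) n108)

def n137 : Cl (O (nat_lit 6)) (R (nat_lit 135377))
    (p (nat_lit 0x109) (nat_lit 0) (p (nat_lit 0xc9) (nat_lit 1) (p (nat_lit 0x119) (nat_lit 1) (p (nat_lit 0xc1) (nat_lit 0) (p (nat_lit 0x81) (nat_lit 1) (p (nat_lit 0x41) (nat_lit 1) (p (nat_lit 0x10b0a09890a9a) (nat_lit 0) (p (nat_lit 0x8a8989088a1a) (nat_lit 0) (p (nat_lit 0x10a090888079a) (nat_lit 0) (p (nat_lit 0x89888807871a) (nat_lit 0) (p (nat_lit 0x8000080000000090787088a) (nat_lit 0) (p (nat_lit 0x8000080000000088706860a) (nat_lit 0) (p (nat_lit 0x10706860782) (nat_lit 0) (p (nat_lit 0x8686058702) (nat_lit 0) (p (nat_lit 0x10605850482) (nat_lit 0) (p (nat_lit 0x8585048402) (nat_lit 0) (p (nat_lit 0x160004) (nat_lit 0) (p (nat_lit 0x60592) (nat_lit 0) (p (nat_lit 0x48512) (nat_lit 0) (p (nat_lit 0x50392) (nat_lit 0)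 (p (nat_lit 0x38312) (nat_lit 0) (p (nat_lit 0x40212) (nat_lit 0) (p (nat_lit 0x28192) (nat_lit 0) (p (nat_lit 0x30092) (nat_lit 0) (p (nat_lit 0x18012) (nat_lit 0) pn))))))))))))))))))))))))) :=
  Cl.node (nat_lit 0x111) (nat_lit 2) (by decide +kernel) (ClAll.succ (ClAll.succ ClAll.zero n109) s168)

def n138 : Cl (O (nat_lit 6)) (R (nat_lit 135377))
    (p (nat_lit 0x109) (nat_lit 1) (p (nat_lit 0xc9) (nat_lit 1) (p (nat_lit 0x119) (nat_lit 1) (p (nat_lit 0xc1) (nat_lit 0) (p (nat_lit 0x81) (nat_lit 1) (p (nat_lit 0x41) (nat_lit 1) (p (nat_lit 0x10b0a09890a9a) (nat_lit 0) (p (nat_lit 0x8a8989088a1a) (nat_lit 0) (p (nat_lit 0x10a090888079a) (nat_lit 0) (p (nat_lit 0x89888807871a) (nat_lit 0) (p (nat_lit 0x8000080000000090787088a) (nat_lit 0) (p (nat_lit 0x8000080000000088706860a) (nat_lit 0) (p (nat_lit 0x10706860782) (nat_lit 0) (p (nat_lit 0x8686058702) (nat_lit 0) (p (nat_lit 0x10605850482)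 (nat_lit 0) (p (nat_lit 0x8585048402) (nat_lit 0) (p (nat_lit 0x160004) (nat_lit 0) (p (nat_lit 0x60592) (nat_lit 0) (p (nat_lit 0x48512) (nat_lit 0) (p (nat_lit 0x50392) (nat_lit 0) (p (nat_lit 0x38312) (nat_lit 0) (p (nat_lit 0x40212) (nat_lit 0) (p (nat_lit 0x28192) (nat_lit 0) (p (nat_lit 0x30092) (nat_lit 0) (p (nat_lit 0x18012) (nat_lit 0) pn))))))))))))))))))))))))) :=
  Cl.node (nat_lit 0x20000c) (nat_lit 2) (by decide +kernel) (ClAll.succ (ClAll.succ ClAll.zero n110) s172)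

def n139 : Cl (O (nat_lit 6)) (R (nat_lit 135377))
    (p (nat_lit 0x101) (nat_lit 0) (p (nat_lit 0x119) (nat_lit 0) (p (nat_lit 0xd1) (nat_lit 0) (p (nat_lit 0x89) (nat_lit 0) (p (nat_lit 0x41) (nat_lit 0) (p (nat_lit 0x10b0a09890a9a) (nat_lit 0) (p (nat_lit 0x8a8989088a1a) (nat_lit 0) (p (nat_lit 0x10a090888079a) (nat_lit 0) (p (nat_lit 0x89888807871a) (nat_lit 0) (p (nat_lit 0x8000080000000090787088a) (nat_lit 0) (p (nat_lit 0x8000080000000088706860a) (nat_lit 0) (p (nat_lit 0x10706860782) (nat_lit 0) (p (nat_lit 0x8686058702) (nat_lit 0) (p (nat_lit 0x10605850482) (nat_lit 0) (p (nat_lit 0x8585048402) (nat_lit 0) (p (nat_lit 0x160004) (nat_lit 0) (p (nat_lit 0x60592) (nat_lit 0) (p (nat_lit 0x48512) (nat_lit 0) (p (nat_lit 0x50392) (nat_lit 0) (p (nat_lit 0x38312) (nat_lit 0) (p (nat_lit 0x40212) (nat_lit 0) (p (nat_lit 0x28192) (nat_lit 0) (p (nat_lit 0x30092) (nat_lit 0) (p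 (nat_lit 0x18012) (nat_lit 0) pn)))))))))))))))))))))))) :=
  Cl.node (nat_lit 0x109) (nat_lit 2) (by decide +kernel) (ClAll.succ (ClAll.succ ClAll.zero s0) n111)

def n140 : Cl (O (nat_lit 6)) (R (nat_lit 135377))
    (p (nat_lit 0x101) (nat_lit 1) (p (nat_lit 0x119) (nat_lit 0) (p (nat_lit 0xd1) (nat_lit 0) (p (nat_lit 0x89) (nat_lit 0) (p (nat_lit 0x41) (nat_lit 0) (p (nat_lit 0x10b0a09890a9a) (nat_lit 0) (p (nat_lit 0x8a8989088a1a) (nat_lit 0) (p (nat_lit 0x10a090888079a) (nat_lit 0) (p (nat_lit 0x89888807871a) (nat_lit 0) (p (nat_lit 0x8000080000000090787088a) (nat_lit 0) (p (nat_lit 0x8000080000000088706860a) (nat_lit 0) (p (nat_lit 0x10706860782) (nat_lit 0) (p (nat_lit 0x8686058702) (nat_lit 0) (p (nat_lit 0x10605850482) (nat_lit 0) (p (nat_lit 0x8585048402) (nat_lit 0) (p (nat_lit 0x160004) (nat_lit 0) (p (nat_lit 0x60592) (nat_lit 0) (p (nat_lit 0x48512) (nat_lit 0) (p (nat_lit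 0x50392) (nat_lit 0) (p (nat_lit 0x38312) (nat_lit 0) (p (nat_lit 0x40212) (nat_lit 0) (p (nat_lit 0x28192) (nat_lit 0) (p (nat_lit 0x30092) (nat_lit 0) (p (nat_lit 0x18012) (nat_lit 0) pn)))))))))))))))))))))))) :=
  Cl.node (nat_lit 0x81) (nat_lit 2) (by decide +kernel) (ClAll.succ (ClAll.succ ClAll.zero n112) n113)

def n141 : Cl (O (nat_lit 6)) (R (nat_lit 135377))
    (p (nat_lit 0xc1) (nat_lit 0) (p (nat_lit 0x119) (nat_lit 1) (p (nat_lit 0xd1) (nat_lit 0) (p (nat_lit 0x89) (nat_lit 0) (p (nat_lit 0x41) (nat_lit 0) (p (nat_lit 0x10b0a09890a9a) (nat_lit 0) (p (nat_lit 0x8a8989088a1a) (nat_lit 0) (p (nat_lit 0x10a090888079a) (nat_lit 0) (p (nat_lit 0x89888807871a) (nat_lit 0) (p (nat_lit 0x8000080000000090787088a) (nat_lit 0) (p (nat_lit 0x8000080000000088706860a) (nat_lit 0) (p (nat_lit 0x10706860782) (nat_lit 0) (p (nat_lit 0x8686058702) (nat_lit 0) (p (nat_lit 0x10605850482)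 (nat_lit 0) (p (nat_lit 0x8585048402) (nat_lit 0) (p (nat_lit 0x160004) (nat_lit 0) (p (nat_lit 0x60592) (nat_lit 0) (p (nat_lit 0x48512) (nat_lit 0) (p (nat_lit 0x50392) (nat_lit 0) (p (nat_lit 0x38312) (nat_lit 0) (p (nat_lit 0x40212) (nat_lit 0) (p (nat_lit 0x28192) (nat_lit 0) (p (nat_lit 0x30092) (nat_lit 0) (p (nat_lit 0x18012) (nat_lit 0) pn)))))))))))))))))))))))) :=
  Cl.node (nat_lit 0xc9) (nat_lit 2) (by decide +kernel) (ClAll.succ (ClAll.succ ClAll.zero s24) n114)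

def n142 : Cl (O (nat_lit 6)) (R (nat_lit 135377))
    (p (nat_lit 0xc1) (nat_lit 1) (p (nat_lit 0x119) (nat_lit 1) (p (nat_lit 0xd1) (nat_lit 0) (p (nat_lit 0x89) (nat_lit 0) (p (nat_lit 0x41) (nat_lit 0) (p (nat_lit 0x10b0a09890a9a) (nat_lit 0) (p (nat_lit 0x8a8989088a1a) (nat_lit 0) (p (nat_lit 0x10a090888079a) (nat_lit 0) (p (nat_lit 0x89888807871a) (nat_lit 0) (p (nat_lit 0x8000080000000090787088a) (nat_lit 0) (p (nat_lit 0x8000080000000088706860a) (nat_lit 0) (p (nat_lit 0x10706860782) (nat_lit 0) (p (nat_lit 0x8686058702) (nat_lit 0) (p (nat_lit 0x10605850482) (nat_lit 0) (p (nat_lit 0x8585048402) (nat_lit 0) (p (nat_lit 0x160004) (nat_lit 0) (p (nat_lit 0x60592) (nat_lit 0) (p (nat_lit 0x48512) (nat_lit 0) (p (nat_lit 0x50392) (nat_lit 0) (p (nat_lit 0x38312) (nat_lit 0) (p (nat_lit 0x40212) (nat_lit 0) (p (nat_lit 0x28192) (nat_lit 0) (p (nat_lit 0x30092) (nat_lit 0) (p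 (nat_lit 0x18012) (nat_lit 0) pn)))))))))))))))))))))))) :=
  Cl.node (nat_lit 0x81) (nat_lit 2) (by decide +kernel) (ClAll.succ (ClAll.succ ClAll.zero n115) n116)

def n143 : Cl (O (nat_lit 6)) (R (nat_lit 135377))
    (p (nat_lit 0x101) (nat_lit 0) (p (nat_lit 0x111) (nat_lit 0) (p (nat_lit 0xd1) (nat_lit 1) (p (nat_lit 0x89) (nat_lit 0) (p (nat_lit 0x41) (nat_lit 0) (p (nat_lit 0x10b0a09890a9a) (nat_lit 0) (p (nat_lit 0x8a8989088a1a) (nat_lit 0) (p (nat_lit 0x10a090888079a) (nat_lit 0) (p (nat_lit 0x89888807871a) (nat_lit 0) (p (nat_lit 0x8000080000000090787088a) (nat_lit 0) (p (nat_lit 0x8000080000000088706860a) (nat_lit 0) (p (nat_lit 0x10706860782) (nat_lit 0) (p (nat_lit 0x8686058702) (nat_lit 0) (p (nat_lit 0x10605850482) (nat_lit 0) (p (nat_lit 0x8585048402) (nat_lit 0) (p (nat_lit 0x160004) (nat_lit 0) (p (nat_lit 0x60592) (nat_lit 0) (p (nat_lit 0x48512) (nat_lit 0) (p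 (nat_lit 0x50392) (nat_lit 0) (p (nat_lit 0x38312) (nat_lit 0) (p (nat_lit 0x40212) (nat_lit 0) (p (nat_lit 0x28192) (nat_lit 0) (p (nat_lit 0x30092) (nat_lit 0) (p (nat_lit 0x18012) (nat_lit 0) pn)))))))))))))))))))))))) :=
  Cl.node (nat_lit 0x109) (nat_lit 2) (by decide +kernel) (ClAll.succ (ClAll.succ ClAll.zero s44) n117)

def n144 : Cl (O (nat_lit 6)) (R (nat_lit 135377))
    (p (nat_lit 0x101) (nat_lit 1) (p (nat_lit 0x111) (nat_lit 0) (p (nat_lit 0xd1) (nat_lit 1) (p (nat_lit 0x89) (nat_lit 0) (p (nat_lit 0x41) (nat_lit 0) (p (nat_lit 0x10b0a09890a9a) (nat_lit 0) (p (nat_lit 0x8a8989088a1a) (nat_lit 0) (p (nat_lit 0x10a090888079a) (nat_lit 0) (p (nat_lit 0x89888807871a) (nat_lit 0) (p (nat_lit 0x8000080000000090787088a) (nat_lit 0) (p (nat_lit 0x8000080000000088706860a) (nat_lit 0) (p (nat_lit 0x10706860782) (nat_lit 0) (p (nat_lit 0x8686058702) (nat_lit 0) (p (nat_lit 0x10605850482)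 (nat_lit 0) (p (nat_lit 0x8585048402) (nat_lit 0) (p (nat_lit 0x160004) (nat_lit 0) (p (nat_lit 0x60592) (nat_lit 0) (p (nat_lit 0x48512) (nat_lit 0) (p (nat_lit 0x50392) (nat_lit 0) (p (nat_lit 0x38312) (nat_lit 0) (p (nat_lit 0x40212) (nat_lit 0) (p (nat_lit 0x28192) (nat_lit 0) (p (nat_lit 0x30092) (nat_lit 0) (p (nat_lit 0x18012) (nat_lit 0) pn)))))))))))))))))))))))) :=
  Cl.node (nat_lit 0x81) (nat_lit 2) (by decide +kernel) (ClAll.succ (ClAll.succ ClAll.zero n118) n119)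

def n145 : Cl (O (nat_lit 6)) (R (nat_lit 135377))
    (p (nat_lit 0x81) (nat_lit 1) (p (nat_lit 0x111) (nat_lit 1) (p (nat_lit 0xd1) (nat_lit 1) (p (nat_lit 0x89) (nat_lit 0) (p (nat_lit 0x41) (nat_lit 0) (p (nat_lit 0x10b0a09890a9a) (nat_lit 0) (p (nat_lit 0x8a8989088a1a) (nat_lit 0) (p (nat_lit 0x10a090888079a) (nat_lit 0) (p (nat_lit 0x89888807871a) (nat_lit 0) (p (nat_lit 0x8000080000000090787088a) (nat_lit 0) (p (nat_lit 0x8000080000000088706860a) (nat_lit 0) (p (nat_lit 0x10706860782) (nat_lit 0) (p (nat_lit 0x8686058702) (nat_lit 0) (p (nat_lit 0x10605850482) (nat_lit 0) (p (nat_lit 0x8585048402) (nat_lit 0) (p (nat_lit 0x160004) (nat_lit 0) (p (nat_lit 0x60592) (nat_lit 0) (p (nat_lit 0x48512) (nat_lit 0) (p (nat_lit 0x50392) (nat_lit 0) (p (nat_lit 0x38312) (nat_lit 0) (p (nat_lit 0x40212) (nat_lit 0) (p (nat_lit 0x28192) (nat_lit 0) (p (nat_lit 0x30092) (nat_lit 0) (p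 (nat_lit 0x18012) (nat_lit 0) pn)))))))))))))))))))))))) :=
  Cl.node (nat_lit 0xc1) (nat_lit 2) (by decide +kernel) (ClAll.succ (ClAll.succ ClAll.zero s57) n120)

def n146 : Cl (O (nat_lit 6)) (R (nat_lit 135377))
    (p (nat_lit 0x101) (nat_lit 0) (p (nat_lit 0x119) (nat_lit 0) (p (nat_lit 0xc9) (nat_lit 0) (p (nat_lit 0x89) (nat_lit 1) (p (nat_lit 0x41) (nat_lit 0) (p (nat_lit 0x10b0a09890a9a) (nat_lit 0) (p (nat_lit 0x8a8989088a1a) (nat_lit 0) (p (nat_lit 0x10a090888079a) (nat_lit 0) (p (nat_lit 0x89888807871a) (nat_lit 0) (p (nat_lit 0x8000080000000090787088a) (nat_lit 0) (p (nat_lit 0x8000080000000088706860a) (nat_lit 0) (p (nat_lit 0x10706860782) (nat_lit 0) (p (nat_lit 0x8686058702) (nat_lit 0) (p (nat_lit 0x10605850482) (nat_lit 0) (p (nat_lit 0x8585048402) (nat_lit 0) (p (nat_lit 0x160004) (nat_lit 0) (p (nat_lit 0x60592) (nat_lit 0) (p (nat_lit 0x48512) (nat_lit 0) (p (nat_lit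 0x50392) (nat_lit 0) (p (nat_lit 0x38312) (nat_lit 0) (p (nat_lit 0x40212) (nat_lit 0) (p (nat_lit 0x28192) (nat_lit 0) (p (nat_lit 0x30092) (nat_lit 0) (p (nat_lit 0x18012) (nat_lit 0) pn)))))))))))))))))))))))) :=
  Cl.node (nat_lit 0x109) (nat_lit 2) (by decide +kernel) (ClAll.succ (ClAll.succ ClAll.zero s61) n121)

def n147 : Cl (O (nat_lit 6)) (R (nat_lit 135377))
    (p (nat_lit 0x101) (nat_lit 1) (p (nat_lit 0x119) (nat_lit 0) (p (nat_lit 0xc9) (nat_lit 0) (p (nat_lit 0x89) (nat_lit 1) (p (nat_lit 0x41) (nat_lit 0) (p (nat_lit 0x10b0a09890a9a) (nat_lit 0) (p (nat_lit 0x8a8989088a1a) (nat_lit 0) (p (nat_lit 0x10a090888079a) (nat_lit 0) (p (nat_lit 0x89888807871a) (nat_lit 0) (p (nat_lit 0x8000080000000090787088a) (nat_lit 0) (p (nat_lit 0x8000080000000088706860a) (nat_lit 0) (p (nat_lit 0x10706860782) (nat_lit 0) (p (nat_lit 0x8686058702) (nat_lit 0) (p (nat_lit 0x10605850482)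 (nat_lit 0) (p (nat_lit 0x8585048402) (nat_lit 0) (p (nat_lit 0x160004) (nat_lit 0) (p (nat_lit 0x60592) (nat_lit 0) (p (nat_lit 0x48512) (nat_lit 0) (p (nat_lit 0x50392) (nat_lit 0) (p (nat_lit 0x38312) (nat_lit 0) (p (nat_lit 0x40212) (nat_lit 0) (p (nat_lit 0x28192) (nat_lit 0) (p (nat_lit 0x30092) (nat_lit 0) (p (nat_lit 0x18012) (nat_lit 0) pn)))))))))))))))))))))))) :=
  Cl.node (nat_lit 0xc1) (nat_lit 2) (by decide +kernel) (ClAll.succ (ClAll.succ ClAll.zero n122) s73)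

def n148 : Cl (O (nat_lit 6)) (R (nat_lit 135377))
    (p (nat_lit 0xc1) (nat_lit 0) (p (nat_lit 0x119) (nat_lit 1) (p (nat_lit 0xc9) (nat_lit 0) (p (nat_lit 0x89) (nat_lit 1) (p (nat_lit 0x41) (nat_lit 0) (p (nat_lit 0x10b0a09890a9a) (nat_lit 0) (p (nat_lit 0x8a8989088a1a) (nat_lit 0) (p (nat_lit 0x10a090888079a) (nat_lit 0) (p (nat_lit 0x89888807871a) (nat_lit 0) (p (nat_lit 0x8000080000000090787088a) (nat_lit 0) (p (nat_lit 0x8000080000000088706860a) (nat_lit 0) (p (nat_lit 0x10706860782) (nat_lit 0) (p (nat_lit 0x8686058702) (nat_lit 0) (p (nat_lit 0x10605850482) (nat_lit 0) (p (nat_lit 0x8585048402) (nat_lit 0) (p (nat_lit 0x160004) (nat_lit 0) (p (nat_lit 0x60592) (nat_lit 0) (p (nat_lit 0x48512) (nat_lit 0) (p (nat_lit 0x50392) (nat_lit 0) (p (nat_lit 0x38312) (nat_lit 0) (p (nat_lit 0x40212) (nat_lit 0) (p (nat_lit 0x28192) (nat_lit 0) (p (nat_lit 0x30092) (nat_lit 0) (p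 (nat_lit 0x18012) (nat_lit 0) pn)))))))))))))))))))))))) :=
  Cl.node (nat_lit 0xd1) (nat_lit 2) (by decide +kernel) (ClAll.succ (ClAll.succ ClAll.zero s74) n123)

def n149 : Cl (O (nat_lit 6)) (R (nat_lit 135377))
    (p (nat_lit 0xc1) (nat_lit 1) (p (nat_lit 0x119) (nat_lit 1) (p (nat_lit 0xc9) (nat_lit 0) (p (nat_lit 0x89) (nat_lit 1) (p (nat_lit 0x41) (nat_lit 0) (p (nat_lit 0x10b0a09890a9a) (nat_lit 0) (p (nat_lit 0x8a8989088a1a) (nat_lit 0) (p (nat_lit 0x10a090888079a) (nat_lit 0) (p (nat_lit 0x89888807871a) (nat_lit 0) (p (nat_lit 0x8000080000000090787088a) (nat_lit 0) (p (nat_lit 0x8000080000000088706860a) (nat_lit 0) (p (nat_lit 0x10706860782) (nat_lit 0) (p (nat_lit 0x8686058702) (nat_lit 0) (p (nat_lit 0x10605850482) (nat_lit 0) (p (nat_lit 0x8585048402) (nat_lit 0) (p (nat_lit 0x160004) (nat_lit 0) (p (nat_lit 0x60592) (nat_lit 0) (p (nat_lit 0x48512) (nat_lit 0) (p (nat_lit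 0x50392) (nat_lit 0) (p (nat_lit 0x38312) (nat_lit 0) (p (nat_lit 0x40212) (nat_lit 0) (p (nat_lit 0x28192) (nat_lit 0) (p (nat_lit 0x30092) (nat_lit 0) (p (nat_lit 0x18012) (nat_lit 0) pn)))))))))))))))))))))))) :=
  Cl.node (nat_lit 0x101) (nat_lit 2) (by decide +kernel) (ClAll.succ (ClAll.succ ClAll.zero n124) s83)

def n150 : Cl (O (nat_lit 6)) (R (nat_lit 135377))
    (p (nat_lit 0x101) (nat_lit 0) (p (nat_lit 0x119) (nat_lit 0) (p (nat_lit 0xd1) (nat_lit 0) (p (nat_lit 0x81) (nat_lit 0) (p (nat_lit 0x41) (nat_lit 1) (p (nat_lit 0x10b0a09890a9a) (nat_lit 0) (p (nat_lit 0x8a8989088a1a) (nat_lit 0) (p (nat_lit 0x10a090888079a) (nat_lit 0) (p (nat_lit 0x89888807871a) (nat_lit 0) (p (nat_lit 0x8000080000000090787088a) (nat_lit 0) (p (nat_lit 0x8000080000000088706860a) (nat_lit 0) (p (nat_lit 0x10706860782) (nat_lit 0) (p (nat_lit 0x8686058702) (nat_lit 0) (p (nat_lit 0x10605850482)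 (nat_lit 0) (p (nat_lit 0x8585048402) (nat_lit 0) (p (nat_lit 0x160004) (nat_lit 0) (p (nat_lit 0x60592) (nat_lit 0) (p (nat_lit 0x48512) (nat_lit 0) (p (nat_lit 0x50392) (nat_lit 0) (p (nat_lit 0x38312) (nat_lit 0) (p (nat_lit 0x40212) (nat_lit 0) (p (nat_lit 0x28192) (nat_lit 0) (p (nat_lit 0x30092) (nat_lit 0) (p (nat_lit 0x18012) (nat_lit 0) pn)))))))))))))))))))))))) :=
  Cl.node (nat_lit 0x109) (nat_lit 2) (by decide +kernel) (ClAll.succ (ClAll.succ ClAll.zero s85) n125)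

def n151 : Cl (O (nat_lit 6)) (R (nat_lit 135377))
    (p (nat_lit 0x101) (nat_lit 1) (p (nat_lit 0x119) (nat_lit 0) (p (nat_lit 0xd1) (nat_lit 0) (p (nat_lit 0x81) (nat_lit 0) (p (nat_lit 0x41) (nat_lit 1) (p (nat_lit 0x10b0a09890a9a) (nat_lit 0) (p (nat_lit 0x8a8989088a1a) (nat_lit 0) (p (nat_lit 0x10a090888079a) (nat_lit 0) (p (nat_lit 0x89888807871a) (nat_lit 0) (p (nat_lit 0x8000080000000090787088a) (nat_lit 0) (p (nat_lit 0x8000080000000088706860a) (nat_lit 0) (p (nat_lit 0x10706860782) (nat_lit 0) (p (nat_lit 0x8686058702) (nat_lit 0) (p (nat_lit 0x10605850482) (nat_lit 0) (p (nat_lit 0x8585048402) (nat_lit 0) (p (nat_lit 0x160004) (nat_lit 0) (p (nat_lit 0x60592) (nat_lit 0) (p (nat_lit 0x48512) (nat_lit 0) (p (nat_lit 0x50392) (nat_lit 0) (p (nat_lit 0x38312) (nat_lit 0) (p (nat_lit 0x40212) (nat_lit 0) (p (nat_lit 0x28192) (nat_lit 0) (p (nat_lit 0x30092) (nat_lit 0) (p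 (nat_lit 0x18012) (nat_lit 0) pn)))))))))))))))))))))))) :=
  Cl.node (nat_lit 0xc1) (nat_lit 2) (by decide +kernel) (ClAll.succ (ClAll.succ ClAll.zero n126) n127)

def n152 : Cl (O (nat_lit 6)) (R (nat_lit 135377))
    (p (nat_lit 0xc1) (nat_lit 0) (p (nat_lit 0x119) (nat_lit 1) (p (nat_lit 0xd1) (nat_lit 0) (p (nat_lit 0x81) (nat_lit 0) (p (nat_lit 0x41) (nat_lit 1) (p (nat_lit 0x10b0a09890a9a) (nat_lit 0) (p (nat_lit 0x8a8989088a1a) (nat_lit 0) (p (nat_lit 0x10a090888079a) (nat_lit 0) (p (nat_lit 0x89888807871a) (nat_lit 0) (p (nat_lit 0x8000080000000090787088a) (nat_lit 0) (p (nat_lit 0x8000080000000088706860a) (nat_lit 0) (p (nat_lit 0x10706860782) (nat_lit 0) (p (nat_lit 0x8686058702) (nat_lit 0) (p (nat_lit 0x10605850482) (nat_lit 0) (p (nat_lit 0x8585048402) (nat_lit 0) (p (nat_lit 0x160004) (nat_lit 0) (p (nat_lit 0x60592) (nat_lit 0) (p (nat_lit 0x48512) (nat_lit 0) (p (nat_lit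 0x50392) (nat_lit 0) (p (nat_lit 0x38312) (nat_lit 0) (p (nat_lit 0x40212) (nat_lit 0) (p (nat_lit 0x28192) (nat_lit 0) (p (nat_lit 0x30092) (nat_lit 0) (p (nat_lit 0x18012) (nat_lit 0) pn)))))))))))))))))))))))) :=
  Cl.node (nat_lit 0xc9) (nat_lit 2) (by decide +kernel) (ClAll.succ (ClAll.succ ClAll.zero s108) n128)

def n153 : Cl (O (nat_lit 6)) (R (nat_lit 135377))
    (p (nat_lit 0xc1) (nat_lit 1) (p (nat_lit 0x119) (nat_lit 1) (p (nat_lit 0xd1) (nat_lit 0) (p (nat_lit 0x81) (nat_lit 0) (p (nat_lit 0x41) (nat_lit 1) (p (nat_lit 0x10b0a09890a9a) (nat_lit 0) (p (nat_lit 0x8a8989088a1a) (nat_lit 0) (p (nat_lit 0x10a090888079a) (nat_lit 0) (p (nat_lit 0x89888807871a) (nat_lit 0) (p (nat_lit 0x8000080000000090787088a) (nat_lit 0) (p (nat_lit 0x8000080000000088706860a) (nat_lit 0) (p (nat_lit 0x10706860782) (nat_lit 0) (p (nat_lit 0x8686058702) (nat_lit 0) (p (nat_lit 0x10605850482)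 (nat_lit 0) (p (nat_lit 0x8585048402) (nat_lit 0) (p (nat_lit 0x160004) (nat_lit 0) (p (nat_lit 0x60592) (nat_lit 0) (p (nat_lit 0x48512) (nat_lit 0) (p (nat_lit 0x50392) (nat_lit 0) (p (nat_lit 0x38312) (nat_lit 0) (p (nat_lit 0x40212) (nat_lit 0) (p (nat_lit 0x28192) (nat_lit 0) (p (nat_lit 0x30092) (nat_lit 0) (p (nat_lit 0x18012) (nat_lit 0) pn)))))))))))))))))))))))) :=
  Cl.node (nat_lit 0x101) (nat_lit 2) (by decide +kernel) (ClAll.succ (ClAll.succ ClAll.zero n129) n130)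

def n154 : Cl (O (nat_lit 6)) (R (nat_lit 135377))
    (p (nat_lit 0x101) (nat_lit 0) (p (nat_lit 0x111) (nat_lit 0) (p (nat_lit 0xd1) (nat_lit 1) (p (nat_lit 0x81) (nat_lit 0) (p (nat_lit 0x41) (nat_lit 1) (p (nat_lit 0x10b0a09890a9a) (nat_lit 0) (p (nat_lit 0x8a8989088a1a) (nat_lit 0) (p (nat_lit 0x10a090888079a) (nat_lit 0) (p (nat_lit 0x89888807871a) (nat_lit 0) (p (nat_lit 0x8000080000000090787088a) (nat_lit 0) (p (nat_lit 0x8000080000000088706860a) (nat_lit 0) (p (nat_lit 0x10706860782) (nat_lit 0) (p (nat_lit 0x8686058702) (nat_lit 0) (p (nat_lit 0x10605850482) (nat_lit 0) (p (nat_lit 0x8585048402) (nat_lit 0) (p (nat_lit 0x160004) (nat_lit 0) (p (nat_lit 0x60592) (nat_lit 0) (p (nat_lit 0x48512) (nat_lit 0) (p (nat_lit 0x50392) (nat_lit 0) (p (nat_lit 0x38312) (nat_lit 0) (p (nat_lit 0x40212) (nat_lit 0) (p (nat_lit 0x28192) (nat_lit 0) (p (nat_lit 0x30092) (nat_lit 0) (p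 (nat_lit 0x18012) (nat_lit 0) pn)))))))))))))))))))))))) :=
  Cl.node (nat_lit 0x109) (nat_lit 2) (by decide +kernel) (ClAll.succ (ClAll.succ ClAll.zero s130) n131)

def n155 : Cl (O (nat_lit 6)) (R (nat_lit 135377))
    (p (nat_lit 0x101) (nat_lit 1) (p (nat_lit 0x111) (nat_lit 0) (p (nat_lit 0xd1) (nat_lit 1) (p (nat_lit 0x81) (nat_lit 0) (p (nat_lit 0x41) (nat_lit 1) (p (nat_lit 0x10b0a09890a9a) (nat_lit 0) (p (nat_lit 0x8a8989088a1a) (nat_lit 0) (p (nat_lit 0x10a090888079a) (nat_lit 0) (p (nat_lit 0x89888807871a) (nat_lit 0) (p (nat_lit 0x8000080000000090787088a) (nat_lit 0) (p (nat_lit 0x8000080000000088706860a) (nat_lit 0) (p (nat_lit 0x10706860782) (nat_lit 0) (p (nat_lit 0x8686058702) (nat_lit 0) (p (nat_lit 0x10605850482) (nat_lit 0) (p (nat_lit 0x8585048402) (nat_lit 0) (p (nat_lit 0x160004) (nat_lit 0) (p (nat_lit 0x60592) (nat_lit 0) (p (nat_lit 0x48512) (nat_lit 0) (p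 (nat_lit 0x50392) (nat_lit 0) (p (nat_lit 0x38312) (nat_lit 0) (p (nat_lit 0x40212) (nat_lit 0) (p (nat_lit 0x28192) (nat_lit 0) (p (nat_lit 0x30092) (nat_lit 0) (p (nat_lit 0x18012) (nat_lit 0) pn)))))))))))))))))))))))) :=
  Cl.node (nat_lit 0x89) (nat_lit 2) (by decide +kernel) (ClAll.succ (ClAll.succ ClAll.zero n132) n133)

def n156 : Cl (O (nat_lit 6)) (R (nat_lit 135377))
    (p (nat_lit 0x89) (nat_lit 1) (p (nat_lit 0x111) (nat_lit 1) (p (nat_lit 0xd1) (nat_lit 1) (p (nat_lit 0x81) (nat_lit 0) (p (nat_lit 0x41) (nat_lit 1) (p (nat_lit 0x10b0a09890a9a) (nat_lit 0) (p (nat_lit 0x8a8989088a1a) (nat_lit 0) (p (nat_lit 0x10a090888079a) (nat_lit 0) (p (nat_lit 0x89888807871a) (nat_lit 0) (p (nat_lit 0x8000080000000090787088a) (nat_lit 0) (p (nat_lit 0x8000080000000088706860a) (nat_lit 0) (p (nat_lit 0x10706860782) (nat_lit 0) (p (nat_lit 0x8686058702) (nat_lit 0) (p (nat_lit 0x10605850482)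 (nat_lit 0) (p (nat_lit 0x8585048402) (nat_lit 0) (p (nat_lit 0x160004) (nat_lit 0) (p (nat_lit 0x60592) (nat_lit 0) (p (nat_lit 0x48512) (nat_lit 0) (p (nat_lit 0x50392) (nat_lit 0) (p (nat_lit 0x38312) (nat_lit 0) (p (nat_lit 0x40212) (nat_lit 0) (p (nat_lit 0x28192) (nat_lit 0) (p (nat_lit 0x30092) (nat_lit 0) (p (nat_lit 0x18012) (nat_lit 0) pn)))))))))))))))))))))))) :=
  Cl.node (nat_lit 0xc9) (nat_lit 2) (by decide +kernel) (ClAll.succ (ClAll.succ ClAll.zero s149) n134)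

def n157 : Cl (O (nat_lit 6)) (R (nat_lit 135377))
    (p (nat_lit 0x101) (nat_lit 0) (p (nat_lit 0x119) (nat_lit 0) (p (nat_lit 0xc1) (nat_lit 0) (p (nat_lit 0x81) (nat_lit 1) (p (nat_lit 0x41) (nat_lit 1) (p (nat_lit 0x10b0a09890a9a) (nat_lit 0) (p (nat_lit 0x8a8989088a1a) (nat_lit 0) (p (nat_lit 0x10a090888079a) (nat_lit 0) (p (nat_lit 0x89888807871a) (nat_lit 0) (p (nat_lit 0x8000080000000090787088a) (nat_lit 0) (p (nat_lit 0x8000080000000088706860a) (nat_lit 0) (p (nat_lit 0x10706860782) (nat_lit 0) (p (nat_lit 0x8686058702) (nat_lit 0) (p (nat_lit 0x10605850482) (nat_lit 0) (p (nat_lit 0x8585048402) (nat_lit 0) (p (nat_lit 0x160004) (nat_lit 0) (p (nat_lit 0x60592) (nat_lit 0) (p (nat_lit 0x48512) (nat_lit 0) (p (nat_lit 0x50392) (nat_lit 0) (p (nat_lit 0x38312) (nat_lit 0) (p (nat_lit 0x40212) (nat_lit 0) (p (nat_lit 0x28192) (nat_lit 0) (p (nat_lit 0x30092) (nat_lit 0) (p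 (nat_lit 0x18012) (nat_lit 0) pn)))))))))))))))))))))))) :=
  Cl.node (nat_lit 0x109) (nat_lit 2) (by decide +kernel) (ClAll.succ (ClAll.succ ClAll.zero s155) n135)

def n158 : Cl (O (nat_lit 6)) (R (nat_lit 135377))
    (p (nat_lit 0x101) (nat_lit 1) (p (nat_lit 0x119) (nat_lit 0) (p (nat_lit 0xc1) (nat_lit 0) (p (nat_lit 0x81) (nat_lit 1) (p (nat_lit 0x41) (nat_lit 1) (p (nat_lit 0x10b0a09890a9a) (nat_lit 0) (p (nat_lit 0x8a8989088a1a) (nat_lit 0) (p (nat_lit 0x10a090888079a) (nat_lit 0) (p (nat_lit 0x89888807871a) (nat_lit 0) (p (nat_lit 0x8000080000000090787088a) (nat_lit 0) (p (nat_lit 0x8000080000000088706860a) (nat_lit 0) (p (nat_lit 0x10706860782) (nat_lit 0) (p (nat_lit 0x8686058702) (nat_lit 0) (p (nat_lit 0x10605850482) (nat_lit 0) (p (nat_lit 0x8585048402) (nat_lit 0) (p (nat_lit 0x160004) (nat_lit 0) (p (nat_lit 0x60592) (nat_lit 0) (p (nat_lit 0x48512) (nat_lit 0) (p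 (nat_lit 0x50392) (nat_lit 0) (p (nat_lit 0x38312) (nat_lit 0) (p (nat_lit 0x40212) (nat_lit 0) (p (nat_lit 0x28192) (nat_lit 0) (p (nat_lit 0x30092) (nat_lit 0) (p (nat_lit 0x18012) (nat_lit 0) pn)))))))))))))))))))))))) :=
  Cl.node (nat_lit 0xc9) (nat_lit 2) (by decide +kernel) (ClAll.succ (ClAll.succ ClAll.zero n136) s163)

def n159 : Cl (O (nat_lit 6)) (R (nat_lit 135377))
    (p (nat_lit 0xc9) (nat_lit 1) (p (nat_lit 0x119) (nat_lit 1) (p (nat_lit 0xc1) (nat_lit 0) (p (nat_lit 0x81) (nat_lit 1) (p (nat_lit 0x41) (nat_lit 1) (p (nat_lit 0x10b0a09890a9a) (nat_lit 0) (p (nat_lit 0x8a8989088a1a) (nat_lit 0) (p (nat_lit 0x10a090888079a) (nat_lit 0) (p (nat_lit 0x89888807871a) (nat_lit 0) (p (nat_lit 0x8000080000000090787088a) (nat_lit 0) (p (nat_lit 0x8000080000000088706860a) (nat_lit 0) (p (nat_lit 0x10706860782) (nat_lit 0) (p (nat_lit 0x8686058702) (nat_lit 0) (p (nat_lit 0x10605850482)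 (nat_lit 0) (p (nat_lit 0x8585048402) (nat_lit 0) (p (nat_lit 0x160004) (nat_lit 0) (p (nat_lit 0x60592) (nat_lit 0) (p (nat_lit 0x48512) (nat_lit 0) (p (nat_lit 0x50392) (nat_lit 0) (p (nat_lit 0x38312) (nat_lit 0) (p (nat_lit 0x40212) (nat_lit 0) (p (nat_lit 0x28192) (nat_lit 0) (p (nat_lit 0x30092) (nat_lit 0) (p (nat_lit 0x18012) (nat_lit 0) pn)))))))))))))))))))))))) :=
  Cl.node (nat_lit 0x109) (nat_lit 2) (by decide +kernel) (ClAll.succ (ClAll.succ ClAll.zero n137) n138)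

def n160 : Cl (O (nat_lit 6)) (R (nat_lit 135377))
    (p (nat_lit 0x119) (nat_lit 0) (p (nat_lit 0xd1) (nat_lit 0) (p (nat_lit 0x89) (nat_lit 0) (p (nat_lit 0x41) (nat_lit 0) (p (nat_lit 0x10b0a09890a9a) (nat_lit 0) (p (nat_lit 0x8a8989088a1a) (nat_lit 0) (p (nat_lit 0x10a090888079a) (nat_lit 0) (p (nat_lit 0x89888807871a) (nat_lit 0) (p (nat_lit 0x8000080000000090787088a) (nat_lit 0) (p (nat_lit 0x8000080000000088706860a) (nat_lit 0) (p (nat_lit 0x10706860782) (nat_lit 0) (p (nat_lit 0x8686058702) (nat_lit 0) (p (nat_lit 0x10605850482) (nat_lit 0) (p (nat_lit 0x8585048402) (nat_lit 0) (p (nat_lit 0x160004) (nat_lit 0) (p (nat_lit 0x60592) (nat_lit 0) (p (nat_lit 0x48512) (nat_lit 0) (p (nat_lit 0x50392) (nat_lit 0) (p (nat_lit 0x38312) (nat_lit 0) (p (nat_lit 0x40212) (nat_lit 0) (p (nat_lit 0x28192) (nat_lit 0) (p (nat_lit 0x30092) (nat_lit 0) (p (nat_lit 0x18012) (nat_lit 0)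 pn))))))))))))))))))))))) :=
  Cl.node (nat_lit 0x101) (nat_lit 2) (by decide +kernel) (ClAll.succ (ClAll.succ ClAll.zero n139) n140)

def n161 : Cl (O (nat_lit 6)) (R (nat_lit 135377))
    (p (nat_lit 0x119) (nat_lit 1) (p (nat_lit 0xd1) (nat_lit 0) (p (nat_lit 0x89) (nat_lit 0) (p (nat_lit 0x41) (nat_lit 0) (p (nat_lit 0x10b0a09890a9a) (nat_lit 0) (p (nat_lit 0x8a8989088a1a) (nat_lit 0) (p (nat_lit 0x10a090888079a) (nat_lit 0) (p (nat_lit 0x89888807871a) (nat_lit 0) (p (nat_lit 0x8000080000000090787088a) (nat_lit 0) (p (nat_lit 0x8000080000000088706860a) (nat_lit 0) (p (nat_lit 0x10706860782) (nat_lit 0) (p (nat_lit 0x8686058702) (nat_lit 0) (p (nat_lit 0x10605850482) (nat_lit 0) (p (nat_lit 0x8585048402) (nat_lit 0) (p (nat_lit 0x160004) (nat_lit 0) (p (nat_lit 0x60592) (nat_lit 0) (p (nat_lit 0x48512) (nat_lit 0) (p (nat_lit 0x50392) (nat_lit 0) (p (nat_lit 0x38312) (nat_lit 0)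 (p (nat_lit 0x40212) (nat_lit 0) (p (nat_lit 0x28192) (nat_lit 0) (p (nat_lit 0x30092) (nat_lit 0) (p (nat_lit 0x18012) (nat_lit 0) pn))))))))))))))))))))))) :=
  Cl.node (nat_lit 0xc1) (nat_lit 2) (by decide +kernel) (ClAll.succ (ClAll.succ ClAll.zero n141) n142)

def n162 : Cl (O (nat_lit 6)) (R (nat_lit 135377))
    (p (nat_lit 0x111) (nat_lit 0) (p (nat_lit 0xd1) (nat_lit 1) (p (nat_lit 0x89) (nat_lit 0) (p (nat_lit 0x41) (nat_lit 0) (p (nat_lit 0x10b0a09890a9a) (nat_lit 0) (p (nat_lit 0x8a8989088a1a) (nat_lit 0) (p (nat_lit 0x10a090888079a) (nat_lit 0) (p (nat_lit 0x89888807871a) (nat_lit 0) (p (nat_lit 0x8000080000000090787088a) (nat_lit 0) (p (nat_lit 0x8000080000000088706860a) (nat_lit 0) (p (nat_lit 0x10706860782) (nat_lit 0) (p (nat_lit 0x8686058702) (nat_lit 0) (p (nat_lit 0x10605850482) (nat_lit 0) (p (nat_lit 0x8585048402) (nat_lit 0) (p (nat_lit 0x160004) (nat_lit 0)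 (p (nat_lit 0x60592) (nat_lit 0) (p (nat_lit 0x48512) (nat_lit 0) (p (nat_lit 0x50392) (nat_lit 0) (p (nat_lit 0x38312) (nat_lit 0) (p (nat_lit 0x40212) (nat_lit 0) (p (nat_lit 0x28192) (nat_lit 0) (p (nat_lit 0x30092) (nat_lit 0) (p (nat_lit 0x18012) (nat_lit 0) pn))))))))))))))))))))))) :=
  Cl.node (nat_lit 0x101) (nat_lit 2) (by decide +kernel) (ClAll.succ (ClAll.succ ClAll.zero n143) n144)

def n163 : Cl (O (nat_lit 6)) (R (nat_lit 135377))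
    (p (nat_lit 0x111) (nat_lit 1) (p (nat_lit 0xd1) (nat_lit 1) (p (nat_lit 0x89) (nat_lit 0) (p (nat_lit 0x41) (nat_lit 0) (p (nat_lit 0x10b0a09890a9a) (nat_lit 0) (p (nat_lit 0x8a8989088a1a) (nat_lit 0) (p (nat_lit 0x10a090888079a) (nat_lit 0) (p (nat_lit 0x89888807871a) (nat_lit 0) (p (nat_lit 0x8000080000000090787088a) (nat_lit 0) (p (nat_lit 0x8000080000000088706860a) (nat_lit 0) (p (nat_lit 0x10706860782) (nat_lit 0) (p (nat_lit 0x8686058702) (nat_lit 0) (p (nat_lit 0x10605850482) (nat_lit 0) (p (nat_lit 0x8585048402) (nat_lit 0) (p (nat_lit 0x160004) (nat_lit 0) (p (nat_lit 0x60592) (nat_lit 0) (p (nat_lit 0x48512) (nat_lit 0) (p (nat_lit 0x50392) (nat_lit 0) (p (nat_lit 0x38312) (nat_lit 0) (p (nat_lit 0x40212) (nat_lit 0) (p (nat_lit 0x28192) (nat_lit 0) (p (nat_lit 0x30092) (nat_lit 0) (p (nat_lit 0x18012) (nat_lit 0) pn))))))))))))))))))))))) :=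
  Cl.node (nat_lit 0x81) (nat_lit 2) (by decide +kernel) (ClAll.succ (ClAll.succ ClAll.zero s56) n145)

def n164 : Cl (O (nat_lit 6)) (R (nat_lit 135377))
    (p (nat_lit 0x119) (nat_lit 0) (p (nat_lit 0xc9) (nat_lit 0) (p (nat_lit 0x89) (nat_lit 1) (p (nat_lit 0x41) (nat_lit 0) (p (nat_lit 0x10b0a09890a9a) (nat_lit 0) (p (nat_lit 0x8a8989088a1a) (nat_lit 0) (p (nat_lit 0x10a090888079a) (nat_lit 0) (p (nat_lit 0x89888807871a) (nat_lit 0) (p (nat_lit 0x8000080000000090787088a) (nat_lit 0) (p (nat_lit 0x8000080000000088706860a) (nat_lit 0) (p (nat_lit 0x10706860782) (nat_lit 0) (p (nat_lit 0x8686058702) (nat_lit 0) (p (nat_lit 0x10605850482) (nat_lit 0) (p (nat_lit 0x8585048402) (nat_lit 0) (p (nat_lit 0x160004) (nat_lit 0) (p (nat_lit 0x60592) (nat_lit 0) (p (nat_lit 0x48512) (nat_lit 0) (p (nat_lit 0x50392) (nat_lit 0) (p (nat_lit 0x38312) (nat_lit 0) (p (nat_lit 0x40212) (nat_lit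 0) (p (nat_lit 0x28192) (nat_lit 0) (p (nat_lit 0x30092) (nat_lit 0) (p (nat_lit 0x18012) (nat_lit 0) pn))))))))))))))))))))))) :=
  Cl.node (nat_lit 0x101) (nat_lit 2) (by decide +kernel) (ClAll.succ (ClAll.succ ClAll.zero n146) n147)

def n165 : Cl (O (nat_lit 6)) (R (nat_lit 135377))
    (p (nat_lit 0x119) (nat_lit 1) (p (nat_lit 0xc9) (nat_lit 0) (p (nat_lit 0x89) (nat_lit 1) (p (nat_lit 0x41) (nat_lit 0) (p (nat_lit 0x10b0a09890a9a) (nat_lit 0) (p (nat_lit 0x8a8989088a1a) (nat_lit 0) (p (nat_lit 0x10a090888079a) (nat_lit 0) (p (nat_lit 0x89888807871a) (nat_lit 0) (p (nat_lit 0x8000080000000090787088a) (nat_lit 0) (p (nat_lit 0x8000080000000088706860a) (nat_lit 0) (p (nat_lit 0x10706860782) (nat_lit 0) (p (nat_lit 0x8686058702) (nat_lit 0) (p (nat_lit 0x10605850482) (nat_lit 0) (p (nat_lit 0x8585048402) (nat_lit 0) (p (nat_lit 0x160004) (nat_lit 0) (p (nat_lit 0x60592) (nat_lit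 0) (p (nat_lit 0x48512) (nat_lit 0) (p (nat_lit 0x50392) (nat_lit 0) (p (nat_lit 0x38312) (nat_lit 0) (p (nat_lit 0x40212) (nat_lit 0) (p (nat_lit 0x28192) (nat_lit 0) (p (nat_lit 0x30092) (nat_lit 0) (p (nat_lit 0x18012) (nat_lit 0) pn))))))))))))))))))))))) :=
  Cl.node (nat_lit 0xc1) (nat_lit 2) (by decide +kernel) (ClAll.succ (ClAll.succ ClAll.zero n148) n149)

def n166 : Cl (O (nat_lit 6)) (R (nat_lit 135377))
    (p (nat_lit 0x119) (nat_lit 0) (p (nat_lit 0xd1) (nat_lit 0) (p (nat_lit 0x81) (nat_lit 0) (p (nat_lit 0x41) (nat_lit 1) (p (nat_lit 0x10b0a09890a9a) (nat_lit 0) (p (nat_lit 0x8a8989088a1a) (nat_lit 0) (p (nat_lit 0x10a090888079a) (nat_lit 0) (p (nat_lit 0x89888807871a) (nat_lit 0) (p (nat_lit 0x8000080000000090787088a) (nat_lit 0) (p (nat_lit 0x8000080000000088706860a) (nat_lit 0) (p (nat_lit 0x10706860782) (nat_lit 0) (p (nat_lit 0x8686058702) (nat_lit 0) (p (nat_lit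 0x10605850482) (nat_lit 0) (p (nat_lit 0x8585048402) (nat_lit 0) (p (nat_lit 0x160004) (nat_lit 0) (p (nat_lit 0x60592) (nat_lit 0) (p (nat_lit 0x48512) (nat_lit 0) (p (nat_lit 0x50392) (nat_lit 0) (p (nat_lit 0x38312) (nat_lit 0) (p (nat_lit 0x40212) (nat_lit 0) (p (nat_lit 0x28192) (nat_lit 0) (p (nat_lit 0x30092) (nat_lit 0) (p (nat_lit 0x18012) (nat_lit 0) pn))))))))))))))))))))))) :=
  Cl.node (nat_lit 0x101) (nat_lit 2) (by decide +kernel) (ClAll.succ (ClAll.succ ClAll.zero n150) n151)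

def n167 : Cl (O (nat_lit 6)) (R (nat_lit 135377))
    (p (nat_lit 0x119) (nat_lit 1) (p (nat_lit 0xd1) (nat_lit 0) (p (nat_lit 0x81) (nat_lit 0) (p (nat_lit 0x41) (nat_lit 1) (p (nat_lit 0x10b0a09890a9a) (nat_lit 0) (p (nat_lit 0x8a8989088a1a) (nat_lit 0) (p (nat_lit 0x10a090888079a) (nat_lit 0) (p (nat_lit 0x89888807871a) (nat_lit 0) (p (nat_lit 0x8000080000000090787088a) (nat_lit 0) (p (nat_lit 0x8000080000000088706860a) (nat_lit 0) (p (nat_lit 0x10706860782) (nat_lit 0) (p (nat_lit 0x8686058702) (nat_lit 0) (p (nat_lit 0x10605850482) (nat_lit 0) (p (nat_lit 0x8585048402) (nat_lit 0) (p (nat_lit 0x160004) (nat_lit 0) (p (nat_lit 0x60592) (nat_lit 0) (p (nat_lit 0x48512) (nat_lit 0) (p (nat_lit 0x50392) (nat_lit 0) (p (nat_lit 0x38312) (nat_lit 0) (p (nat_lit 0x40212) (nat_lit 0) (p (nat_lit 0x28192) (nat_lit 0) (p (nat_lit 0x30092) (nat_lit 0) (p (nat_lit 0x18012) (nat_lit 0)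 pn))))))))))))))))))))))) :=
  Cl.node (nat_lit 0xc1) (nat_lit 2) (by decide +kernel) (ClAll.succ (ClAll.succ ClAll.zero n152) n153)

def n168 : Cl (O (nat_lit 6)) (R (nat_lit 135377))
    (p (nat_lit 0x111) (nat_lit 0) (p (nat_lit 0xd1) (nat_lit 1) (p (nat_lit 0x81) (nat_lit 0) (p (nat_lit 0x41) (nat_lit 1) (p (nat_lit 0x10b0a09890a9a) (nat_lit 0) (p (nat_lit 0x8a8989088a1a) (nat_lit 0) (p (nat_lit 0x10a090888079a) (nat_lit 0) (p (nat_lit 0x89888807871a) (nat_lit 0) (p (nat_lit 0x8000080000000090787088a) (nat_lit 0) (p (nat_lit 0x8000080000000088706860a) (nat_lit 0) (p (nat_lit 0x10706860782) (nat_lit 0) (p (nat_lit 0x8686058702) (nat_lit 0) (p (nat_lit 0x10605850482) (nat_lit 0) (p (nat_lit 0x8585048402) (nat_lit 0) (p (nat_lit 0x160004) (nat_lit 0) (p (nat_lit 0x60592) (nat_lit 0) (p (nat_lit 0x48512) (nat_lit 0) (p (nat_lit 0x50392) (nat_lit 0) (p (nat_lit 0x38312) (nat_lit 0)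 (p (nat_lit 0x40212) (nat_lit 0) (p (nat_lit 0x28192) (nat_lit 0) (p (nat_lit 0x30092) (nat_lit 0) (p (nat_lit 0x18012) (nat_lit 0) pn))))))))))))))))))))))) :=
  Cl.node (nat_lit 0x101) (nat_lit 2) (by decide +kernel) (ClAll.succ (ClAll.succ ClAll.zero n154) n155)

def n169 : Cl (O (nat_lit 6)) (R (nat_lit 135377))
    (p (nat_lit 0x111) (nat_lit 1) (p (nat_lit 0xd1) (nat_lit 1) (p (nat_lit 0x81) (nat_lit 0) (p (nat_lit 0x41) (nat_lit 1) (p (nat_lit 0x10b0a09890a9a) (nat_lit 0) (p (nat_lit 0x8a8989088a1a) (nat_lit 0) (p (nat_lit 0x10a090888079a) (nat_lit 0) (p (nat_lit 0x89888807871a) (nat_lit 0) (p (nat_lit 0x8000080000000090787088a) (nat_lit 0) (p (nat_lit 0x8000080000000088706860a) (nat_lit 0) (p (nat_lit 0x10706860782) (nat_lit 0) (p (nat_lit 0x8686058702) (nat_lit 0) (p (nat_lit 0x10605850482) (nat_lit 0) (p (nat_lit 0x8585048402) (nat_lit 0) (p (nat_lit 0x160004) (nat_lit 0)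 (p (nat_lit 0x60592) (nat_lit 0) (p (nat_lit 0x48512) (nat_lit 0) (p (nat_lit 0x50392) (nat_lit 0) (p (nat_lit 0x38312) (nat_lit 0) (p (nat_lit 0x40212) (nat_lit 0) (p (nat_lit 0x28192) (nat_lit 0) (p (nat_lit 0x30092) (nat_lit 0) (p (nat_lit 0x18012) (nat_lit 0) pn))))))))))))))))))))))) :=
  Cl.node (nat_lit 0x89) (nat_lit 2) (by decide +kernel) (ClAll.succ (ClAll.succ ClAll.zero s148) n156)

def n170 : Cl (O (nat_lit 6)) (R (nat_lit 135377))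
    (p (nat_lit 0x119) (nat_lit 0) (p (nat_lit 0xc1) (nat_lit 0) (p (nat_lit 0x81) (nat_lit 1) (p (nat_lit 0x41) (nat_lit 1) (p (nat_lit 0x10b0a09890a9a) (nat_lit 0) (p (nat_lit 0x8a8989088a1a) (nat_lit 0) (p (nat_lit 0x10a090888079a) (nat_lit 0) (p (nat_lit 0x89888807871a) (nat_lit 0) (p (nat_lit 0x8000080000000090787088a) (nat_lit 0) (p (nat_lit 0x8000080000000088706860a) (nat_lit 0) (p (nat_lit 0x10706860782) (nat_lit 0) (p (nat_lit 0x8686058702) (nat_lit 0) (p (nat_lit 0x10605850482) (nat_lit 0) (p (nat_lit 0x8585048402) (nat_lit 0) (p (nat_lit 0x160004) (nat_lit 0) (p (nat_lit 0x60592) (nat_lit 0) (p (nat_lit 0x48512) (nat_lit 0) (p (nat_lit 0x50392) (nat_lit 0) (p (nat_lit 0x38312) (nat_lit 0) (p (nat_lit 0x40212) (nat_lit 0) (p (nat_lit 0x28192) (nat_lit 0) (p (nat_lit 0x30092) (nat_lit 0) (p (nat_lit 0x18012) (nat_lit 0) pn))))))))))))))))))))))) :=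
  Cl.node (nat_lit 0x101) (nat_lit 2) (by decide +kernel) (ClAll.succ (ClAll.succ ClAll.zero n157) n158)

def n171 : Cl (O (nat_lit 6)) (R (nat_lit 135377))
    (p (nat_lit 0x119) (nat_lit 1) (p (nat_lit 0xc1) (nat_lit 0) (p (nat_lit 0x81) (nat_lit 1) (p (nat_lit 0x41) (nat_lit 1) (p (nat_lit 0x10b0a09890a9a) (nat_lit 0) (p (nat_lit 0x8a8989088a1a) (nat_lit 0) (p (nat_lit 0x10a090888079a) (nat_lit 0) (p (nat_lit 0x89888807871a) (nat_lit 0) (p (nat_lit 0x8000080000000090787088a) (nat_lit 0) (p (nat_lit 0x8000080000000088706860a) (nat_lit 0) (p (nat_lit 0x10706860782) (nat_lit 0) (p (nat_lit 0x8686058702) (nat_lit 0) (p (nat_lit 0x10605850482) (nat_lit 0) (p (nat_lit 0x8585048402) (nat_lit 0) (p (nat_lit 0x160004) (nat_lit 0) (p (nat_lit 0x60592) (nat_lit 0) (p (nat_lit 0x48512) (nat_lit 0) (p (nat_lit 0x50392) (nat_lit 0) (p (nat_lit 0x38312) (nat_lit 0) (p (nat_lit 0x40212) (nat_lit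 0) (p (nat_lit 0x28192) (nat_lit 0) (p (nat_lit 0x30092) (nat_lit 0) (p (nat_lit 0x18012) (nat_lit 0) pn))))))))))))))))))))))) :=
  Cl.node (nat_lit 0xc9) (nat_lit 2) (by decide +kernel) (ClAll.succ (ClAll.succ ClAll.zero s164) n159)

def n172 : Cl (O (nat_lit 6)) (R (nat_lit 135377))
    (p (nat_lit 0xd1) (nat_lit 0) (p (nat_lit 0x89) (nat_lit 0) (p (nat_lit 0x41) (nat_lit 0) (p (nat_lit 0x10b0a09890a9a) (nat_lit 0) (p (nat_lit 0x8a8989088a1a) (nat_lit 0) (p (nat_lit 0x10a090888079a) (nat_lit 0) (p (nat_lit 0x89888807871a) (nat_lit 0) (p (nat_lit 0x8000080000000090787088a) (nat_lit 0) (p (nat_lit 0x8000080000000088706860a) (nat_lit 0) (p (nat_lit 0x10706860782) (nat_lit 0) (p (nat_lit 0x8686058702) (nat_lit 0) (p (nat_lit 0x10605850482) (nat_lit 0) (p (nat_lit 0x8585048402) (nat_lit 0) (p (nat_lit 0x160004) (nat_lit 0) (p (nat_lit 0x60592) (nat_lit 0) (p (nat_lit 0x48512) (nat_lit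 0) (p (nat_lit 0x50392) (nat_lit 0) (p (nat_lit 0x38312) (nat_lit 0) (p (nat_lit 0x40212) (nat_lit 0) (p (nat_lit 0x28192) (nat_lit 0) (p (nat_lit 0x30092) (nat_lit 0) (p (nat_lit 0x18012) (nat_lit 0) pn)))))))))))))))))))))) :=
  Cl.node (nat_lit 0x119) (nat_lit 2) (by decide +kernel) (ClAll.succ (ClAll.succ ClAll.zero n160) n161)

def n173 : Cl (O (nat_lit 6)) (R (nat_lit 135377))
    (p (nat_lit 0xd1) (nat_lit 1) (p (nat_lit 0x89) (nat_lit 0) (p (nat_lit 0x41) (nat_lit 0) (p (nat_lit 0x10b0a09890a9a) (nat_lit 0) (p (nat_lit 0x8a8989088a1a) (nat_lit 0) (p (nat_lit 0x10a090888079a) (nat_lit 0) (p (nat_lit 0x89888807871a) (nat_lit 0) (p (nat_lit 0x8000080000000090787088a) (nat_lit 0) (p (nat_lit 0x8000080000000088706860a) (nat_lit 0) (p (nat_lit 0x10706860782) (nat_lit 0) (p (nat_lit 0x8686058702) (nat_lit 0) (p (nat_lit 0x10605850482) (nat_lit 0) (p (nat_lit 0x8585048402) (nat_lit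 0) (p (nat_lit 0x160004) (nat_lit 0) (p (nat_lit 0x60592) (nat_lit 0) (p (nat_lit 0x48512) (nat_lit 0) (p (nat_lit 0x50392) (nat_lit 0) (p (nat_lit 0x38312) (nat_lit 0) (p (nat_lit 0x40212) (nat_lit 0) (p (nat_lit 0x28192) (nat_lit 0) (p (nat_lit 0x30092) (nat_lit 0) (p (nat_lit 0x18012) (nat_lit 0) pn)))))))))))))))))))))) :=
  Cl.node (nat_lit 0x111) (nat_lit 2) (by decide +kernel) (ClAll.succ (ClAll.succ ClAll.zero n162) n163)

def n174 : Cl (O (nat_lit 6)) (R (nat_lit 135377))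
    (p (nat_lit 0xc9) (nat_lit 0) (p (nat_lit 0x89) (nat_lit 1) (p (nat_lit 0x41) (nat_lit 0) (p (nat_lit 0x10b0a09890a9a) (nat_lit 0) (p (nat_lit 0x8a8989088a1a) (nat_lit 0) (p (nat_lit 0x10a090888079a) (nat_lit 0) (p (nat_lit 0x89888807871a) (nat_lit 0) (p (nat_lit 0x8000080000000090787088a) (nat_lit 0) (p (nat_lit 0x8000080000000088706860a) (nat_lit 0) (p (nat_lit 0x10706860782) (nat_lit 0) (p (nat_lit 0x8686058702) (nat_lit 0) (p (nat_lit 0x10605850482) (nat_lit 0) (p (nat_lit 0x8585048402) (nat_lit 0) (p (nat_lit 0x160004) (nat_lit 0) (p (nat_lit 0x60592) (nat_lit 0) (p (nat_lit 0x48512) (nat_lit 0) (p (nat_lit 0x50392) (nat_lit 0) (p (nat_lit 0x38312) (nat_lit 0) (p (nat_lit 0x40212) (nat_lit 0) (p (nat_lit 0x28192) (nat_lit 0) (p (nat_lit 0x30092) (nat_lit 0) (p (nat_lit 0x18012) (nat_lit 0) pn)))))))))))))))))))))) :=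
  Cl.node (nat_lit 0x119) (nat_lit 2) (by decide +kernel) (ClAll.succ (ClAll.succ ClAll.zero n164) n165)

def n175 : Cl (O (nat_lit 6)) (R (nat_lit 135377))
    (p (nat_lit 0xd1) (nat_lit 0) (p (nat_lit 0x81) (nat_lit 0) (p (nat_lit 0x41) (nat_lit 1) (p (nat_lit 0x10b0a09890a9a) (nat_lit 0) (p (nat_lit 0x8a8989088a1a) (nat_lit 0) (p (nat_lit 0x10a090888079a) (nat_lit 0) (p (nat_lit 0x89888807871a) (nat_lit 0) (p (nat_lit 0x8000080000000090787088a) (nat_lit 0) (p (nat_lit 0x8000080000000088706860a) (nat_lit 0) (p (nat_lit 0x10706860782) (nat_lit 0) (p (nat_lit 0x8686058702) (nat_lit 0) (p (nat_lit 0x10605850482) (nat_lit 0) (p (nat_lit 0x8585048402) (nat_lit 0) (p (nat_lit 0x160004) (nat_lit 0) (p (nat_lit 0x60592) (nat_lit 0) (p (nat_lit 0x48512) (nat_lit 0) (p (nat_lit 0x50392) (nat_lit 0) (p (nat_lit 0x38312) (nat_lit 0) (p (nat_lit 0x40212) (nat_lit 0) (p (nat_lit 0x28192) (nat_lit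 0) (p (nat_lit 0x30092) (nat_lit 0) (p (nat_lit 0x18012) (nat_lit 0) pn)))))))))))))))))))))) :=
  Cl.node (nat_lit 0x119) (nat_lit 2) (by decide +kernel) (ClAll.succ (ClAll.succ ClAll.zero n166) n167)

def n176 : Cl (O (nat_lit 6)) (R (nat_lit 135377))
    (p (nat_lit 0xd1) (nat_lit 1) (p (nat_lit 0x81) (nat_lit 0) (p (nat_lit 0x41) (nat_lit 1) (p (nat_lit 0x10b0a09890a9a) (nat_lit 0) (p (nat_lit 0x8a8989088a1a) (nat_lit 0) (p (nat_lit 0x10a090888079a) (nat_lit 0) (p (nat_lit 0x89888807871a) (nat_lit 0) (p (nat_lit 0x8000080000000090787088a) (nat_lit 0) (p (nat_lit 0x8000080000000088706860a) (nat_lit 0) (p (nat_lit 0x10706860782) (nat_lit 0) (p (nat_lit 0x8686058702) (nat_lit 0) (p (nat_lit 0x10605850482) (nat_lit 0) (p (nat_lit 0x8585048402) (nat_lit 0) (p (nat_lit 0x160004) (nat_lit 0) (p (nat_lit 0x60592) (nat_lit 0) (p (nat_lit 0x48512) (nat_lit 0) (p (nat_lit 0x50392) (nat_lit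 0) (p (nat_lit 0x38312) (nat_lit 0) (p (nat_lit 0x40212) (nat_lit 0) (p (nat_lit 0x28192) (nat_lit 0) (p (nat_lit 0x30092) (nat_lit 0) (p (nat_lit 0x18012) (nat_lit 0) pn)))))))))))))))))))))) :=
  Cl.node (nat_lit 0x111) (nat_lit 2) (by decide +kernel) (ClAll.succ (ClAll.succ ClAll.zero n168) n169)

def n177 : Cl (O (nat_lit 6)) (R (nat_lit 135377))
    (p (nat_lit 0xc1) (nat_lit 0) (p (nat_lit 0x81) (nat_lit 1) (p (nat_lit 0x41) (nat_lit 1) (p (nat_lit 0x10b0a09890a9a) (nat_lit 0) (p (nat_lit 0x8a8989088a1a) (nat_lit 0) (p (nat_lit 0x10a090888079a) (nat_lit 0) (p (nat_lit 0x89888807871a) (nat_lit 0) (p (nat_lit 0x8000080000000090787088a) (nat_lit 0) (p (nat_lit 0x8000080000000088706860a) (nat_lit 0) (p (nat_lit 0x10706860782) (nat_lit 0) (p (nat_lit 0x8686058702) (nat_lit 0) (p (nat_lit 0x10605850482) (nat_lit 0) (p (nat_lit 0x8585048402) (nat_lit 0) (p (nat_lit 0x160004) (nat_lit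 0) (p (nat_lit 0x60592) (nat_lit 0) (p (nat_lit 0x48512) (nat_lit 0) (p (nat_lit 0x50392) (nat_lit 0) (p (nat_lit 0x38312) (nat_lit 0) (p (nat_lit 0x40212) (nat_lit 0) (p (nat_lit 0x28192) (nat_lit 0) (p (nat_lit 0x30092) (nat_lit 0) (p (nat_lit 0x18012) (nat_lit 0) pn)))))))))))))))))))))) :=
  Cl.node (nat_lit 0x119) (nat_lit 2) (by decide +kernel) (ClAll.succ (ClAll.succ ClAll.zero n170) n171)

def n178 : Cl (O (nat_lit 6)) (R (nat_lit 135377))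
    (p (nat_lit 0x89) (nat_lit 0) (p (nat_lit 0x41) (nat_lit 0) (p (nat_lit 0x10b0a09890a9a) (nat_lit 0) (p (nat_lit 0x8a8989088a1a) (nat_lit 0) (p (nat_lit 0x10a090888079a) (nat_lit 0) (p (nat_lit 0x89888807871a) (nat_lit 0) (p (nat_lit 0x8000080000000090787088a) (nat_lit 0) (p (nat_lit 0x8000080000000088706860a) (nat_lit 0) (p (nat_lit 0x10706860782) (nat_lit 0) (p (nat_lit 0x8686058702) (nat_lit 0) (p (nat_lit 0x10605850482) (nat_lit 0) (p (nat_lit 0x8585048402) (nat_lit 0) (p (nat_lit 0x160004) (nat_lit 0) (p (nat_lit 0x60592) (nat_lit 0) (p (nat_lit 0x48512) (nat_lit 0) (p (nat_lit 0x50392) (nat_lit 0) (p (nat_lit 0x38312) (nat_lit 0) (p (nat_lit 0x40212) (nat_lit 0) (p (nat_lit 0x28192) (nat_lit 0) (p (nat_lit 0x30092) (nat_lit 0) (p (nat_lit 0x18012) (nat_lit 0) pn))))))))))))))))))))) :=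
  Cl.node (nat_lit 0xd1) (nat_lit 2) (by decide +kernel) (ClAll.succ (ClAll.succ ClAll.zero n172) n173)

def n179 : Cl (O (nat_lit 6)) (R (nat_lit 135377))
    (p (nat_lit 0x89) (nat_lit 1) (p (nat_lit 0x41) (nat_lit 0) (p (nat_lit 0x10b0a09890a9a) (nat_lit 0) (p (nat_lit 0x8a8989088a1a) (nat_lit 0) (p (nat_lit 0x10a090888079a) (nat_lit 0) (p (nat_lit 0x89888807871a) (nat_lit 0) (p (nat_lit 0x8000080000000090787088a) (nat_lit 0) (p (nat_lit 0x8000080000000088706860a) (nat_lit 0) (p (nat_lit 0x10706860782) (nat_lit 0) (p (nat_lit 0x8686058702) (nat_lit 0) (p (nat_lit 0x10605850482) (nat_lit 0) (p (nat_lit 0x8585048402) (nat_lit 0) (p (nat_lit 0x160004) (nat_lit 0) (p (nat_lit 0x60592) (nat_lit 0) (p (nat_lit 0x48512) (nat_lit 0) (p (nat_lit 0x50392) (nat_lit 0) (p (nat_lit 0x38312) (nat_lit 0) (p (nat_lit 0x40212) (nat_lit 0) (p (nat_lit 0x28192) (nat_lit 0) (p (nat_lit 0x30092) (nat_lit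 0) (p (nat_lit 0x18012) (nat_lit 0) pn))))))))))))))))))))) :=
  Cl.node (nat_lit 0xc9) (nat_lit 2) (by decide +kernel) (ClAll.succ (ClAll.succ ClAll.zero n174) s84)

def n180 : Cl (O (nat_lit 6)) (R (nat_lit 135377))
    (p (nat_lit 0x81) (nat_lit 0) (p (nat_lit 0x41) (nat_lit 1) (p (nat_lit 0x10b0a09890a9a) (nat_lit 0) (p (nat_lit 0x8a8989088a1a) (nat_lit 0) (p (nat_lit 0x10a090888079a) (nat_lit 0) (p (nat_lit 0x89888807871a) (nat_lit 0) (p (nat_lit 0x8000080000000090787088a) (nat_lit 0) (p (nat_lit 0x8000080000000088706860a) (nat_lit 0) (p (nat_lit 0x10706860782) (nat_lit 0) (p (nat_lit 0x8686058702) (nat_lit 0) (p (nat_lit 0x10605850482) (nat_lit 0) (p (nat_lit 0x8585048402) (nat_lit 0) (p (nat_lit 0x160004) (nat_lit 0) (p (nat_lit 0x60592) (nat_lit 0) (p (nat_lit 0x48512) (nat_lit 0) (p (nat_lit 0x50392) (nat_lit 0) (p (nat_lit 0x38312) (nat_lit 0) (p (nat_lit 0x40212) (nat_lit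 0) (p (nat_lit 0x28192) (nat_lit 0) (p (nat_lit 0x30092) (nat_lit 0) (p (nat_lit 0x18012) (nat_lit 0) pn))))))))))))))))))))) :=
  Cl.node (nat_lit 0xd1) (nat_lit 2) (by decide +kernel) (ClAll.succ (ClAll.succ ClAll.zero n175) n176)

def n181 : Cl (O (nat_lit 6)) (R (nat_lit 135377))
    (p (nat_lit 0x81) (nat_lit 1) (p (nat_lit 0x41) (nat_lit 1) (p (nat_lit 0x10b0a09890a9a) (nat_lit 0) (p (nat_lit 0x8a8989088a1a) (nat_lit 0) (p (nat_lit 0x10a090888079a) (nat_lit 0) (p (nat_lit 0x89888807871a) (nat_lit 0) (p (nat_lit 0x8000080000000090787088a) (nat_lit 0) (p (nat_lit 0x8000080000000088706860a) (nat_lit 0) (p (nat_lit 0x10706860782) (nat_lit 0) (p (nat_lit 0x8686058702) (nat_lit 0) (p (nat_lit 0x10605850482) (nat_lit 0) (p (nat_lit 0x8585048402) (nat_lit 0) (p (nat_lit 0x160004) (nat_lit 0) (p (nat_lit 0x60592) (nat_lit 0) (p (nat_lit 0x48512) (nat_lit 0) (p (nat_lit 0x50392) (nat_lit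 0) (p (nat_lit 0x38312) (nat_lit 0) (p (nat_lit 0x40212) (nat_lit 0) (p (nat_lit 0x28192) (nat_lit 0) (p (nat_lit 0x30092) (nat_lit 0) (p (nat_lit 0x18012) (nat_lit 0) pn))))))))))))))))))))) :=
  Cl.node (nat_lit 0xc1) (nat_lit 2) (by decide +kernel) (ClAll.succ (ClAll.succ ClAll.zero n177) s173)

def n182 : Cl (O (nat_lit 6)) (R (nat_lit 135377))
    (p (nat_lit 0x41) (nat_lit 0) (p (nat_lit 0x10b0a09890a9a) (nat_lit 0) (p (nat_lit 0x8a8989088a1a) (nat_lit 0) (p (nat_lit 0x10a090888079a) (nat_lit 0) (p (nat_lit 0x89888807871a) (nat_lit 0) (p (nat_lit 0x8000080000000090787088a) (nat_lit 0) (p (nat_lit 0x8000080000000088706860a) (nat_lit 0) (p (nat_lit 0x10706860782) (nat_lit 0) (p (nat_lit 0x8686058702) (nat_lit 0) (p (nat_lit 0x10605850482) (nat_lit 0) (p (nat_lit 0x8585048402) (nat_lit 0) (p (nat_lit 0x160004) (nat_lit 0) (p (nat_lit 0x60592) (nat_lit 0) (p (nat_lit 0x48512) (nat_lit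 0) (p (nat_lit 0x50392) (nat_lit 0) (p (nat_lit 0x38312) (nat_lit 0) (p (nat_lit 0x40212) (nat_lit 0) (p (nat_lit 0x28192) (nat_lit 0) (p (nat_lit 0x30092) (nat_lit 0) (p (nat_lit 0x18012) (nat_lit 0) pn)))))))))))))))))))) :=
  Cl.node (nat_lit 0x89) (nat_lit 2) (by decide +kernel) (ClAll.succ (ClAll.succ ClAll.zero n178) n179)

def n183 : Cl (O (nat_lit 6)) (R (nat_lit 135377))
    (p (nat_lit 0x41) (nat_lit 1) (p (nat_lit 0x10b0a09890a9a) (nat_lit 0) (p (nat_lit 0x8a8989088a1a) (nat_lit 0) (p (nat_lit 0x10a090888079a) (nat_lit 0) (p (nat_lit 0x89888807871a) (nat_lit 0) (p (nat_lit 0x8000080000000090787088a) (nat_lit 0) (p (nat_lit 0x8000080000000088706860a) (nat_lit 0) (p (nat_lit 0x10706860782) (nat_lit 0) (p (nat_lit 0x8686058702) (nat_lit 0) (p (nat_lit 0x10605850482) (nat_lit 0) (p (nat_lit 0x8585048402) (nat_lit 0) (p (nat_lit 0x160004) (nat_lit 0) (p (nat_lit 0x60592) (nat_lit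 0) (p (nat_lit 0x48512) (nat_lit 0) (p (nat_lit 0x50392) (nat_lit 0) (p (nat_lit 0x38312) (nat_lit 0) (p (nat_lit 0x40212) (nat_lit 0) (p (nat_lit 0x28192) (nat_lit 0) (p (nat_lit 0x30092) (nat_lit 0) (p (nat_lit 0x18012) (nat_lit 0) pn)))))))))))))))))))) :=
  Cl.node (nat_lit 0x81) (nat_lit 2) (by decide +kernel) (ClAll.succ (ClAll.succ ClAll.zero n180) n181)

def n184 : Cl (O (nat_lit 6)) (R (nat_lit 135377))
    (p (nat_lit 0x10b0a09890a9a) (nat_lit 0) (p (nat_lit 0x8a8989088a1a) (nat_lit 0) (p (nat_lit 0x10a090888079a) (nat_lit 0) (p (nat_lit 0x89888807871a) (nat_lit 0) (p (nat_lit 0x8000080000000090787088a) (nat_lit 0) (p (nat_lit 0x8000080000000088706860a) (nat_lit 0) (p (nat_lit 0x10706860782) (nat_lit 0) (p (nat_lit 0x8686058702) (nat_lit 0) (p (nat_lit 0x10605850482) (nat_lit 0) (p (nat_lit 0x8585048402) (nat_lit 0) (p (nat_lit 0x160004) (nat_lit 0) (p (nat_lit 0x60592)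 (nat_lit 0) (p (nat_lit 0x48512) (nat_lit 0) (p (nat_lit 0x50392) (nat_lit 0) (p (nat_lit 0x38312) (nat_lit 0) (p (nat_lit 0x40212) (nat_lit 0) (p (nat_lit 0x28192) (nat_lit 0) (p (nat_lit 0x30092) (nat_lit 0) (p (nat_lit 0x18012) (nat_lit 0) pn))))))))))))))))))) :=
  Cl.node (nat_lit 0x41) (nat_lit 2) (by decide +kernel) (ClAll.succ (ClAll.succ ClAll.zero n182) n183)

def n185 : Cl (O (nat_lit 6)) (R (nat_lit 135377))
    (p (nat_lit 0x8a8989088a1a) (nat_lit 0) (p (nat_lit 0x10a090888079a) (nat_lit 0) (p (nat_lit 0x89888807871a) (nat_lit 0) (p (nat_lit 0x8000080000000090787088a) (nat_lit 0) (p (nat_lit 0x8000080000000088706860a) (nat_lit 0) (p (nat_lit 0x10706860782) (nat_lit 0) (p (nat_lit 0x8686058702) (nat_lit 0) (p (nat_lit 0x10605850482) (nat_lit 0) (p (nat_lit 0x8585048402) (nat_lit 0) (p (nat_lit 0x160004) (nat_lit 0) (p (nat_lit 0x60592) (nat_lit 0) (p (nat_lit 0x48512)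 (nat_lit 0) (p (nat_lit 0x50392) (nat_lit 0) (p (nat_lit 0x38312) (nat_lit 0) (p (nat_lit 0x40212) (nat_lit 0) (p (nat_lit 0x28192) (nat_lit 0) (p (nat_lit 0x30092) (nat_lit 0) (p (nat_lit 0x18012) (nat_lit 0) pn)))))))))))))))))) :=
  Cl.node (nat_lit 0x10b0a09890a9a) (nat_lit 1) (by decide +kernel) (ClAll.succ ClAll.zero n184)

def n186 : Cl (O (nat_lit 6)) (R (nat_lit 135377))
    (p (nat_lit 0x10a090888079a) (nat_lit 0) (p (nat_lit 0x89888807871a) (nat_lit 0) (p (nat_lit 0x8000080000000090787088a) (nat_lit 0) (p (nat_lit 0x8000080000000088706860a) (nat_lit 0) (p (nat_lit 0x10706860782) (nat_lit 0) (p (nat_lit 0x8686058702) (nat_lit 0) (p (nat_lit 0x10605850482) (nat_lit 0) (p (nat_lit 0x8585048402) (nat_lit 0) (p (nat_lit 0x160004) (nat_lit 0) (p (nat_lit 0x60592) (nat_lit 0) (p (nat_lit 0x48512) (nat_lit 0) (p (nat_lit 0x50392) (nat_lit 0) (p (nat_lit 0x38312) (nat_lit 0) (p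 (nat_lit 0x40212) (nat_lit 0) (p (nat_lit 0x28192) (nat_lit 0) (p (nat_lit 0x30092) (nat_lit 0) (p (nat_lit 0x18012) (nat_lit 0) pn))))))))))))))))) :=
  Cl.node (nat_lit 0x8a8989088a1a) (nat_lit 1) (by decide +kernel) (ClAll.succ ClAll.zero n185)

def n187 : Cl (O (nat_lit 6)) (R (nat_lit 135377))
    (p (nat_lit 0x89888807871a) (nat_lit 0) (p (nat_lit 0x8000080000000090787088a) (nat_lit 0) (p (nat_lit 0x8000080000000088706860a) (nat_lit 0) (p (nat_lit 0x10706860782) (nat_lit 0) (p (nat_lit 0x8686058702) (nat_lit 0) (p (nat_lit 0x10605850482) (nat_lit 0) (p (nat_lit 0x8585048402) (nat_lit 0) (p (nat_lit 0x160004) (nat_lit 0) (p (nat_lit 0x60592) (nat_lit 0) (p (nat_lit 0x48512) (nat_lit 0) (p (nat_lit 0x50392) (nat_lit 0) (p (nat_lit 0x38312) (nat_lit 0) (p (nat_lit 0x40212) (nat_lit 0) (p (nat_lit 0x28192) (nat_lit 0) (p (nat_lit 0x30092) (nat_lit 0) (p (nat_lit 0x18012) (nat_lit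 0) pn)))))))))))))))) :=
  Cl.node (nat_lit 0x10a090888079a) (nat_lit 1) (by decide +kernel) (ClAll.succ ClAll.zero n186)

def n188 : Cl (O (nat_lit 6)) (R (nat_lit 135377))
    (p (nat_lit 0x8000080000000090787088a) (nat_lit 0) (p (nat_lit 0x8000080000000088706860a) (nat_lit 0) (p (nat_lit 0x10706860782) (nat_lit 0) (p (nat_lit 0x8686058702) (nat_lit 0) (p (nat_lit 0x10605850482) (nat_lit 0) (p (nat_lit 0x8585048402) (nat_lit 0) (p (nat_lit 0x160004) (nat_lit 0) (p (nat_lit 0x60592) (nat_lit 0) (p (nat_lit 0x48512) (nat_lit 0) (p (nat_lit 0x50392) (nat_lit 0) (p (nat_lit 0x38312) (nat_lit 0) (p (nat_lit 0x40212) (nat_lit 0) (p (nat_lit 0x28192) (nat_lit 0) (p (nat_lit 0x30092) (nat_lit 0) (p (nat_lit 0x18012) (nat_lit 0) pn))))))))))))))) :=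
  Cl.node (nat_lit 0x89888807871a) (nat_lit 1) (by decide +kernel) (ClAll.succ ClAll.zero n187)

def n189 : Cl (O (nat_lit 6)) (R (nat_lit 135377))
    (p (nat_lit 0x8000080000000088706860a) (nat_lit 0) (p (nat_lit 0x10706860782) (nat_lit 0) (p (nat_lit 0x8686058702) (nat_lit 0) (p (nat_lit 0x10605850482) (nat_lit 0) (p (nat_lit 0x8585048402) (nat_lit 0) (p (nat_lit 0x160004) (nat_lit 0) (p (nat_lit 0x60592) (nat_lit 0) (p (nat_lit 0x48512) (nat_lit 0) (p (nat_lit 0x50392) (nat_lit 0) (p (nat_lit 0x38312) (nat_lit 0) (p (nat_lit 0x40212) (nat_lit 0) (p (nat_lit 0x28192) (nat_lit 0) (p (nat_lit 0x30092) (nat_lit 0) (p (nat_lit 0x18012) (nat_lit 0) pn)))))))))))))) :=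
  Cl.node (nat_lit 0x8000080000000090787088a) (nat_lit 1) (by decide +kernel) (ClAll.succ ClAll.zero n188)

def n190 : Cl (O (nat_lit 6)) (R (nat_lit 135377))
    (p (nat_lit 0x10706860782) (nat_lit 0) (p (nat_lit 0x8686058702) (nat_lit 0) (p (nat_lit 0x10605850482) (nat_lit 0) (p (nat_lit 0x8585048402) (nat_lit 0) (p (nat_lit 0x160004) (nat_lit 0) (p (nat_lit 0x60592) (nat_lit 0) (p (nat_lit 0x48512) (nat_lit 0) (p (nat_lit 0x50392) (nat_lit 0) (p (nat_lit 0x38312) (nat_lit 0) (p (nat_lit 0x40212) (nat_lit 0) (p (nat_lit 0x28192) (nat_lit 0) (p (nat_lit 0x30092) (nat_lit 0) (p (nat_lit 0x18012) (nat_lit 0) pn))))))))))))) :=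
  Cl.node (nat_lit 0x8000080000000088706860a) (nat_lit 1) (by decide +kernel) (ClAll.succ ClAll.zero n189)

def n191 : Cl (O (nat_lit 6)) (R (nat_lit 135377))
    (p (nat_lit 0x8686058702) (nat_lit 0) (p (nat_lit 0x10605850482) (nat_lit 0) (p (nat_lit 0x8585048402) (nat_lit 0) (p (nat_lit 0x160004) (nat_lit 0) (p (nat_lit 0x60592) (nat_lit 0) (p (nat_lit 0x48512) (nat_lit 0) (p (nat_lit 0x50392) (nat_lit 0) (p (nat_lit 0x38312) (nat_lit 0) (p (nat_lit 0x40212) (nat_lit 0) (p (nat_lit 0x28192) (nat_lit 0) (p (nat_lit 0x30092) (nat_lit 0) (p (nat_lit 0x18012) (nat_lit 0) pn)))))))))))) :=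
  Cl.node (nat_lit 0x10706860782) (nat_lit 1) (by decide +kernel) (ClAll.succ ClAll.zero n190)

def n192 : Cl (O (nat_lit 6)) (R (nat_lit 135377))
    (p (nat_lit 0x10605850482) (nat_lit 0) (p (nat_lit 0x8585048402) (nat_lit 0) (p (nat_lit 0x160004) (nat_lit 0) (p (nat_lit 0x60592) (nat_lit 0) (p (nat_lit 0x48512) (nat_lit 0) (p (nat_lit 0x50392) (nat_lit 0) (p (nat_lit 0x38312) (nat_lit 0) (p (nat_lit 0x40212) (nat_lit 0) (p (nat_lit 0x28192) (nat_lit 0) (p (nat_lit 0x30092) (nat_lit 0) (p (nat_lit 0x18012) (nat_lit 0) pn))))))))))) :=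
  Cl.node (nat_lit 0x8686058702) (nat_lit 1) (by decide +kernel) (ClAll.succ ClAll.zero n191)

def n193 : Cl (O (nat_lit 6)) (R (nat_lit 135377))
    (p (nat_lit 0x8585048402) (nat_lit 0) (p (nat_lit 0x160004) (nat_lit 0) (p (nat_lit 0x60592) (nat_lit 0) (p (nat_lit 0x48512) (nat_lit 0) (p (nat_lit 0x50392) (nat_lit 0) (p (nat_lit 0x38312) (nat_lit 0) (p (nat_lit 0x40212) (nat_lit 0) (p (nat_lit 0x28192) (nat_lit 0) (p (nat_lit 0x30092) (nat_lit 0) (p (nat_lit 0x18012) (nat_lit 0) pn)))))))))) :=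
  Cl.node (nat_lit 0x10605850482) (nat_lit 1) (by decide +kernel) (ClAll.succ ClAll.zero n192)

def n194 : Cl (O (nat_lit 6)) (R (nat_lit 135377))
    (p (nat_lit 0x160004) (nat_lit 0) (p (nat_lit 0x60592) (nat_lit 0) (p (nat_lit 0x48512) (nat_lit 0) (p (nat_lit 0x50392) (nat_lit 0) (p (nat_lit 0x38312) (nat_lit 0) (p (nat_lit 0x40212) (nat_lit 0) (p (nat_lit 0x28192) (nat_lit 0) (p (nat_lit 0x30092) (nat_lit 0) (p (nat_lit 0x18012) (nat_lit 0) pn))))))))) :=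
  Cl.node (nat_lit 0x8585048402) (nat_lit 1) (by decide +kernel) (ClAll.succ ClAll.zero n193)

def n195 : Cl (O (nat_lit 6)) (R (nat_lit 135377))
    (p (nat_lit 0x60592) (nat_lit 0) (p (nat_lit 0x48512) (nat_lit 0) (p (nat_lit 0x50392) (nat_lit 0) (p (nat_lit 0x38312) (nat_lit 0) (p (nat_lit 0x40212) (nat_lit 0) (p (nat_lit 0x28192) (nat_lit 0) (p (nat_lit 0x30092) (nat_lit 0) (p (nat_lit 0x18012) (nat_lit 0) pn)))))))) :=
  Cl.node (nat_lit 0x160004) (nat_lit 2) (by decide +kernel) (ClAll.succ (ClAll.succ ClAll.zero n194) s174)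

def n196 : Cl (O (nat_lit 6)) (R (nat_lit 135377))
    (p (nat_lit 0x48512) (nat_lit 0) (p (nat_lit 0x50392) (nat_lit 0) (p (nat_lit 0x38312) (nat_lit 0) (p (nat_lit 0x40212) (nat_lit 0) (p (nat_lit 0x28192) (nat_lit 0) (p (nat_lit 0x30092) (nat_lit 0) (p (nat_lit 0x18012) (nat_lit 0) pn))))))) :=
  Cl.node (nat_lit 0x60592) (nat_lit 1) (by decide +kernel) (ClAll.succ ClAll.zero n195)

def n197 : Cl (O (nat_lit 6)) (R (nat_lit 135377))
    (p (nat_lit 0x50392) (nat_lit 0) (p (nat_lit 0x38312) (nat_lit 0) (p (nat_lit 0x40212) (nat_lit 0) (p (nat_lit 0x28192) (nat_lit 0) (p (nat_lit 0x30092) (nat_lit 0) (p (nat_lit 0x18012) (nat_lit 0) pn)))))) :=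
  Cl.node (nat_lit 0x48512) (nat_lit 1) (by decide +kernel) (ClAll.succ ClAll.zero n196)

def n198 : Cl (O (nat_lit 6)) (R (nat_lit 135377))
    (p (nat_lit 0x38312) (nat_lit 0) (p (nat_lit 0x40212) (nat_lit 0) (p (nat_lit 0x28192) (nat_lit 0) (p (nat_lit 0x30092) (nat_lit 0) (p (nat_lit 0x18012) (nat_lit 0) pn))))) :=
  Cl.node (nat_lit 0x50392) (nat_lit 1) (by decide +kernel) (ClAll.succ ClAll.zero n197)

def n199 : Cl (O (nat_lit 6)) (R (nat_lit 135377))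
    (p (nat_lit 0x40212) (nat_lit 0) (p (nat_lit 0x28192) (nat_lit 0) (p (nat_lit 0x30092) (nat_lit 0) (p (nat_lit 0x18012) (nat_lit 0) pn)))) :=
  Cl.node (nat_lit 0x38312) (nat_lit 1) (by decide +kernel) (ClAll.succ ClAll.zero n198)

def n200 : Cl (O (nat_lit 6)) (R (nat_lit 135377))
    (p (nat_lit 0x28192) (nat_lit 0) (p (nat_lit 0x30092) (nat_lit 0) (p (nat_lit 0x18012) (nat_lit 0) pn))) :=
  Cl.node (nat_lit 0x40212) (nat_lit 1) (by decide +kernel) (ClAll.succ ClAll.zero n199)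

def n201 : Cl (O (nat_lit 6)) (R (nat_lit 135377))
    (p (nat_lit 0x30092) (nat_lit 0) (p (nat_lit 0x18012) (nat_lit 0) pn)) :=
  Cl.node (nat_lit 0x28192) (nat_lit 1) (by decide +kernel) (ClAll.succ ClAll.zero n200)

def n202 : Cl (O (nat_lit 6)) (R (nat_lit 135377))
    (p (nat_lit 0x18012) (nat_lit 0) pn) :=
  Cl.node (nat_lit 0x30092) (nat_lit 1) (by decide +kernel) (ClAll.succ ClAll.zero n201)

def n203 : Cl (O (nat_lit 6)) (R (nat_lit 135377))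
    pn :=
  Cl.node (nat_lit 0x18012) (nat_lit 1) (by decide +kernel) (ClAll.succ ClAll.zero n202)

theorem top : Cl (O (nat_lit 6)) (R (nat_lit 135377)) pn := n203

end Pool.Agent.Gen.F5.X123C1Dm6
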